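import Pool.Agent.KTH.Defs
import Pool.Agent.HPow.Defs
import Pool.Agent.KSS.Defs

/-!
# KTH: schemes filtered by Hermitian pieces; products; definitions

HUNT line S for MP_e17fa799_al (architect helper33).
-/

set_option autoImplicit false

namespace Pool.Agent.KTH

open CategoryTheory AlgebraicGeometry Pool.Agent.HPow

/-- `Spec` of a ring -/
noncomputable abbrev Sp (R : Type) [CommRing R] : Scheme.{0} := Spec (CommRingCat.of R)

/-- `Spec` of a homomorphism -/
noncomputable abbrev Sm {R S : Type} [CommRing R] [CommRing S] (φ : R →+* S) : Sp S ⟶ Sp R :=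
  Spec.map (CommRingCat.ofHom φ)

/-- the product of two schemes (over `Spec ℤ`) -/
noncomputable abbrev px (X S : Scheme.{0}) : Scheme.{0} :=
  Limits.pullback (Limits.terminal.from X) (Limits.terminal.from S)

/-- the first projection -/
noncomputable abbrev pfst (X S : Scheme.{0}) : px X S ⟶ X :=
  Limits.pullback.fst (Limits.terminal.from X) (Limits.terminal.from S)

/-- functoriality -/
noncomputable def pmap {X Y : Scheme.{0}} (f : X ⟶ Y) (S : Scheme.{0}) : px X S ⟶ px Y S :=
  Limits.pullback.map _ _ _ _ f (𝟙 S) (𝟙 _) (by simp) (by simp)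

/-- The closed subset `T` of the `k`-scheme `Y` has a finite filtration by closed subsets
`∅ = T₀ ⊆ T₁ ⊆ … ⊆ T_r = T` such that `T_i ∖ T_(i-1)` is a closed subset of an affine open subscheme
`U_i` of `Y ∖ T_(i-1)` and, with a suitable structure of closed subscheme of `U_i`, is the spectrum of
a `k`-algebra with the property `P`. -/
inductive FilK (k : Type) [Field k] (P : ∀ (V : Type) [CommRing V] [Algebra k V], Prop)
    (Y : Scheme.{0}) (π : Y ⟶ Spec (CommRingCat.of k)) : Set Y → Prop
  | empty : FilK k P Y π ∅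
  | step (T T' : Set Y) (hT : IsClosed T) (hT' : IsClosed T') (U : Y.Opens) (hU : IsAffineOpen U)
      (V : Type) [CommRing V] [Algebra k V] (hV : P V)
      (i : Spec (CommRingCat.of V) ⟶ U.toScheme) [IsClosedImmersion i]
      (hi : i ≫ U.ι ≫ π = Spec.map (CommRingCat.ofHom (algebraMap k V)))
      (hTT' : T ⊆ T') (hTU : T ∩ U = ∅) (hr : T' \ T = Set.range (i ≫ U.ι))
      (h : FilK k P Y π T) : FilK k P Y π T'

/-- The `k`-algebra `V` is isomorphic to
`k[y₁, …, y_s, x₁, …, x_n] / (y_i ^ q + y_i - ∑ a_ij x_j ^ (q + 1))` for a matrix with entries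
`a_ij ∈ 𝔽_q`; if `ev` is `true` then for all `c ∈ 𝔽_q ^ s` the number of the variables which occur in
the form `∑_i c_i ∑_j a_ij x_j ^ (q + 1)` is even. -/
def IsHerm (q : ℕ) (ev : Bool) (k : Type) [Field k] (V : Type) [CommRing V] [Algebra k V] : Prop :=
  ∃ (s n : ℕ) (a : Fin s → Fin n → k), (∀ i j, a i j ^ q = a i j) ∧
    (ev = true → ∀ c : Fin s → k, (∀ i, c i ^ q = c i) →
      Even (Nat.card {j // ∑ i, c i * a i j ≠ 0})) ∧
    Nonempty (V ≃ₐ[k] HermRing q a)

attribute [local instance] MvPolynomial.gradedAlgebra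

/-- The smallest class of `k`-schemes which contains
* the `k`-schemes filtered by Hermitian pieces (the condition on the number of the variables is only
  required if `ev` is `true`),
* the closed subschemes of projective spaces `ℙ^(n-1)` over `k` whose underlying set is the Fermat
  hypersurface `∑ x_j ^ (q + 1) = 0` (`n` even if `ev` is `true`),
and is closed under fibre products over `k`. -/
inductive SrcH (q : ℕ) (ev : Bool) (k : Type) [Field k] : (Y : Scheme.{0}) →
    (Y ⟶ Spec (CommRingCat.of k)) → Prop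
  | fil (Y : Scheme.{0}) (π : Y ⟶ Spec (CommRingCat.of k))
      (h : FilK k (fun V _ _ => IsHerm q ev k V) Y π Set.univ) : SrcH q ev k Y π
  | fermat (n : ℕ) (hn : ev = true → Even n) (Z : Scheme.{0}) (i : Z ⟶ Pool.Agent.KSS.PP k n)
      [IsClosedImmersion i]
      (hi : Set.range i = Pool.Agent.KSS.ZL (∑ j, MvPolynomial.X j ^ (q + 1))) :
      SrcH q ev k Z (i ≫ Pool.Agent.KSS.PPπ k n)
  | prod (Y Y' : Scheme.{0}) (π : Y ⟶ Spec (CommRingCat.of k))
      (π' : Y' ⟶ Spec (CommRingCat.of k)) (h : SrcH q ev k Y π) (h' : SrcH q ev k Y' π') :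
      SrcH q ev k (Limits.pullback π π') (Limits.pullback.fst π π' ≫ π)

/-- the coordinate ring of the Hermitian curve `y ^ q + y = x ^ (q + 1)` -/
abbrev HR (q : ℕ) (k : Type) [Field k] : Type :=
  AS1 q (Polynomial k) (Polynomial.X ^ (q + 1))

end Pool.Agent.KTH
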