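import Pool.Agent.KTH.St

/-!
# KTH C1: one step of the covering lemma

HUNT line S for MP_e17fa799_al (architect helper33). For a nonempty noetherian scheme `X` and finite
flat `f_j : Y_j → X` there is a nonempty open `U ⊆ X` on which `N x = ∑ a_j push f_j (pull f_j x)`:
near a point the algebras `f_j _* O` are free, of rank `d_j = finrank f_j`, and `N = ∑ a_j d_j`.
-/

set_option autoImplicit false

namespace Pool.Agent.KTH

open CategoryTheory AlgebraicGeometry TensorProduct

universe u

/-- a finite flat algebra over a noetherian ring is free near a prime, of the right rank -/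
theorem c1_basis (A B : Type) [CommRing A] [CommRing B] [Algebra A B] [IsNoetherianRing A]
    [Module.Finite A B] [Module.Flat A B] (p : PrimeSpectrum A) :
    ∃ r : A, r ∉ p.asIdeal ∧ Nonempty (Module.Basis (Fin (Module.rankAtStalk B p))
      (Localization.Away r) (Localization.Away r ⊗[A] B)) := by
  have hfp : Module.FinitePresentation A B := Module.finitePresentation_of_finite A B
  have hfr : Module.Free (Localization.AtPrime p.asIdeal)
      (LocalizedModule p.asIdeal.primeCompl B) := by
    have h1 : p ∈ Module.freeLocus A B := by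
      rw [Module.freeLocus_eq_univ]; trivial
    exact h1
  have hfi : Module.Finite (Localization.AtPrime p.asIdeal)
      (LocalizedModule p.asIdeal.primeCompl B) :=
    Module.Finite.of_isLocalizedModule p.asIdeal.primeCompl
      (LocalizedModule.mkLinearMap p.asIdeal.primeCompl B)
  obtain ⟨r, hr, b', -⟩ := Module.FinitePresentation.exists_basis_localizedModule_powers
    p.asIdeal.primeCompl (LocalizedModule.mkLinearMap p.asIdeal.primeCompl B)
    (Localization.AtPrime p.asIdeal)
    (Module.finBasis (Localization.AtPrime p.asIdeal) (LocalizedModule p.asIdeal.primeCompl B))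
  refine ⟨r, hr, ⟨b'.map ?_⟩⟩
  exact LocalizedModule.equivTensorProduct (Submonoid.powers r) B

/-- open subschemes of noetherian schemes -/
theorem c1_noeth {X Y : Scheme.{0}} [IsNoetherian X] (j : Y ⟶ X) [IsOpenImmersion j] :
    IsNoetherian Y := by
  have h1 : IsLocallyNoetherian Y := isLocallyNoetherian_of_isOpenImmersion j
  have h2 : CompactSpace Y := by
    have h3 : TopologicalSpace.NoetherianSpace Y :=
      j.isOpenEmbedding.isInducing.noetherianSpace
    infer_instance
  exact { }

/-- the source of a finite morphism to a noetherian scheme is noetherian -/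
theorem c1_noeth2 {X Y : Scheme.{0}} [IsNoetherian X] (f : Y ⟶ X) [IsFinite f] :
    IsNoetherian Y := by
  have h1 : IsLocallyNoetherian Y := LocallyOfFiniteType.isLocallyNoetherian f
  have h2 : CompactSpace Y := QuasiCompact.compactSpace_of_compactSpace f
  exact { }

/-- the algebraic form of the chart lemma -/
theorem c1_chart0 {X Y : Scheme.{0}} (f : Y ⟶ X) [IsFinite f] [Flat f] (A B : Type) [CommRing A]
    [CommRing B] [Algebra A B] [IsNoetherianRing A]
    (j : Spec (CommRingCat.of A) ⟶ X) [IsOpenImmersion j] (g : Spec (CommRingCat.of B) ⟶ Y)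
    (hpb : IsPullback g (Spec.map (CommRingCat.ofHom (algebraMap A B))) f j)
    (p : PrimeSpectrum A) :
    ∃ (R R' : Type) (_ : CommRing R) (_ : CommRing R') (_ : Algebra R R')
      (_ : Module.Basis (Fin (f.finrank (j p))) R R')
      (j' : Spec (CommRingCat.of R) ⟶ X) (g' : Spec (CommRingCat.of R') ⟶ Y),
      IsOpenImmersion j' ∧ j p ∈ Set.range j' ∧
      IsPullback g' (Spec.map (CommRingCat.ofHom (algebraMap R R'))) f j' := by
  have h1 : IsFinite (Spec.map (CommRingCat.ofHom (algebraMap A B))) :=
    MorphismProperty.of_isPullback hpb (inferInstance : IsFinite f)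
  have h2 : Flat (Spec.map (CommRingCat.ofHom (algebraMap A B))) :=
    MorphismProperty.of_isPullback hpb (inferInstance : Flat f)
  have h5 : Module.Finite A B := RingHom.finite_algebraMap.1 ((IsFinite.SpecMap_iff _).1 h1)
  have h6 : Module.Flat A B := (RingHom.flat_algebraMap_iff).1 ((Flat.SpecMap_iff).1 h2)
  obtain ⟨r, hr, ⟨b⟩⟩ := c1_basis A B p
  have hrk : f.finrank (j p) = Module.rankAtStalk B p := by
    rw [← Scheme.Hom.finrank_of_isPullback _ _ _ _ hpb p]
    exact Scheme.Hom.finrank_SpecMap_algebraMap A B p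
  rw [← hrk] at b
  have hpo := (isPullback_SpecMap_of_isPushout _ _ _ _
    (CommRingCat.isPushout_tensorProduct A (Localization.Away r) B)).flip
  have hbig := hpo.paste_horiz hpb
  refine ⟨Localization.Away r, Localization.Away r ⊗[A] B, inferInstance, inferInstance,
    inferInstance, b, _, _, ?_, ?_, hbig⟩
  · have h7 : IsOpenImmersion (Spec.map (CommRingCat.ofHom
        (algebraMap A (Localization.Away r)))) := inferInstance
    infer_instance
  · have h8 : p ∈ Set.range (PrimeSpectrum.comap (algebraMap A (Localization.Away r))) := by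
      rw [PrimeSpectrum.localization_away_comap_range (Localization.Away r) r]
      exact hr
    obtain ⟨p', hp'⟩ := h8
    exact ⟨p', (Scheme.Hom.comp_apply _ _ _).trans (congrArg (fun z => j z) hp')⟩

/-- an affine chart of a finite flat morphism -/
theorem c1_chart {X Y : Scheme.{0}} [IsNoetherian X] (f : Y ⟶ X) [IsFinite f] [Flat f] (x : X) :
    ∃ (R R' : Type) (_ : CommRing R) (_ : CommRing R') (_ : Algebra R R')
      (_ : Module.Basis (Fin (f.finrank x)) R R')
      (j : Spec (CommRingCat.of R) ⟶ X) (g : Spec (CommRingCat.of R') ⟶ Y),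
      IsOpenImmersion j ∧ x ∈ Set.range j ∧
      IsPullback g (Spec.map (CommRingCat.ofHom (algebraMap R R'))) f j := by
  obtain ⟨A, j, hj, p, rfl⟩ := X.exists_Spec_apply_eq x
  have hN : IsNoetherian (Spec A) := c1_noeth j
  have hA : IsNoetherianRing A := isLocallyNoetherian_Spec.1 inferInstance
  -- the pull-back
  have haff : IsAffine (Limits.pullback f j) := isAffine_of_isAffineHom (Limits.pullback.snd f j)
  obtain ⟨φ, hφ⟩ := Spec.map_surjective
    ((Limits.pullback f j).isoSpec.inv ≫ Limits.pullback.snd f j)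
  have hpb : IsPullback ((Limits.pullback f j).isoSpec.inv ≫ Limits.pullback.fst f j)
      (Spec.map φ) f j := by
    rw [hφ]
    exact IsPullback.of_iso (IsPullback.of_hasPullback f j)
      (Limits.pullback f j).isoSpec (Iso.refl _) (Iso.refl _) (Iso.refl _)
      (by simp) (by simp) (by simp) (by simp)
  let : Algebra A Γ(Limits.pullback f j, ⊤) := φ.hom.toAlgebra
  exact c1_chart0 f A Γ(Limits.pullback f j, ⊤) j _ hpb p

/-- near a point, `push (pull x) = d x`, `d` the rank at the point -/
theorem c1_local (T : Thy.{u}) {X Y : Scheme.{0}} [IsNoetherian X] (f : Y ⟶ X) [IsFinite f]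
    [Flat f] (x : X) :
    ∃ U : X.Opens, x ∈ U ∧ ∀ z : T.T X,
      T.pull U.ι (T.push f (T.pull f z)) = f.finrank x • T.pull U.ι z := by
  obtain ⟨R, R', _, _, _, b, j, g, hj, hx, hpb⟩ := c1_chart f x
  have hN : IsNoetherian (Spec (CommRingCat.of R)) := c1_noeth j
  have hNY : IsNoetherian Y := c1_noeth2 f
  have h1 : IsFinite (Spec.map (CommRingCat.ofHom (algebraMap R R'))) :=
    MorphismProperty.of_isPullback hpb (inferInstance : IsFinite f)
  have h2 : Flat (Spec.map (CommRingCat.ofHom (algebraMap R R'))) :=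
    MorphismProperty.of_isPullback hpb (inferInstance : Flat f)
  have hg : IsOpenImmersion g := by
    exact MorphismProperty.of_isPullback hpb.flip hj
  have hNR' : IsNoetherian (Spec (CommRingCat.of R')) := c1_noeth g
  have hmain : ∀ z : T.T X, T.pull j (T.push f (T.pull f z)) = f.finrank x • T.pull j z := by
    intro z
    rw [T.bc g (Spec.map (CommRingCat.ofHom (algebraMap R R'))) f j hpb (T.pull f z),
      ← T.pull_comp g f z]
    have h3 : T.pull (g ≫ f) z =
        T.pull (Spec.map (CommRingCat.ofHom (algebraMap R R'))) (T.pull j z) := by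
      rw [← T.pull_comp]
      congr 2
      exact hpb.w
    rw [h3]
    exact T.free R R' (f.finrank x) b (Spec.map (CommRingCat.ofHom (algebraMap R R'))) (𝟙 _) (𝟙 _)
      (IsPullback.of_vert_isIso ⟨by simp⟩) _
  have hNU : IsNoetherian j.opensRange := c1_noeth j.opensRange.ι
  refine ⟨j.opensRange, hx, fun z => ?_⟩
  have h4 : ∀ w : T.T X, T.pull j.opensRange.ι w = T.pull j.isoOpensRange.inv (T.pull j w) := by
    intro w
    rw [← T.pull_comp]
    congr 2
    exact (j.isoOpensRange_inv_comp).symm
  rw [h4, h4, hmain, map_nsmul]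

/-- Bezout -/
theorem c1_bezout {J : Type} [Fintype J] (d : J → ℕ) (N : ℕ)
    (h : ∀ e : ℕ, (∀ j, e ∣ d j) → e ∣ N) : ∃ a : J → ℤ, (N : ℤ) = ∑ j, a j * (d j : ℤ) := by
  classical
  have h1 : (Finset.univ.gcd d) ∣ N := h _ fun j => Finset.gcd_dvd (Finset.mem_univ j)
  have h2 : (N : ℤ) ∈ Ideal.span (Set.range fun j => (d j : ℤ)) := by
    obtain ⟨g, hg⟩ := (IsPrincipalIdealRing.principal
      (Ideal.span (Set.range fun j => (d j : ℤ)))).principal
    rw [hg, Ideal.submodule_span_eq, Ideal.mem_span_singleton]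
    have h3 : ∀ j, g ∣ (d j : ℤ) := by
      intro j
      rw [← Ideal.mem_span_singleton, ← Ideal.submodule_span_eq, ← hg]
      exact Ideal.subset_span ⟨j, rfl⟩
    have h4 : g.natAbs ∣ N := h _ fun j => by
      have := h3 j
      exact Int.natAbs_dvd_natAbs.2 this
    exact Int.natAbs_dvd.1 (Int.natCast_dvd_natCast.2 h4)
  obtain ⟨a, ha⟩ := (Ideal.mem_span_range_iff_exists_fun).1 h2
  exact ⟨a, ha.symm⟩

/-- **C1**, spelled out -/
theorem c1_main (T : Thy.{u}) (X : Scheme.{0}) [IsNoetherian X] [Nonempty X] (J : Type)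
    [Fintype J] (Y : J → Scheme.{0}) (f : ∀ j, Y j ⟶ X) [∀ j, IsFinite (f j)] [∀ j, Flat (f j)]
    (N : ℕ) (hN : ∀ x : X, ∀ d : ℕ, (∀ j, d ∣ (f j).finrank x) → d ∣ N) :
    ∃ (U : X.Opens) (a : J → ℤ), (U : Set X).Nonempty ∧ ∀ x : T.T X,
      T.pull U.ι (N • x - ∑ j, a j • T.push (f j) (T.pull (f j) x)) = 0 := by
  obtain ⟨x⟩ := (inferInstance : Nonempty X)
  obtain ⟨a, ha⟩ := c1_bezout (fun j => (f j).finrank x) N (hN x)
  choose U hxU hU using fun j => c1_local T (f j) x
  let V : X.Opens := ⟨⋂ j, (U j : Set X), isOpen_iInter_of_finite fun j => (U j).isOpen⟩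
  have hVU : ∀ j, V ≤ U j := fun j y hy => Set.mem_iInter.1 hy j
  have hxV : x ∈ V := Set.mem_iInter.2 fun j => hxU j
  have hNV : IsNoetherian (V : Scheme.{0}) := c1_noeth V.ι
  have hNU : ∀ j, IsNoetherian (U j : Scheme.{0}) := fun j => c1_noeth (U j).ι
  refine ⟨V, a, ⟨x, hxV⟩, fun z => ?_⟩
  have h1 : ∀ j, ∀ w : T.T X, T.pull V.ι w = T.pull (X.homOfLE (hVU j)) (T.pull (U j).ι w) := by
    intro j w
    rw [← T.pull_comp]
    congr 2
    exact (X.homOfLE_ι (hVU j)).symm
  have h2 : ∀ j, T.pull V.ι (T.push (f j) (T.pull (f j) z)) = (f j).finrank x • T.pull V.ι z := by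
    intro j
    rw [h1 j, hU j, map_nsmul, ← h1 j]
  rw [map_sub, map_nsmul, map_sum]
  simp_rw [map_zsmul, h2]
  rw [sub_eq_zero, ← natCast_zsmul, ha, Finset.sum_smul]
  refine Finset.sum_congr rfl fun j _ => ?_
  rw [mul_smul, natCast_zsmul]

/-- **C1** -/
theorem thm_C1 : St_C1.{u} := by
  intro T X _ _ J _ Y f _ _ N hN
  exact c1_main T X J Y f N hN

end Pool.Agent.KTH
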