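import Pool.Agent.KTH.St

/-!
# KTH.C2: the covering lemma for finite flat morphisms

HUNT line S for MP_e17fa799_al (architect helper33); module C2 by helper89.
-/

set_option autoImplicit false

namespace Pool.Agent.KTH

open CategoryTheory AlgebraicGeometry TopologicalSpace

universe u

/-- a closed immersion into a noetherian scheme has a noetherian source -/
lemma c2_noeth {Z X : Scheme.{0}} [IsNoetherian X] (i : Z ⟶ X) [IsClosedImmersion i] :
    IsNoetherian Z := by
  have h1 : IsLocallyNoetherian Z := LocallyOfFiniteType.isLocallyNoetherian i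
  have h2 : CompactSpace Z := (Scheme.Hom.isClosedEmbedding i).compactSpace
  exact { }

/-- a closed subscheme with a given closed range -/
lemma c2_sub (Z : Scheme.{0}) (C : Set Z) (hC : IsClosed C) :
    ∃ (Z' : Scheme.{0}) (i : Z' ⟶ Z), IsClosedImmersion i ∧ Set.range i = C := by
  let I := Scheme.IdealSheafData.vanishingIdeal (X := Z) ⟨C, hC⟩
  refine ⟨I.subscheme, I.subschemeι, inferInstance, ?_⟩
  rw [Scheme.IdealSheafData.range_subschemeι, Scheme.IdealSheafData.coe_support_vanishingIdeal]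
  rfl

/-- the push-forward only depends on the morphism -/
lemma c2_push_congr (T : Thy.{u}) {X Y : Scheme.{0}} {f g : X ⟶ Y} [IsFinite f] [IsFinite g]
    (h : f = g) (x : T.T X) : T.push f x = T.push g x := by
  subst h
  rfl

/-- the induction -/
lemma c2_main (h1 : St_C1.{u}) (hT1 : St_T1.{u}) (T : Thy.{u}) (X : Scheme.{0}) [IsNoetherian X]
    (J : Type) [Fintype J] (Y : J → Scheme.{0}) (f : ∀ j, Y j ⟶ X) [∀ j, IsFinite (f j)]
    [∀ j, Flat (f j)] (N : ℕ)
    (hN : ∀ x : X, ∀ d : ℕ, (∀ j, d ∣ (f j).finrank x) → d ∣ N) (C : Closeds X) :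
    ∀ (Z : Scheme.{0}) (i : Z ⟶ X) [IsClosedImmersion i], Set.range i = (C : Set X) →
      ∃ e : ℕ, ∀ z : T.T Z, N ^ e • T.push i z ∈ ⨆ j, (T.push (f j)).range := by
  induction C using WellFoundedLT.induction with
  | ind C ih =>
    intro Z i hi hr
    have hZ : IsNoetherian Z := c2_noeth i
    rcases isEmpty_or_nonempty Z with hE | hne
    · refine ⟨0, fun z => ?_⟩
      rw [(hT1 T).2.1 Z hE z, map_zero, smul_zero]
      exact zero_mem _
    let Y' : J → Scheme.{0} := fun j => Limits.pullback (f j) i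
    let f' : ∀ j, Y' j ⟶ Z := fun j => Limits.pullback.snd (f j) i
    let g' : ∀ j, Y' j ⟶ Y j := fun j => Limits.pullback.fst (f j) i
    have hc : ∀ j, g' j ≫ f j = f' j ≫ i := fun j => Limits.pullback.condition
    have hN' : ∀ x : Z, ∀ d : ℕ, (∀ j, d ∣ (f' j).finrank x) → d ∣ N := by
      intro x d hd
      refine hN (i x) d fun j => ?_
      have := hd j
      rwa [Scheme.Hom.finrank_pullback_snd] at this
    obtain ⟨U, a, hU, ha⟩ := h1 T Z J Y' f' N hN'
    obtain ⟨Z', i', hi', hr'⟩ := c2_sub Z (U : Set Z)ᶜ (isClosed_compl_iff.mpr U.isOpen)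
    -- the smaller closed subset
    have hcl : IsClosed (Set.range (i' ≫ i)) := (Scheme.Hom.isClosedEmbedding (i' ≫ i)).isClosed_range
    have hlt : (⟨Set.range (i' ≫ i), hcl⟩ : Closeds X) < C := by
      rw [← SetLike.coe_ssubset_coe]
      rw [Set.ssubset_iff_exists]
      constructor
      · rintro _ ⟨z, rfl⟩
        rw [← hr]
        exact ⟨i' z, by simp⟩
      · obtain ⟨u, hu⟩ := hU
        refine ⟨i u, ?_, ?_⟩
        · rw [← hr]; exact ⟨u, rfl⟩
        · rintro ⟨z, hz⟩
          have h2 : i (i' z) = i u := by simpa using hz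
          have h3 : i' z = u := (Scheme.Hom.isClosedEmbedding i).injective h2
          have h4 : i' z ∈ (U : Set Z)ᶜ := by rw [← hr']; exact ⟨z, rfl⟩
          rw [h3] at h4
          exact h4 hu
    obtain ⟨e, he⟩ := ih _ hlt Z' (i' ≫ i) rfl
    refine ⟨e + 1, fun z => ?_⟩
    have hrU : Set.range i' = (Set.range U.ι)ᶜ := by
      rw [hr']
      congr 1
      exact (Scheme.Opens.range_ι U).symm
    obtain ⟨w, hw⟩ := T.ex i' U.ι hrU _ (ha z)
    have h5 : N • T.push i z = T.push (i' ≫ i) w +
        ∑ j, a j • T.push (f j) (T.push (g' j) (T.pull (f' j) z)) := by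
      rw [T.push_comp, hw, map_sub, map_nsmul, map_sum]
      rw [sub_add_eq_add_sub, eq_sub_iff_add_eq]
      congr 1
      refine Finset.sum_congr rfl fun j _ => ?_
      rw [map_zsmul, ← T.push_comp, ← T.push_comp]
      exact congrArg (a j • ·) (c2_push_congr T (hc j).symm _)
    rw [pow_succ, mul_smul, h5, smul_add]
    refine add_mem (he w) ?_
    refine nsmul_mem (sum_mem fun j _ => zsmul_mem ?_ _) _
    exact (le_iSup (fun j => (T.push (f j)).range) j) ⟨_, rfl⟩

theorem thm_C2 (h1 : St_C1.{u}) (hT1 : St_T1.{u}) : St_C2.{u} := by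
  intro T X _ J _ Y f _ _ N hN
  have := Fintype.ofFinite J
  obtain ⟨e, he⟩ := c2_main h1 hT1 T X J Y f N hN ⊤ X (𝟙 X) (by simp)
  refine ⟨e, fun x => ?_⟩
  have := he x
  rwa [T.push_id] at this

end Pool.Agent.KTH
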