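import Pool.Agent.KTH.St

/-!
# KTH, module FI: filtered schemes (helper57)
-/

set_option autoImplicit false

namespace Pool.Agent.KTH

open CategoryTheory AlgebraicGeometry

private theorem fi_noeth {X Y : Scheme.{0}} (f : X ⟶ Y) [IsClosedImmersion f] [IsNoetherian Y] :
    IsNoetherian X := by
  have h5 : IsLocallyNoetherian X := LocallyOfFiniteType.isLocallyNoetherian f
  have h6 : CompactSpace X := by
    have : CompactSpace Y := inferInstance
    exact QuasiCompact.compactSpace_of_compactSpace f
  exact { }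

private theorem fi_open {X : Scheme.{0}} [IsNoetherian X] (U : X.Opens) :
    IsNoetherian U.toScheme := by
  have h1 : TopologicalSpace.NoetherianSpace U.toScheme :=
    U.ι.isOpenEmbedding.isInducing.noetherianSpace
  have h6 : CompactSpace U.toScheme := inferInstance
  exact { }

/-- closed subschemes of `X` with the same support -/
private theorem fi_same {P : Scheme.{0} → Prop} (hP : SCls P) {A B X : Scheme.{0}}
    [IsNoetherian X] (a : A ⟶ X) (b : B ⟶ X) [IsClosedImmersion a] [IsClosedImmersion b]
    (h : Set.range a = Set.range b) (hB : P B) : P A := by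
  have hA' : IsNoetherian A := fi_noeth a
  have hB' : IsNoetherian B := fi_noeth b
  have h1 : Function.Surjective (Limits.pullback.fst a b) := by
    intro x
    obtain ⟨y, hy⟩ : a x ∈ Set.range b := h ▸ ⟨x, rfl⟩
    obtain ⟨z, hz, -⟩ := Scheme.Pullback.exists_preimage_pullback x y hy.symm
    exact ⟨z, hz⟩
  have h2 : Function.Surjective (Limits.pullback.snd a b) := by
    intro y
    obtain ⟨x, hx⟩ : b y ∈ Set.range a := h.symm ▸ ⟨y, rfl⟩
    obtain ⟨z, -, hz⟩ := Scheme.Pullback.exists_preimage_pullback x y hx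
    exact ⟨z, hz⟩
  exact (hP.dev _ A (Limits.pullback.fst a b) h1).1 ((hP.dev _ B (Limits.pullback.snd a b) h2).2 hB)

theorem thm_FI : St_FI := by
  intro P hP k _ Q Y hY π T hQ hF
  induction hF with
  | empty =>
    intro Z i _ hr
    refine hP.empty Z ⟨fun z => ?_⟩
    have h : i z ∈ (∅ : Set Y) := hr ▸ ⟨z, rfl⟩
    exact h
  | step T T' hT hT' U hU V hV i₀ hi hTT' hTU hr' h ih =>
    intro Z i _ hr
    have hZ : IsNoetherian Z := fi_noeth i
    have hU' : IsNoetherian U.toScheme := fi_open U
    have hZU : IsNoetherian (i ⁻¹ᵁ U).toScheme := fi_open _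
    -- the complement
    let C : TopologicalSpace.Closeds Z := ⟨((i ⁻¹ᵁ U : Z.Opens) : Set Z)ᶜ,
      (i ⁻¹ᵁ U).isOpen.isClosed_compl⟩
    have hC : Set.range (Scheme.IdealSheafData.vanishingIdeal C).subschemeι =
        (C : Set Z) := by
      rw [Scheme.IdealSheafData.range_subschemeι, Scheme.IdealSheafData.coe_support_vanishingIdeal]
    refine hP.loc (Scheme.IdealSheafData.vanishingIdeal C).subscheme Z (i ⁻¹ᵁ U).toScheme
      (Scheme.IdealSheafData.vanishingIdeal C).subschemeι (i ⁻¹ᵁ U).ι ?_ ?_ ?_
    · rw [hC, Scheme.Opens.range_ι]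
      rfl
    · refine ih _ ((Scheme.IdealSheafData.vanishingIdeal C).subschemeι ≫ i) ?_
      apply Set.Subset.antisymm
      · rintro _ ⟨z, rfl⟩
        rw [Scheme.Hom.comp_apply]
        set c := (Scheme.IdealSheafData.vanishingIdeal C).subschemeι z with hc
        have h1 : c ∈ (C : Set Z) := hC ▸ ⟨z, rfl⟩
        have h2 : i c ∉ U := h1
        have h3 : i c ∈ T' := hr ▸ ⟨c, rfl⟩
        by_contra h4
        have h5 : i c ∈ T' \ T := ⟨h3, h4⟩
        rw [hr'] at h5
        obtain ⟨v, hv⟩ := h5
        rw [Scheme.Hom.comp_apply] at hv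
        apply h2
        rw [← hv]
        exact (i₀ v).2
      · intro y hy
        have h1 : y ∈ T' := hTT' hy
        rw [← hr] at h1
        obtain ⟨z, rfl⟩ := h1
        have h2 : z ∈ (C : Set Z) := by
          intro hz
          have h3 : i z ∈ T ∩ (U : Set Y) := ⟨hy, hz⟩
          rw [hTU] at h3
          exact h3
        rw [← hC] at h2
        obtain ⟨w, rfl⟩ := h2
        exact ⟨w, Scheme.Hom.comp_apply _ _ _⟩
    · refine fi_same hP (X := U.toScheme) (i ∣_ U) i₀ ?_ (hQ V hV)
      have hres : ∀ z, U.ι ((i ∣_ U) z) = i ((i ⁻¹ᵁ U).ι z) := by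
        intro z
        rw [← Scheme.Hom.comp_apply, ← Scheme.Hom.comp_apply, morphismRestrict_ι]
      have hinj : Function.Injective U.ι := U.ι.isOpenEmbedding.injective
      apply Set.Subset.antisymm
      · rintro _ ⟨z, rfl⟩
        have h1 : U.ι ((i ∣_ U) z) ∈ T' \ T := by
          constructor
          · rw [hres, ← hr]
            exact ⟨_, rfl⟩
          · intro h2
            have h3 : U.ι ((i ∣_ U) z) ∈ T ∩ (U : Set Y) := ⟨h2, ((i ∣_ U) z).2⟩
            rw [hTU] at h3
            exact h3
        rw [hr'] at h1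
        obtain ⟨v, hv⟩ := h1
        rw [Scheme.Hom.comp_apply] at hv
        exact ⟨v, hinj hv⟩
      · rintro _ ⟨v, rfl⟩
        have h1 : U.ι (i₀ v) ∈ T' \ T := by
          rw [hr']
          exact ⟨v, Scheme.Hom.comp_apply _ _ _⟩
        have h2 := h1.1
        rw [← hr] at h2
        obtain ⟨z, hz⟩ := h2
        have hzU : z ∈ i ⁻¹ᵁ U := by
          have h3 : i z ∈ U := by
            rw [hz]
            exact (i₀ v).2
          exact h3
        refine ⟨⟨z, hzU⟩, hinj ?_⟩
        rw [hres]
        exact hz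

end Pool.Agent.KTH
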