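import Pool.Agent.KTH.St
import Pool.Agent.THY.Herm

/-!
# KTH, module HC: Hermitian rings
-/

set_option autoImplicit false

namespace Pool.Agent.KTH

open CategoryTheory AlgebraicGeometry Pool.Agent.HPow Pool.Agent.THY

theorem thm_HC : St_HC := by
  intro p m q t k _ hk G hG H0 s n a ha Ho
  exact hG.herm hk a ha H0 Ho

end Pool.Agent.KTH
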