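import Pool.Agent.KTH.St

/-!
# KTH, module HT: the closure properties of the predicate `GR T p`
-/

set_option autoImplicit false

namespace Pool.Agent.KTH

open CategoryTheory AlgebraicGeometry Pool.Agent.HPow Pool.Agent.THY

universe u

private theorem HT_noeth (q : ℕ) (W : Type) [CommRing W] [IsNoetherianRing W] (g : W) :
    IsNoetherianRing (AS1 q W g) :=
  isNoetherianRing_of_surjective (Polynomial W) (AS1 q W g)
    (AdjoinRoot.mk (Polynomial.X ^ q + Polynomial.X - Polynomial.C g))
    AdjoinRoot.mk_surjective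

theorem thm_HT (hTR : St_TR.{u}) (hTX : St_TX.{u}) (hTD : St_TD.{u}) : St_HT.{u} := by
  intro p m q t k _ hset T
  have : Fact p.Prime := ⟨hset.hp⟩
  obtain ⟨h1, h2, h3, h4, h5⟩ := hTR p T
  refine ⟨h1, fun R _ hR => h2 R hR, h3, h4, fun R S _ _ _ _ e b => h5 R S e b, ?_, ?_⟩
  · intro W _ _ _ f g hg hf _
    refine hTX p m q t k hset T W f g (hg (HT_noeth q W g)) fun c hc => ?_
    exact hf c hc (HT_noeth q W _)
  · intro W _ _ _ g h hW hgh _
    exact hTD p m q t k hset T W g h (hW inferInstance) (hgh (HT_noeth q _ _))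

end Pool.Agent.KTH
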