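import Pool.Agent.KTH.St

/-!
# KTH, module M: the theorem
-/

set_option autoImplicit false

namespace Pool.Agent.KTH

open CategoryTheory AlgebraicGeometry Pool.Agent.HPow

universe u

private theorem M_noeth {Z X : Scheme.{0}} [IsNoetherian X] (i : Z ⟶ X) [IsClosedImmersion i] :
    IsNoetherian Z :=
  haveI h1 : IsLocallyNoetherian Z := LocallyOfFiniteType.isLocallyNoetherian i
  haveI h2 : CompactSpace Z := QuasiCompact.compactSpace_of_compactSpace i
  { h1, h2 with }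

private theorem M_noeth' {U X : Scheme.{0}} [IsNoetherian X] (j : U ⟶ X) [IsOpenImmersion j] :
    IsNoetherian U :=
  haveI h1 : IsLocallyNoetherian U := isLocallyNoetherian_of_isOpenImmersion j
  haveI h2 : CompactSpace U := QuasiCompact.compactSpace_of_compactSpace j
  { h1, h2 with }

/-- the predicate on schemes has the closure properties -/
private theorem M_scls (hGG : St_GG.{u}) (hT1 : St_T1.{u}) (T : Thy.{u}) (p : ℕ) :
    SCls (fun X => IsNoetherian X → GdG p (T.T X)) := by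
  obtain ⟨g1, g2, g3, g4, g5, g6⟩ := hGG
  obtain ⟨t1, t2, t3, t4, t5, t6⟩ := hT1 T
  refine ⟨?_, ?_, ?_⟩
  · intro X hX _
    exact g6 p (T.T X) ⟨fun a b => by rw [t2 X hX a, t2 X hX b]⟩
  · intro Z X U _ i j _ _ hr hZ hU _
    exact t4 p Z X U i j hr (hZ (M_noeth i)) (hU (M_noeth' j))
  · intro Z X _ i _ hs
    have hb := t3 Z X i hs
    refine ⟨fun h _ => g2 p _ _ (T.push i) hb.2 (h (M_noeth i)), fun h _ => ?_⟩
    exact g1 p _ _ (T.push i) hb.1 (h inferInstance)

/-- Hermitian pieces are good -/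
private theorem M_herm (hHT : St_HT.{u}) (hHC : St_HC) (T : Thy.{u}) {p m q t : ℕ} {k : Type}
    [Field k] (hset : Setg p m q t k) (ev : Bool) (h1 : GdG p (T.T (Sp k)))
    (h3 : ev = false → GdG p (T.T (Sp (HR q k))))
    (V : Type) [CommRing V] [Algebra k V] (hV : IsHerm q ev k V) : GdG p (T.T (Sp V)) := by
  obtain ⟨s, n, a, ha, hev, ⟨φ⟩⟩ := hV
  have hcls := hHT p m q t k hset T
  have hG := hHC p m q t k hset (fun R _ => GR T p R) hcls (fun _ => h1) s n a ha
    (by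
      rintro ⟨c, hc, hn⟩ _
      cases ev with
      | false => exact h3 rfl
      | true => exact absurd (hev rfl c hc) hn)
  have hG' : GR T p V := hcls.iso (HermRing q a) V φ.symm.toRingEquiv hG
  have : IsNoetherianRing V := isNoetherianRing_of_ringEquiv (HermRing q a) φ.symm.toRingEquiv
  exact hG' inferInstance

/-- one of the schemes -/
private theorem M_one (hGG : St_GG.{u}) (hT1 : St_T1.{u}) (hR1 : St_R1) (hR2 : St_R2.{u})
    (hHT : St_HT.{u}) (hHC : St_HC) (hFI : St_FI) (hQ6 : St_Q6) (T : Thy.{u}) {p m q t : ℕ}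
    {k : Type} [Field k] (hset : Setg p m q t k) (ev : Bool) (Y : Scheme.{0}) [IsNoetherian Y]
    (σ : Y ⟶ Spec (CommRingCat.of k)) (hY : SrcH q ev k Y σ) (S : Scheme.{0})
    [LocallyOfFiniteType (Limits.terminal.from S)] [QuasiCompact (Limits.terminal.from S)]
    (h1 : GdG p (T.T (px (Sp k) S)))
    (h3 : ev = false → GdG p (T.T (px (Sp (HR q k)) S))) (Z : Scheme.{0}) (c : Z ⟶ px Y S)
    [IsOpenImmersion c] [IsClosedImmersion c] : GdG p (T.T Z) := by
  obtain ⟨T', ε, -, -⟩ := hR2 T S inferInstance inferInstance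
  have g1 := hGG.1
  have e1 : ∀ X : Scheme.{0}, GdG p (T.T (px X S)) → GdG p (T'.T X) := fun X h =>
    g1 p _ _ (ε X).toAddMonoidHom (ε X).injective h
  have e2 : ∀ X : Scheme.{0}, GdG p (T'.T X) → GdG p (T.T (px X S)) := fun X h =>
    g1 p _ _ (ε X).symm.toAddMonoidHom (ε X).symm.injective h
  have hfil := hQ6 p m q t k hset ev Y σ hY
  have hP := hFI (fun X => IsNoetherian X → GdG p (T'.T X)) (M_scls hGG hT1 T' p) k
    (fun V _ _ => IsHerm q ev k V) Y σ Set.univ
    (fun V _ _ hV _ => M_herm hHT hHC T' hset ev (e1 _ h1) (fun h => e1 _ (h3 h)) V hV)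
    hfil Y (𝟙 Y) (Set.range_eq_univ.2 fun y => ⟨y, rfl⟩)
  have hYS : GdG p (T.T (px Y S)) := e2 Y (hP inferInstance)
  have : IsNoetherian (px Y S) := (hR1 S).2.2.2.2.2 Y inferInstance inferInstance inferInstance
  exact g1 p _ _ (T.push c) ((hT1 T).2.2.2.2.2 Z (px Y S) c) hYS

theorem thm_M (hGG : St_GG.{u}) (hT1 : St_T1.{u}) (hR1 : St_R1) (hR2 : St_R2.{u})
    (hHT : St_HT.{u}) (hHC : St_HC) (hFI : St_FI) (hQ6 : St_Q6) (hC2 : St_C2.{u}) :
    St_M.{u} := by
  intro p T X _ J _ m q t k _ hset ev Y _ σ hY S _ _ h1 h3 Z c _ _ f _ _ N hN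
  obtain ⟨e, he⟩ := hC2 T X J Z f N hN
  have hgood : ∀ j, GdG (p * N) (T.T (Z j)) := fun j =>
    hGG.2.2.2.2.1 p (p * N) _ (Dvd.intro _ rfl)
      (M_one hGG hT1 hR1 hR2 hHT hHC hFI hQ6 T (hset j) (ev j) (Y j) (σ j) (hY j) (S j) (h1 j)
        (h3 j) (Z j) (c j))
  refine hGG.2.2.2.1 (p * N) e (T.T X) J (fun j => T.T (Z j)) (fun j => T.push (f j)) ?_ hgood
  intro x
  rw [mul_pow, mul_smul]
  exact AddSubgroup.nsmul_mem _ (he x) _

end Pool.Agent.KTH
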