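import Pool.Agent.KTH.St
import Pool.Agent.THY.Herm

/-!
# KTH, module MB: families of Hermitian rings
-/

set_option autoImplicit false

namespace Pool.Agent.KTH

open CategoryTheory AlgebraicGeometry Pool.Agent.HPow Pool.Agent.THY

universe u

theorem thm_MB (hHT : St_HT.{u}) : St_MB.{u} := by
  intro p m q t k _ hk T B _ _ _ s n h a ha H0 He Ho
  have hG := hHT p m q t k hk T
  exact hG.rel hk h a ha (fun _ => H0) (fun c hc hr _ => He c hc hr)
    (fun c hc hr _ => Ho c hc hr) inferInstance

end Pool.Agent.KTH
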