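import Pool.Agent.KTH.Q1
import Pool.Agent.THY.Ten

/-!
# KTH, modules Q5, Q6: Fermat hypersurfaces and the class `SrcH` are filtered by Hermitian pieces

The proofs are in `Pool/Agent/THY/{Fil,Fermat,Ten}.lean`.
-/

set_option autoImplicit false

namespace Pool.Agent.KTH

open CategoryTheory AlgebraicGeometry Pool.Agent.THY Pool.Agent.HPow

theorem thm_Q5 : St_Q5 := by
  intro p m q t k _ _ _ hk ev n hev Z i _ hi
  refine filK_of_pfil (pfil_mono (fun V _ _ hV => ?_) (fermat_fil hk n Z i hi))
  obtain ⟨s, n', a, ha, h1, h2⟩ := hV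
  exact ⟨s, n', a, ha, fun he => h1 (hev he), h2⟩

theorem thm_Q6 : St_Q6 := by
  intro p m q t k _ hk ev Y π h
  have hq := hk.q_two_le
  have hfin := hk.finite
  have hch := hk.charP
  induction h with
  | fil Y π h => exact h
  | fermat n hn Z i hi => exact thm_Q5 p m q t k hk ev n hn Z i hi
  | prod Y Y' π π' _ _ ih ih' =>
    refine thm_Q1 k _ (fun V V' _ _ _ _ hV hV' => ?_) Y Y' π π' ih ih'
    exact herm_ten (by omega) (ev = true) V V' hV hV'

end Pool.Agent.KTH
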