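import Pool.Agent.KTH.St

/-!
KTH, R1: the product functor (helper82).
-/

set_option autoImplicit false

namespace Pool.Agent.KTH

open CategoryTheory AlgebraicGeometry Pool.Agent.HPow

private theorem r1_fst {X Y : Scheme.{0}} (f : X ⟶ Y) (S : Scheme.{0}) :
    pmap f S ≫ pfst Y S = pfst X S ≫ f :=
  Limits.pullback.lift_fst _ _ _

private theorem r1_snd {X Y : Scheme.{0}} (f : X ⟶ Y) (S : Scheme.{0}) :
    pmap f S ≫ Limits.pullback.snd (Limits.terminal.from Y) (Limits.terminal.from S) =
      Limits.pullback.snd (Limits.terminal.from X) (Limits.terminal.from S) :=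
  (Limits.pullback.lift_snd _ _ _).trans (Category.comp_id _)

private theorem r1_id (X S : Scheme.{0}) : pmap (𝟙 X) S = 𝟙 _ := by
  apply Limits.pullback.hom_ext
  · rw [r1_fst, Category.comp_id, Category.id_comp]
  · rw [r1_snd, Category.id_comp]

private theorem r1_comp {X Y Z : Scheme.{0}} (f : X ⟶ Y) (g : Y ⟶ Z) (S : Scheme.{0}) :
    pmap (f ≫ g) S = pmap f S ≫ pmap g S := by
  apply Limits.pullback.hom_ext
  · rw [r1_fst, Category.assoc, r1_fst g S, ← Category.assoc (pmap f S), r1_fst f S, Category.assoc]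
  · rw [r1_snd, Category.assoc, r1_snd, r1_snd]

private theorem r1_sq {X Y : Scheme.{0}} (f : X ⟶ Y) (S : Scheme.{0}) :
    IsPullback (pmap f S) (pfst X S) (pfst Y S) f := by
  refine IsPullback.of_right (h₁₂ := Limits.pullback.snd (Limits.terminal.from Y)
    (Limits.terminal.from S)) (v₁₃ := Limits.terminal.from S) (h₂₂ := Limits.terminal.from Y)
    ?_ (r1_fst f S) (IsPullback.of_hasPullback _ _).flip
  rw [r1_snd, Limits.terminal.comp_from]
  exact (IsPullback.of_hasPullback _ _).flip

private theorem r1_range {X Y : Scheme.{0}} (f : X ⟶ Y) (S : Scheme.{0}) :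
    Set.range (pmap f S) = pfst Y S ⁻¹' Set.range f := by
  have h := r1_sq f S
  have h1 : pmap f S = h.isoPullback.hom ≫ Limits.pullback.fst (pfst Y S) f :=
    h.isoPullback_hom_fst.symm
  rw [h1]
  have h2 : Set.range (h.isoPullback.hom ≫ Limits.pullback.fst (pfst Y S) f) =
      Set.range (Limits.pullback.fst (pfst Y S) f) := by
    apply Set.Subset.antisymm
    · rintro _ ⟨x, rfl⟩
      exact ⟨h.isoPullback.hom x, (Scheme.Hom.comp_apply _ _ _).symm⟩
    · rintro _ ⟨x, rfl⟩
      obtain ⟨y, rfl⟩ := (inferInstance : Surjective h.isoPullback.hom).surj x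
      exact ⟨y, Scheme.Hom.comp_apply _ _ _⟩
  rw [h2]
  exact Scheme.Pullback.range_fst _ _

private theorem r1_cart {X' X Y' Y : Scheme.{0}} (S : Scheme.{0}) (g' : X' ⟶ X) (f' : X' ⟶ Y')
    (f : X ⟶ Y) (g : Y' ⟶ Y) (h : IsPullback g' f' f g) :
    IsPullback (pmap g' S) (pmap f' S) (pmap f S) (pmap g S) := by
  have h1 := (r1_sq g' S).paste_vert h
  rw [← r1_fst f' S, ← r1_fst f S] at h1
  refine IsPullback.of_bot h1 ?_ (r1_sq g S)
  rw [← r1_comp, ← r1_comp, h.w]

theorem thm_R1 : St_R1 := by
  intro S
  refine ⟨fun X => r1_id X S, fun X Y Z f g => r1_comp f g S, fun X Y f => r1_sq f S,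
    fun X Y f => ⟨?_, ?_, ?_, ?_, ?_, r1_range f S⟩,
    fun X' X Y' Y g' f' f g h => r1_cart S g' f' f g h, ?_⟩
  · intro hf
    exact MorphismProperty.of_isPullback (P := @Flat) (r1_sq f S).flip hf
  · intro hf
    exact MorphismProperty.of_isPullback (P := @IsFinite) (r1_sq f S).flip hf
  · intro hf
    exact MorphismProperty.of_isPullback (P := @IsClosedImmersion) (r1_sq f S).flip hf
  · intro hf
    exact MorphismProperty.of_isPullback (P := @IsOpenImmersion) (r1_sq f S).flip hf
  · intro hf
    rw [← Set.range_eq_univ, r1_range, hf.range_eq, Set.preimage_univ]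
  · intro X hX h1 h2
    have h3 : LocallyOfFiniteType (pfst X S) :=
      MorphismProperty.of_isPullback (P := @LocallyOfFiniteType)
        (IsPullback.of_hasPullback (Limits.terminal.from X) (Limits.terminal.from S)).flip h1
    have h4 : QuasiCompact (pfst X S) :=
      MorphismProperty.of_isPullback (P := @QuasiCompact)
        (IsPullback.of_hasPullback (Limits.terminal.from X) (Limits.terminal.from S)).flip h2
    have h5 : IsLocallyNoetherian (px X S) := LocallyOfFiniteType.isLocallyNoetherian (pfst X S)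
    have h6 : CompactSpace (px X S) := by
      have : CompactSpace X := inferInstance
      exact QuasiCompact.compactSpace_of_compactSpace (pfst X S)
    exact { }

end Pool.Agent.KTH
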