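import Pool.Agent.KTH.St

/-!
# KTH: R2 (helper2)

`X ↦ T (X × S)` is a theory.
-/

set_option autoImplicit false

namespace Pool.Agent.KTH

open CategoryTheory AlgebraicGeometry

universe u

private lemma r2_pull_congr (T : Thy.{u}) {X Y : Scheme.{0}} (f g : X ⟶ Y) [Flat f] [Flat g]
    (h : f = g) (x : T.T Y) : T.pull f x = T.pull g x := by
  subst h
  rfl

private lemma r2_push_congr (T : Thy.{u}) {X Y : Scheme.{0}} (f g : X ⟶ Y) [IsFinite f]
    [IsFinite g] (h : f = g) (x : T.T X) : T.push f x = T.push g x := by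
  subst h
  rfl

/-- the theory `X ↦ T (X × S)` -/
private noncomputable def r2_thy (h1 : St_R1) (T : Thy.{u}) (S : Scheme.{0})
    (hS : LocallyOfFiniteType (Limits.terminal.from S)) (hq : QuasiCompact (Limits.terminal.from S)) :
    Thy.{u} where
  T := fun X => T.T (px X S)
  grp := fun X => T.grp (px X S)
  pull := fun {X Y} f hf => @Thy.pull T (px X S) (px Y S) (pmap f S) (((h1 S).2.2.2.1 X Y f).1 hf)
  push := fun {X Y} f hf =>
    @Thy.push T (px X S) (px Y S) (pmap f S) (((h1 S).2.2.2.1 X Y f).2.1 hf)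
  pull_id := by
    intro X hX x
    have : IsNoetherian (px X S) := (h1 S).2.2.2.2.2 X hX hS hq
    have : Flat (pmap (𝟙 X) S) := ((h1 S).2.2.2.1 X X (𝟙 X)).1 inferInstance
    exact (r2_pull_congr T (pmap (𝟙 X) S) (𝟙 _) ((h1 S).1 X) x).trans (T.pull_id _ x)
  pull_comp := by
    intro X Y Z hX hY hZ f g hf hg x
    have : IsNoetherian (px X S) := (h1 S).2.2.2.2.2 X hX hS hq
    have : IsNoetherian (px Y S) := (h1 S).2.2.2.2.2 Y hY hS hq
    have : IsNoetherian (px Z S) := (h1 S).2.2.2.2.2 Z hZ hS hq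
    have : Flat (pmap f S) := ((h1 S).2.2.2.1 X Y f).1 hf
    have : Flat (pmap g S) := ((h1 S).2.2.2.1 Y Z g).1 hg
    have : Flat (pmap (f ≫ g) S) := ((h1 S).2.2.2.1 X Z (f ≫ g)).1 inferInstance
    exact (r2_pull_congr T (pmap (f ≫ g) S) (pmap f S ≫ pmap g S) ((h1 S).2.1 X Y Z f g) x).trans
      (T.pull_comp _ _ x)
  push_id := by
    intro X hX x
    have : IsNoetherian (px X S) := (h1 S).2.2.2.2.2 X hX hS hq
    have : IsFinite (pmap (𝟙 X) S) := ((h1 S).2.2.2.1 X X (𝟙 X)).2.1 inferInstance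
    exact (r2_push_congr T (pmap (𝟙 X) S) (𝟙 _) ((h1 S).1 X) x).trans (T.push_id _ x)
  push_comp := by
    intro X Y Z hZ f g hf hg x
    have : IsNoetherian (px Z S) := (h1 S).2.2.2.2.2 Z hZ hS hq
    have : IsFinite (pmap f S) := ((h1 S).2.2.2.1 X Y f).2.1 hf
    have : IsFinite (pmap g S) := ((h1 S).2.2.2.1 Y Z g).2.1 hg
    have : IsFinite (pmap (f ≫ g) S) := ((h1 S).2.2.2.1 X Z (f ≫ g)).2.1 inferInstance
    exact (r2_push_congr T (pmap (f ≫ g) S) (pmap f S ≫ pmap g S) ((h1 S).2.1 X Y Z f g) x).trans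
      (T.push_comp _ _ x)
  bc := by
    intro X' X Y' Y hY hY' g' f' f g hg hf hg' hf' hp x
    have : IsNoetherian (px Y S) := (h1 S).2.2.2.2.2 Y hY hS hq
    have : IsNoetherian (px Y' S) := (h1 S).2.2.2.2.2 Y' hY' hS hq
    have : Flat (pmap g S) := ((h1 S).2.2.2.1 _ _ g).1 hg
    have : Flat (pmap g' S) := ((h1 S).2.2.2.1 _ _ g').1 hg'
    have : IsFinite (pmap f S) := ((h1 S).2.2.2.1 _ _ f).2.1 hf
    have : IsFinite (pmap f' S) := ((h1 S).2.2.2.1 _ _ f').2.1 hf'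
    exact T.bc (pmap g' S) (pmap f' S) (pmap f S) (pmap g S)
      ((h1 S).2.2.2.2.1 X' X Y' Y g' f' f g hp) x
  ex := by
    intro Z X U hX i j hi hj hr x hx
    have : IsNoetherian (px X S) := (h1 S).2.2.2.2.2 X hX hS hq
    have : IsClosedImmersion (pmap i S) := ((h1 S).2.2.2.1 _ _ i).2.2.1 hi
    have : IsOpenImmersion (pmap j S) := ((h1 S).2.2.2.1 _ _ j).2.2.2.1 hj
    refine T.ex (pmap i S) (pmap j S) ?_ x hx
    rw [((h1 S).2.2.2.1 _ _ i).2.2.2.2.2, ((h1 S).2.2.2.1 _ _ j).2.2.2.2.2, hr,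
      Set.preimage_compl]
  ex0 := by
    intro Z X U hX i j hi hj hr z
    have : IsNoetherian (px X S) := (h1 S).2.2.2.2.2 X hX hS hq
    have : IsClosedImmersion (pmap i S) := ((h1 S).2.2.2.1 _ _ i).2.2.1 hi
    have : IsOpenImmersion (pmap j S) := ((h1 S).2.2.2.1 _ _ j).2.2.2.1 hj
    refine T.ex0 (pmap i S) (pmap j S) ?_ z
    rw [((h1 S).2.2.2.1 _ _ i).2.2.2.2.2, ((h1 S).2.2.2.1 _ _ j).2.2.2.2.2, hr,
      Set.preimage_compl]
  dev := by
    intro Z X hX i hi hs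
    have : IsNoetherian (px X S) := (h1 S).2.2.2.2.2 X hX hS hq
    have : IsClosedImmersion (pmap i S) := ((h1 S).2.2.2.1 _ _ i).2.2.1 hi
    exact T.dev (pmap i S) (((h1 S).2.2.2.1 _ _ i).2.2.2.2.1 hs)
  hom := by
    intro X Y hX R hR f g h hf hp
    have : IsNoetherian (px X S) := (h1 S).2.2.2.2.2 X hX hS hq
    have : Flat (pmap f S) := ((h1 S).2.2.2.1 _ _ f).1 hf
    exact T.hom R (pmap f S) (pfst Y S ≫ g) (pfst X S ≫ h)
      (((h1 S).2.2.1 Y X f).paste_vert hp)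
  free := by
    intro X Y hX R R' hR hR' hA d b f g h hf hfin hp x
    have : IsNoetherian (px X S) := (h1 S).2.2.2.2.2 X hX hS hq
    have : Flat (pmap f S) := ((h1 S).2.2.2.1 _ _ f).1 hf
    have : IsFinite (pmap f S) := ((h1 S).2.2.2.1 _ _ f).2.1 hfin
    exact T.free R R' d b (pmap f S) (pfst Y S ≫ g) (pfst X S ≫ h)
      (((h1 S).2.2.1 Y X f).paste_vert hp) x

theorem thm_R2 (h1 : St_R1) : St_R2.{u} := by
  intro T S hS hq
  exact ⟨r2_thy h1 T S hS hq, fun X => AddEquiv.refl (T.T (px X S)),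
    fun X Y f _ _ x => rfl, fun X Y f _ _ x => rfl⟩

end Pool.Agent.KTH
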