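import Pool.Agent.KTH.St

/-!
# KTH, module T1: first facts on theories

HUNT line S for MP_e17fa799_al (architect helper33). Isomorphisms, empty schemes, devissage, exact
sequences, products of rings, open and closed immersions.
-/

set_option autoImplicit false

namespace Pool.Agent.KTH

open CategoryTheory AlgebraicGeometry Pool.Agent.HPow

universe u

/-! ## Noetherian schemes -/

theorem t1_noeth_fin {X Y : Scheme.{0}} (f : X ⟶ Y) [IsNoetherian Y] [IsFinite f] :
    IsNoetherian X :=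
  { __ := LocallyOfFiniteType.isLocallyNoetherian f
    toCompactSpace := QuasiCompact.compactSpace_of_compactSpace f }

theorem t1_noeth_open {X Y : Scheme.{0}} (f : X ⟶ Y) [IsNoetherian Y] [IsOpenImmersion f] :
    IsNoetherian X :=
  { __ := isLocallyNoetherian_of_isOpenImmersion f
    toCompactSpace := by
      have : TopologicalSpace.NoetherianSpace X :=
        f.isOpenEmbedding.isInducing.noetherianSpace
      infer_instance }

theorem t1_noeth_empty (X : Scheme.{0}) (h : IsEmpty X) : IsNoetherian X :=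
  t1_noeth_open (specZIsTerminal.from X)

/-! ## Isomorphisms, empty schemes -/

theorem t1_pull_push_mono (T : Thy.{u}) {X Y : Scheme.{0}} (f : X ⟶ Y) [IsNoetherian Y]
    [IsFinite f] [Flat f] [Mono f] (x : T.T X) : T.pull f (T.push f x) = x := by
  have := t1_noeth_fin f
  rw [T.bc (𝟙 X) (𝟙 X) f f (IsKernelPair.id_of_mono f) x, T.pull_id, T.push_id]

theorem t1_iso (T : Thy.{u}) (X Y : Scheme.{0}) [IsNoetherian X] [IsNoetherian Y] (f : X ⟶ Y)
    [IsIso f] :
    Function.Bijective (T.push f) ∧ Function.Bijective (T.pull f) ∧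
    (∀ x, T.pull f (T.push f x) = x) ∧ ∀ y, T.push f (T.pull f y) = y := by
  have h1 : ∀ x, T.pull f (T.push f x) = x := fun x => t1_pull_push_mono T f x
  have h2 : Function.Injective (T.pull f) := by
    intro a b hab
    have h : ∀ y, T.pull (inv f) (T.pull f y) = y := by
      intro y
      rw [← T.pull_comp (inv f) f y]
      have : (inv f ≫ f) = 𝟙 Y := by simp
      simp only [this]
      exact T.pull_id Y y
    rw [← h a, ← h b, hab]
  have h3 : ∀ y, T.push f (T.pull f y) = y := fun y => h2 (h1 _)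
  exact ⟨⟨fun a b hab => by rw [← h1 a, ← h1 b, hab], fun y => ⟨_, h3 y⟩⟩,
    ⟨h2, fun x => ⟨_, h1 x⟩⟩, h1, h3⟩

theorem t1_empty (T : Thy.{u}) (X : Scheme.{0}) (h : IsEmpty X) (x : T.T X) : x = 0 := by
  have := t1_noeth_empty X h
  have h0 := T.ex0 (𝟙 X) (𝟙 X) (by ext a; exact h.elim a) x
  rwa [T.push_id, T.pull_id] at h0

theorem t1_surj (T : Thy.{u}) (Z X : Scheme.{0}) [IsNoetherian X] (i : Z ⟶ X)
    [IsClosedImmersion i] (hi : Function.Surjective i) : Function.Bijective (T.push i) := by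
  refine ⟨T.dev i hi, fun x => ?_⟩
  refine T.ex i (⊥ : X.Opens).ι ?_ x (t1_empty T _ ?_ _)
  · rw [hi.range_eq]
    simp
  · exact inferInstanceAs (IsEmpty (∅ : Set X))

/-! ## Clopen pieces -/

theorem t1_step (T : Thy.{u}) {X A : Scheme.{0}} [IsNoetherian X] (a : A ⟶ X)
    [IsClosedImmersion a] [IsOpenImmersion a] (y : T.T X) (hy : T.pull a y = 0)
    {Z : Scheme.{0}} (i : Z ⟶ X) [IsClosedImmersion i] [IsOpenImmersion i] (z : T.T Z)
    (hz : T.push i z = y) :
    ∃ (Z' : Scheme.{0}) (i' : Z' ⟶ X) (_ : IsClosedImmersion i') (_ : IsOpenImmersion i')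
      (z' : T.T Z'), Set.range i' = Set.range i ∩ (Set.range a)ᶜ ∧ T.push i' z' = y := by
  have hZ := t1_noeth_open i
  have hA := t1_noeth_open a
  let P := Limits.pullback i a
  let f : P ⟶ Z := Limits.pullback.fst i a
  let g : P ⟶ A := Limits.pullback.snd i a
  have hP : IsNoetherian P := t1_noeth_open f
  have e1 : T.pull i y = z := by rw [← hz]; exact t1_pull_push_mono T i z
  have e2 : T.pull f z = 0 := by
    rw [← e1, ← T.pull_comp f i y]
    have : f ≫ i = g ≫ a := Limits.pullback.condition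
    simp only [this]
    rw [T.pull_comp g a y, hy, map_zero]
  let W : Z.Opens := ⟨(Set.range f)ᶜ, f.isClosedEmbedding.isClosed_range.isOpen_compl⟩
  have hW : IsClosedImmersion W.ι := by
    refine IsClosedImmersion.of_isPreimmersion _ ?_
    rw [Scheme.Opens.range_ι]
    exact f.isOpenEmbedding.isOpen_range.isClosed_compl
  have hr : Set.range W.ι = (Set.range f)ᶜ := Scheme.Opens.range_ι W
  obtain ⟨w, hw⟩ := T.ex W.ι f hr z e2
  refine ⟨W, W.ι ≫ i, inferInstance, inferInstance, w, ?_, ?_⟩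
  · have hf : Set.range f = i ⁻¹' Set.range a := Scheme.Pullback.range_fst i a
    rw [hf] at hr
    have hc : ∀ x, (W.ι ≫ i) x = i (W.ι x) := fun x => by simp
    ext x
    constructor
    · rintro ⟨w, rfl⟩
      rw [hc]
      exact ⟨⟨_, rfl⟩, fun hx => (hr ▸ Set.mem_range_self w : W.ι w ∈ (i ⁻¹' Set.range a)ᶜ) hx⟩
    · rintro ⟨⟨z, rfl⟩, hx⟩
      have : z ∈ Set.range W.ι := by
        rw [hr]
        exact hx
      obtain ⟨w, rfl⟩ := this
      exact ⟨w, hc w⟩
  · rw [T.push_comp W.ι i w, hw, hz]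

theorem t1_cover (T : Thy.{u}) {X : Scheme.{0}} [IsNoetherian X] {I : Type} [Finite I]
    (A : I → Scheme.{0}) (a : ∀ i, A i ⟶ X) [∀ i, IsClosedImmersion (a i)]
    [∀ i, IsOpenImmersion (a i)] (hc : ∀ x : X, ∃ i, x ∈ Set.range (a i)) (y : T.T X)
    (hy : ∀ i, T.pull (a i) y = 0) : y = 0 := by
  classical
  cases nonempty_fintype I
  have key : ∀ s : Finset I, ∃ (Z : Scheme.{0}) (i : Z ⟶ X) (_ : IsClosedImmersion i)
      (_ : IsOpenImmersion i) (z : T.T Z), (∀ j ∈ s, ∀ x ∈ Set.range i, x ∉ Set.range (a j)) ∧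
        T.push i z = y := by
    intro s
    induction s using Finset.induction_on with
    | empty =>
      exact ⟨X, 𝟙 X, inferInstance, inferInstance, y, by simp, T.push_id X y⟩
    | insert j s hj ih =>
      obtain ⟨Z, i, h1, h2, z, h3, h4⟩ := ih
      obtain ⟨Z', i', h1', h2', z', h3', h4'⟩ := t1_step T (a j) y (hy j) i z h4
      refine ⟨Z', i', h1', h2', z', ?_, h4'⟩
      intro k hk x hx
      rw [h3'] at hx
      rcases Finset.mem_insert.1 hk with rfl | hk
      · exact hx.2
      · exact h3 k hk x hx.1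
  obtain ⟨Z, i, h1, h2, z, h3, h4⟩ := key Finset.univ
  have hZ : IsEmpty Z := ⟨fun x => by
    obtain ⟨j, hj⟩ := hc (i x)
    exact h3 j (Finset.mem_univ j) _ ⟨x, rfl⟩ hj⟩
  rw [← h4, t1_empty T Z hZ z, map_zero]

/-! ## Products of rings -/

theorem t1_disj (T : Thy.{u}) {X A B : Scheme.{0}} [IsNoetherian X] (a : A ⟶ X) (b : B ⟶ X)
    [IsFinite a] [IsFinite b] [Flat b] (h : ∀ x y, a x ≠ b y) (z : T.T A) :
    T.pull b (T.push a z) = 0 := by
  have hB := t1_noeth_fin b
  let P := Limits.pullback a b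
  let f : P ⟶ A := Limits.pullback.fst a b
  let g : P ⟶ B := Limits.pullback.snd a b
  have hP : IsEmpty P := ⟨fun x => h (f x) (g x) (by
    have : f ≫ a = g ≫ b := Limits.pullback.condition
    rw [← Scheme.Hom.comp_apply, ← Scheme.Hom.comp_apply, this])⟩
  rw [T.bc f g a b (IsPullback.of_hasPullback a b) z, t1_empty T P hP (T.pull f z), map_zero]

theorem t1_pi (T : Thy.{u}) (I : Type) [Fintype I] (R : I → Type) [∀ i, CommRing (R i)]
    [∀ i, IsNoetherianRing (R i)] [∀ i, Flat (Sm (Pi.evalRingHom R i))]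
    [∀ i, IsFinite (Sm (Pi.evalRingHom R i))] (x : T.T (Sp (∀ i, R i))) :
    x = ∑ i, T.push (Sm (Pi.evalRingHom R i)) (T.pull (Sm (Pi.evalRingHom R i)) x) := by
  classical
  have h1 : ∀ i, IsClosedImmersion (Sm (Pi.evalRingHom R i)) := fun i =>
    IsClosedImmersion.spec_of_surjective _ (Function.surjective_eval i)
  have h2 : ∀ i, IsOpenImmersion (Sm (Pi.evalRingHom R i)) := fun i => inferInstance
  have hN : IsNoetherian (Sp (∀ i, R i)) := inferInstance
  refine sub_eq_zero.1 (t1_cover T (fun i => Sp (R i)) (fun i => Sm (Pi.evalRingHom R i)) ?_ _ ?_)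
  · intro y
    obtain ⟨i, q, hq⟩ := PrimeSpectrum.exists_comap_evalRingHom_eq (R := R) y
    exact ⟨i, q, hq⟩
  · intro j
    rw [map_sub, map_sum, Finset.sum_eq_single j, t1_pull_push_mono, sub_self]
    · intro i _ hij
      refine t1_disj T _ _ ?_ _
      intro y z hyz
      have := @PrimeSpectrum.sigmaToPi_injective _ R _ ⟨i, y⟩ ⟨j, z⟩ hyz
      exact hij (congrArg Sigma.fst this)
    · intro hj
      exact absurd (Finset.mem_univ j) hj

/-! ## The module -/

theorem thm_T1 (hGG : St_GG.{u}) : St_T1.{u} := by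
  intro T
  refine ⟨fun X Y _ _ f _ => t1_iso T X Y f, t1_empty T,
    fun Z X _ i _ hi => t1_surj T Z X i hi, ?_, fun I _ R _ _ _ _ x => t1_pi T I R x, ?_⟩
  · intro N Z X U _ i j _ _ hij hZ hU
    exact hGG.2.2.1 N (T.T Z) (T.T X) (T.T U) (T.push i) (T.pull j)
      (fun x hx => T.ex i j hij x hx) hZ hU
  · intro Z X _ i _ _ a b hab
    rw [← t1_pull_push_mono T i a, ← t1_pull_push_mono T i b, hab]

end Pool.Agent.KTH
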