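import Pool.Agent.KTH.St

/-!
# KTH TR: the closure properties of the predicate `T (Spec R)` is good
-/

set_option autoImplicit false
set_option linter.style.haveILetI false

namespace Pool.Agent.KTH

open CategoryTheory AlgebraicGeometry Pool.Agent.HPow

universe u

private theorem tr_iso (hG : St_GG.{u}) (h1 : St_T1.{u}) (p : ℕ) (T : Thy.{u}) (R S : Type)
    [CommRing R] [CommRing S] (e : R ≃+* S) (h : GR T p R) : GR T p S := by
  intro hS
  haveI hR : IsNoetherianRing R := isNoetherianRing_of_ringEquiv S e.symm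
  haveI : IsIso (CommRingCat.ofHom (e : R →+* S)) := e.toCommRingCatIso.isIso_hom
  have h2 := (h1 T).1 (Sp S) (Sp R) (Sm (e : R →+* S))
  exact hG.1 p _ _ (T.push (Sm (e : R →+* S))) h2.1.injective (h hR)

private theorem tr_zero (hG : St_GG.{u}) (h1 : St_T1.{u}) (p : ℕ) (T : Thy.{u}) (R : Type)
    [CommRing R] (hR : Subsingleton R) : GR T p R := by
  intro _
  have he : IsEmpty (Sp R) := inferInstanceAs (IsEmpty (PrimeSpectrum R))
  exact hG.2.2.2.2.2 p _ ⟨fun a b => by rw [(h1 T).2.1 _ he a, (h1 T).2.1 _ he b]⟩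

private theorem tr_loc (h1 : St_T1.{u}) (p : ℕ) (T : Thy.{u}) (R V : Type)
    [CommRing R] [IsNoetherianRing R] [CommRing V] [Algebra R V] (s : R)
    [IsLocalization.Away s V] (hq : GR T p (R ⧸ Ideal.span {s})) (hV : GR T p V) : GR T p R := by
  intro _
  haveI : IsNoetherianRing V := IsLocalization.isNoetherianRing (Submonoid.powers s) V inferInstance
  haveI hi : IsClosedImmersion (Sm (Ideal.Quotient.mk (Ideal.span {s}))) :=
    IsClosedImmersion.spec_of_surjective _ Ideal.Quotient.mk_surjective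
  haveI hj : IsOpenImmersion (Sm (algebraMap R V)) := IsOpenImmersion.of_isLocalization s
  refine (h1 T).2.2.2.1 p _ _ _ (Sm (Ideal.Quotient.mk (Ideal.span {s}))) (Sm (algebraMap R V)) ?_
    (hq inferInstance) (hV inferInstance)
  have e1 : Set.range (Sm (Ideal.Quotient.mk (Ideal.span {s}))) =
      PrimeSpectrum.zeroLocus {s} := by
    refine (range_comap_of_surjective _ (Ideal.Quotient.mk (Ideal.span {s}))
      Ideal.Quotient.mk_surjective).trans ?_
    rw [Ideal.mk_ker, PrimeSpectrum.zeroLocus_span]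
  have e2 : Set.range (Sm (algebraMap R V)) = (PrimeSpectrum.basicOpen s : Set (PrimeSpectrum R)) :=
    PrimeSpectrum.localization_away_comap_range V s
  have e3 : (PrimeSpectrum.zeroLocus {s} : Set (PrimeSpectrum R)) =
      (PrimeSpectrum.basicOpen s : Set (PrimeSpectrum R))ᶜ := by
    rw [PrimeSpectrum.basicOpen_eq_zeroLocus_compl, compl_compl]
  exact e1.trans (e3.trans (congrArg _ e2.symm))

private theorem tr_poly (hG : St_GG.{u}) (p : ℕ) (T : Thy.{u}) (R : Type)
    [CommRing R] [IsNoetherianRing R] (hR : GR T p R) : GR T p (Polynomial R) := by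
  intro _
  haveI hf : Flat (Sm (Polynomial.C : R →+* Polynomial R)) := by
    rw [Flat.SpecMap_iff]
    show RingHom.Flat (Polynomial.C : R →+* Polynomial R)
    have h : (algebraMap R (Polynomial R)).Flat :=
      RingHom.flat_algebraMap_iff.2 inferInstance
    exact h
  have h := T.hom R (Sm (Polynomial.C : R →+* Polynomial R)) (𝟙 _) (𝟙 _)
    (IsPullback.of_vert_isIso ⟨by simp⟩)
  exact hG.2.1 p _ _ _ h (hR inferInstance)

private theorem tr_free (hG : St_GG.{u}) (p : ℕ) (T : Thy.{u}) (W W' : Type)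
    [CommRing W] [CommRing W'] [Algebra W W'] (e : ℕ)
    (b : Module.Basis (Fin (p ^ e)) W W') (h' : GR T p W') : GR T p W := by
  intro _
  haveI : Module.Finite W W' := Module.Finite.of_basis b
  haveI : Module.Free W W' := Module.Free.of_basis b
  haveI : IsNoetherianRing W' := isNoetherian_of_isNoetherianRing_of_finite W W' |> fun h =>
    isNoetherian_of_tower W h
  haveI hf : Flat (Sm (algebraMap W W')) := by
    rw [Flat.SpecMap_iff]
    exact RingHom.flat_algebraMap_iff.2 inferInstance
  haveI hF : IsFinite (Sm (algebraMap W W')) := by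
    rw [IsFinite.SpecMap_iff]
    exact RingHom.finite_algebraMap.2 inferInstance
  have h := T.free W W' (p ^ e) b (Sm (algebraMap W W')) (𝟙 _) (𝟙 _)
    (IsPullback.of_vert_isIso ⟨by simp⟩)
  refine hG.2.2.2.1 p e _ Unit (fun _ => T.T (Sp W')) (fun _ => T.push (Sm (algebraMap W W')))
    (fun x => ?_) (fun _ => h' inferInstance)
  rw [ciSup_const]
  exact ⟨_, h x⟩

theorem thm_TR (hG : St_GG.{u}) (h1 : St_T1.{u}) : St_TR.{u} := by
  intro p _ T
  exact ⟨fun R S _ _ e h => tr_iso hG h1 p T R S e h, fun R _ h => tr_zero hG h1 p T R h,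
    fun R V _ _ _ _ s _ hq hV => tr_loc h1 p T R V s hq hV,
    fun R _ _ h => tr_poly hG p T R h, fun W W' _ _ _ e b h => tr_free hG p T W W' e b h⟩

end Pool.Agent.KTH
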