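import Pool.Agent.KTH.TX
import Pool.Agent.KTH.TR
import Pool.Agent.KTX.Sq

/-!
# KTH, module TD: elimination of a variable
-/

set_option autoImplicit false
set_option linter.unusedSectionVars false
set_option linter.style.haveILetI false

namespace Pool.Agent.KTH

open CategoryTheory AlgebraicGeometry Function Polynomial Pool.Agent.HPow Pool.Agent.KTX

universe u

namespace TD

variable {p m q t : ℕ} {k : Type} [Field k]

theorem gd_prod (hG : St_GG.{u}) (N : ℕ) (A B : Type u) [AddCommGroup A] [AddCommGroup B]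
    (hA : GdG N A) (hB : GdG N B) : GdG N (A × B) :=
  hG.2.2.1 N A (A × B) B (AddMonoidHom.inl A B) (AddMonoidHom.snd A B) (fun x hx => by
    refine ⟨x.1, ?_⟩
    ext
    · rfl
    · exact hx.symm) hA hB

theorem gd_two (hG : St_GG.{u}) (N e : ℕ) (A B D : Type u) [AddCommGroup A] [AddCommGroup B]
    [AddCommGroup D] (φ : A →+ D) (ψ : B →+ D) (h : ∀ x : D, ∃ a b, N ^ e • x = φ a + ψ b)
    (hA : GdG N A) (hB : GdG N B) : GdG N D := by
  refine hG.2.2.2.1 N e D Unit (fun _ => A × B) (fun _ => φ.coprod ψ) (fun x => ?_)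
    (fun _ => gd_prod hG N A B hA hB)
  rw [ciSup_const]
  obtain ⟨a, b, hab⟩ := h x
  exact ⟨(a, b), by rw [AddMonoidHom.coprod_apply, hab]⟩

theorem range_compl {A C V : Type} [CommRing A] [CommRing C] [CommRing V] (s : A) (π : A →+* C)
    (l : A →+* V) (hπ : Surjective π) (hk : RingHom.ker π = Ideal.span {s}) (hl : IsLoc s l) :
    Set.range (Pool.Agent.KTH.Sm π) = (Set.range (Pool.Agent.KTH.Sm l))ᶜ := by
  letI := l.toAlgebra
  haveI : IsLocalization.Away s V := hl
  have e1 : Set.range (Pool.Agent.KTH.Sm π) = PrimeSpectrum.zeroLocus {s} := by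
    refine (range_comap_of_surjective _ π hπ).trans ?_
    rw [hk, PrimeSpectrum.zeroLocus_span]
  have e2 : Set.range (Pool.Agent.KTH.Sm l) =
      (PrimeSpectrum.basicOpen s : Set (PrimeSpectrum A)) :=
    PrimeSpectrum.localization_away_comap_range V s
  have e3 : (PrimeSpectrum.zeroLocus {s} : Set (PrimeSpectrum A)) =
      (PrimeSpectrum.basicOpen s : Set (PrimeSpectrum A))ᶜ := by
    rw [PrimeSpectrum.basicOpen_eq_zeroLocus_compl, compl_compl]
  exact e1.trans (e3.trans (congrArg _ e2.symm))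

theorem open_of_loc {A V : Type} [CommRing A] [CommRing V] (s : A)
    (l : A →+* V) (hl : IsLoc s l) : IsOpenImmersion (Pool.Agent.KTH.Sm l) := by
  letI := l.toAlgebra
  haveI : IsLocalization.Away s V := hl
  exact IsOpenImmersion.of_isLocalization s

/-- pull-back along a ring homomorphism and functoriality -/
theorem pull_Sm_comp (T : Thy.{u}) {A B C : Type} [CommRing A] [CommRing B] [CommRing C]
    [IsNoetherianRing A] [IsNoetherianRing B] [IsNoetherianRing C] (f : A →+* B) (g : B →+* C)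
    [Flat (Pool.Agent.KTH.Sm f)] [Flat (Pool.Agent.KTH.Sm g)]
    [Flat (Pool.Agent.KTH.Sm (g.comp f))] (x : T.T (Pool.Agent.KTH.Sp A)) :
    T.pull (Pool.Agent.KTH.Sm (g.comp f)) x =
      T.pull (Pool.Agent.KTH.Sm g) (T.pull (Pool.Agent.KTH.Sm f) x) := by
  rw [← T.pull_comp]
  refine tx_pull_congr T ?_ x
  rw [← Spec.map_comp]
  rfl

/-- The translations act trivially after inverting `g`. -/
theorem trivial_act (hk : Setg p m q t k) (T : Thy.{u}) {W V : Type} [CommRing W] [CommRing V]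
    [IsNoetherianRing W] [IsNoetherianRing V] [Algebra k W] (g h : W) (H : W[X])
    (hH : H = C g * X + C h) (ι : W →+* V) (gi : V) (hgi : ι g * gi = 1)
    [Flat (Pool.Agent.KTH.Sm (elm (q := q) g h H hH ι gi hgi))]
    (b : {b : k // b ^ q + b = 0}) (x : T.T (Pool.Agent.KTH.Sp (AS1 q W[X] H))) :
    T.pull (Pool.Agent.KTH.Sm (elm (q := q) g h H hH ι gi hgi)) (tx_pl T (trE hk H b) x) =
      T.pull (Pool.Agent.KTH.Sm (elm (q := q) g h H hH ι gi hgi)) x := by
  haveI : IsNoetherianRing (AS1 q W[X] H) := tx_noeth _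
  haveI f1 : Flat (Pool.Agent.KTH.Sm ((trE hk H b : _ ≃+* _) : AS1 q W[X] H →+* AS1 q W[X] H)) :=
    tx_flat _
  haveI f2 : Flat (Pool.Agent.KTH.Sm (C : V →+* V[X])) := by
    rw [Flat.SpecMap_iff]
    exact poly_flat V
  let c : V := ι (algebraMap k W b)
  haveI f3 : Flat (Pool.Agent.KTH.Sm ((ptE c : V[X] ≃+* V[X]) : V[X] →+* V[X])) := tx_flat _
  let l := elm (q := q) g h H hH ι gi hgi
  have e1 : l.comp ((trE hk H b : _ ≃+* _) : AS1 q W[X] H →+* AS1 q W[X] H) =
      ((ptE c : V[X] ≃+* V[X]) : V[X] →+* V[X]).comp l := elm_trn hk g h H hH ι gi hgi b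
  haveI f4 : Flat (Pool.Agent.KTH.Sm
      (l.comp ((trE hk H b : _ ≃+* _) : AS1 q W[X] H →+* AS1 q W[X] H))) := by
    rw [Flat.SpecMap_iff]
    refine RingHom.Flat.comp ?_ ?_
    · have := f1
      rw [Flat.SpecMap_iff] at this
      exact this
    · have : Flat (Pool.Agent.KTH.Sm l) := inferInstance
      rw [Flat.SpecMap_iff] at this
      exact this
  haveI f5 : Flat (Pool.Agent.KTH.Sm (((ptE c : V[X] ≃+* V[X]) : V[X] →+* V[X]).comp l)) := by
    rw [← e1]
    exact f4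
  have e2 : T.pull (Pool.Agent.KTH.Sm l) (tx_pl T (trE hk H b) x) =
      T.pull (Pool.Agent.KTH.Sm (((ptE c : V[X] ≃+* V[X]) : V[X] →+* V[X]).comp l)) x := by
    refine (pull_Sm_comp T _ l x).symm.trans ?_
    exact tx_pull_congr T (by rw [e1]) x
  show T.pull (Pool.Agent.KTH.Sm l) (tx_pl T (trE hk H b) x) = T.pull (Pool.Agent.KTH.Sm l) x
  rw [e2, pull_Sm_comp T l ((ptE c : V[X] ≃+* V[X]) : V[X] →+* V[X]) x]
  obtain ⟨v, hv⟩ := T.hom V (Pool.Agent.KTH.Sm (C : V →+* V[X])) (𝟙 _) (𝟙 _)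
    (IsPullback.of_vert_isIso ⟨by simp⟩) (T.pull (Pool.Agent.KTH.Sm l) x)
  rw [← hv]
  have e3 : ((ptE c : V[X] ≃+* V[X]) : V[X] →+* V[X]).comp (C : V →+* V[X]) = C := ptr_C c
  haveI f6 : Flat (Pool.Agent.KTH.Sm
      (((ptE c : V[X] ≃+* V[X]) : V[X] →+* V[X]).comp (C : V →+* V[X]))) := by
    rw [e3]
    exact f2
  refine (pull_Sm_comp T (C : V →+* V[X]) ((ptE c : V[X] ≃+* V[X]) : V[X] →+* V[X]) v).symm.trans ?_
  exact tx_pull_congr T (by rw [e3]) v

end TD

open TD in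
theorem thm_TD (hG : St_GG.{u}) (h1 : St_T1.{u}) (hTG : St_TG.{u}) : St_TD.{u} := by
  intro p m q t k _ hk T W _ _ _ g h hW hQ
  classical
  haveI : Fact p.Prime := ⟨hk.hp⟩
  haveI := hk.finite
  letI : Fintype {b : k // b ^ q + b = 0} := Fintype.ofFinite _
  have hTR := thm_TR hG h1 p T
  let V := Localization.Away g
  haveI : IsNoetherianRing V :=
    IsLocalization.isNoetherianRing (Submonoid.powers g) V inferInstance
  let ι : W →+* V := algebraMap W V
  have hgi : ι g * IsLocalization.Away.invSelf g = 1 := IsLocalization.Away.mul_invSelf g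
  obtain ⟨H, hH⟩ : ∃ H : W[X], H = C g * X + C h := ⟨_, rfl⟩
  rw [← hH]
  let l := elm (q := q) g h H hH ι (IsLocalization.Away.invSelf g) hgi
  have hloc : IsLoc (asO q H (C g)) l := elm_loc g h H hH ι _ hgi (isLoc_algebraMap g)
  haveI hN : IsNoetherianRing (AS1 q W[X] H) := tx_noeth _
  haveI hj : IsOpenImmersion (Pool.Agent.KTH.Sm l) := open_of_loc _ l hloc
  -- the closed part
  let π0 : W[X] →+* (W ⧸ Ideal.span {g})[X] := mapRingHom (Ideal.Quotient.mk (Ideal.span {g}))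
  have hπ0 : Surjective π0 := map_surjective _ Ideal.Quotient.mk_surjective
  have hπk : RingHom.ker π0 = Ideal.span {C g} := by
    show RingHom.ker (mapRingHom (Ideal.Quotient.mk (Ideal.span {g}))) = _
    rw [Polynomial.ker_mapRingHom, Ideal.mk_ker, Ideal.map_span, Set.image_singleton]
  let π := asM q π0 H
  have hπ : Surjective π := asH_surj _ _ _ _ _ hπ0
  have hπk' : RingHom.ker π = Ideal.span {asO q H (C g)} := asM_ker π0 H hπ0 _ hπk
  haveI hi : IsClosedImmersion (Pool.Agent.KTH.Sm π) := IsClosedImmersion.spec_of_surjective _ hπ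
  have hH0 : π0 H = C (Ideal.Quotient.mk (Ideal.span {g}) h) := by
    have hg : Ideal.Quotient.mk (Ideal.span {g}) g = 0 :=
      Ideal.Quotient.eq_zero_iff_mem.2 (Ideal.mem_span_singleton_self g)
    rw [hH]
    show mapRingHom (Ideal.Quotient.mk (Ideal.span {g})) (C g * X + C h) = _
    rw [map_add, map_mul, coe_mapRingHom, map_C, map_X, map_C, hg, C_0, zero_mul, zero_add]
  have hgoodC : GdG p (T.T (Pool.Agent.KTH.Sp (AS1 q (W ⧸ Ideal.span {g})[X] (π0 H)))) := by
    rw [hH0]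
    haveI : IsNoetherianRing (AS1 q (W ⧸ Ideal.span {g})
      (Ideal.Quotient.mk (Ideal.span {g}) h)) := tx_noeth _
    haveI : IsNoetherianRing (AS1 q (W ⧸ Ideal.span {g})[X]
      (C (Ideal.Quotient.mk (Ideal.span {g}) h))) := tx_noeth _
    exact hTR.1 _ _ (plE q (Ideal.Quotient.mk (Ideal.span {g}) h))
      (hTR.2.2.2.1 _ (fun _ => hQ)) inferInstance
  have hgoodO : GdG p (T.T (Pool.Agent.KTH.Sp W[X])) :=
    hTR.2.2.2.1 _ (fun _ => hW) inferInstance
  obtain ⟨φ, ψ, hφ⟩ := tx_sum_tr h1 hTG T hk H (fun b => trE hk H b)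
    (fun b r => trn_O hk H b r) (fun b => trn_R hk H b)
  refine gd_two hG p m _ _ _ φ (T.push (Pool.Agent.KTH.Sm π)) (fun x => ?_) hgoodO hgoodC
  have hcard : (Fintype.card {b : k // b ^ q + b = 0}) = q := by
    rw [← Nat.card_eq_fintype_card, hk.card_tr]
  have hzero : T.pull (Pool.Agent.KTH.Sm l) (p ^ m • x - φ (ψ x)) = 0 := by
    rw [hφ, ← hk.hq, map_sub, map_nsmul, map_sum]
    rw [Finset.sum_congr rfl fun b _ => trivial_act hk T g h H hH ι _ hgi b x]
    rw [Finset.sum_const, Finset.card_univ, hcard, sub_self]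
  obtain ⟨z, hz⟩ := T.ex (Pool.Agent.KTH.Sm π) (Pool.Agent.KTH.Sm l)
    (range_compl _ π l hπ hπk' hloc) _ hzero
  exact ⟨ψ x, z, by rw [hz]; abel⟩

end Pool.Agent.KTH
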