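import Pool.Agent.KTH.St

/-!
# KTH, module TG: Galois extensions

Statement and proof: see `St_TG` in `Pool/Agent/KTH/St.lean`.
-/

set_option autoImplicit false
set_option linter.unusedSectionVars false
set_option linter.style.haveILetI false

namespace Pool.Agent.KTH

open CategoryTheory AlgebraicGeometry TensorProduct

universe u

/-- functoriality of `Sm` -/
theorem Sm_comp {R S U : Type} [CommRing R] [CommRing S] [CommRing U] (φ : R →+* S)
    (ψ : S →+* U) : Sm ψ ≫ Sm φ = Sm (ψ.comp φ) := by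
  rw [← Spec.map_comp]
  rfl

theorem Sm_id (R : Type) [CommRing R] : Sm (RingHom.id R) = 𝟙 (Sp R) := Spec.map_id _

/-- equal morphisms have equal pull-backs -/
theorem pull_congr (T : Thy.{u}) {X Y : Scheme.{0}} {f g : X ⟶ Y} [Flat f] [Flat g] (h : f = g)
    (x : T.T Y) : T.pull f x = T.pull g x := by
  subst h
  rfl

theorem push_congr (T : Thy.{u}) {X Y : Scheme.{0}} {f g : X ⟶ Y} [IsFinite f] [IsFinite g]
    (h : f = g) (x : T.T X) : T.push f x = T.push g x := by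
  subst h
  rfl

/-- the cartesian square of a Galois extension -/
theorem tg_square {A B : Type} [CommRing A] [CommRing B] [Algebra A B] {Γ : Type}
    (σ : Γ → B ≃ₐ[A] B) (φ : TensorProduct A B B ≃+* (Γ → B))
    (hφ : ∀ (u v : B) (γ : Γ), φ (u ⊗ₜ[A] v) γ = u * σ γ v) :
    IsPullback (Sm (RingHom.pi fun γ => ((σ γ : B ≃ₐ[A] B) : B →+* B)))
      (Sm (RingHom.pi fun _ : Γ => RingHom.id B)) (Sm (algebraMap A B)) (Sm (algebraMap A B)) := by
  refine isPullback_SpecMap_of_isPushout _ _ _ _ ?_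
  refine ((CommRingCat.isPushout_tensorProduct A B B).flip).of_iso (Iso.refl _) (Iso.refl _)
    (Iso.refl _) φ.toCommRingCatIso ?_ ?_ ?_ ?_
  · simp
  · simp
  · refine CommRingCat.hom_ext (RingHom.ext fun v => ?_)
    funext γ
    show φ ((1 : B) ⊗ₜ[A] v) γ = σ γ v
    rw [hφ, one_mul]
  · refine CommRingCat.hom_ext (RingHom.ext fun v => ?_)
    funext γ
    show φ (v ⊗ₜ[A] (1 : B)) γ = v
    rw [hφ, map_one, mul_one]

theorem thm_TG (h1 : St_T1.{u}) : St_TG.{u} := by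
  intro T A B _ _ _ _ _ Γ _ σ hfl hfin hσ ⟨φ, hφ⟩ x
  have hsq := tg_square σ φ hφ
  haveI : Flat (Sm (RingHom.pi fun γ => ((σ γ : B ≃ₐ[A] B) : B →+* B))) :=
    MorphismProperty.of_isPullback hsq.flip hfl
  haveI : IsFinite (Sm (RingHom.pi fun _ : Γ => RingHom.id B)) :=
    MorphismProperty.of_isPullback hsq hfin
  rw [T.bc _ _ _ _ hsq x]
  haveI h3 : ∀ γ : Γ, IsOpenImmersion (Sm (Pi.evalRingHom (fun _ : Γ => B) γ)) := fun γ =>
    (inferInstance : IsOpenImmersion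
      (Spec.map (CommRingCat.ofHom (Pi.evalRingHom (fun _ : Γ => B) γ))))
  haveI h4 : ∀ γ : Γ, Flat (Sm (Pi.evalRingHom (fun _ : Γ => B) γ)) := fun γ => inferInstance
  haveI h5 : ∀ γ : Γ, IsClosedImmersion (Sm (Pi.evalRingHom (fun _ : Γ => B) γ)) := fun γ =>
    IsClosedImmersion.spec_of_surjective _ (Function.surjective_eval γ)
  haveI h6 : ∀ γ : Γ, IsFinite (Sm (Pi.evalRingHom (fun _ : Γ => B) γ)) := fun γ => inferInstance
  have h7 := (h1 T).2.2.2.2.1 Γ (fun _ => B)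
    (T.pull (Sm (RingHom.pi fun γ => ((σ γ : B ≃ₐ[A] B) : B →+* B))) x)
  rw [h7, map_sum]
  refine Finset.sum_congr rfl fun γ _ => ?_
  rw [← T.push_comp, ← T.pull_comp]
  have e1 : Sm (Pi.evalRingHom (fun _ : Γ => B) γ) ≫ Sm (RingHom.pi fun _ : Γ => RingHom.id B) =
      𝟙 (Sp B) := by
    rw [Sm_comp, ← Sm_id]
    rfl
  have e2 : Sm (Pi.evalRingHom (fun _ : Γ => B) γ) ≫
      Sm (RingHom.pi fun γ => ((σ γ : B ≃ₐ[A] B) : B →+* B)) =
        Sm ((σ γ : B ≃ₐ[A] B) : B →+* B) := by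
    rw [Sm_comp]
    rfl
  rw [push_congr T e1, T.push_id, pull_congr T e2]

end Pool.Agent.KTH
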