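import Pool.Agent.KTH.St
import Pool.Agent.HPow.Line

/-!
# KTH, module TX: the property `asx`
-/

set_option autoImplicit false
set_option linter.unusedSectionVars false
set_option linter.style.haveILetI false

namespace Pool.Agent.KTH

open CategoryTheory AlgebraicGeometry Function Polynomial TensorProduct Pool.Agent.HPow

universe u

/-! ### ring isomorphisms -/

theorem tx_flat {S R : Type} [CommRing S] [CommRing R] (e : S ≃+* R) :
    Flat (Sm (e : S →+* R)) := by
  rw [Flat.SpecMap_iff]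
  exact RingHom.Flat.of_bijective e.bijective

/-- pull-back along a ring isomorphism -/
noncomputable def tx_pl (T : Thy.{u}) {S R : Type} [CommRing S] [CommRing R] (e : S ≃+* R) :
    T.T (Sp S) →+ T.T (Sp R) :=
  haveI := tx_flat e
  T.pull (Sm (e : S →+* R))

theorem tx_pull_congr (T : Thy.{u}) {X Y : Scheme.{0}} {f g : X ⟶ Y} (h : f = g) [Flat f]
    [Flat g] (x : T.T Y) : T.pull f x = T.pull g x := by
  subst h
  rfl

theorem tx_congr (T : Thy.{u}) {S R : Type} [CommRing S] [CommRing R] {e e' : S ≃+* R}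
    (h : ∀ r, e r = e' r) (x : T.T (Sp S)) : tx_pl T e x = tx_pl T e' x := by
  have h1 : e = e' := RingEquiv.ext h
  subst h1
  rfl

theorem tx_trans (T : Thy.{u}) {S R Q : Type} [CommRing S] [CommRing R] [CommRing Q]
    [IsNoetherianRing S] [IsNoetherianRing R] [IsNoetherianRing Q] (e : S ≃+* R)
    (e' : R ≃+* Q) (x : T.T (Sp S)) : tx_pl T e' (tx_pl T e x) = tx_pl T (e.trans e') x := by
  haveI := tx_flat e
  haveI := tx_flat e'
  haveI := tx_flat (e.trans e')
  show T.pull (Sm (e' : R →+* Q)) (T.pull (Sm (e : S →+* R)) x) =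
    T.pull (Sm ((e.trans e' : S ≃+* Q) : S →+* Q)) x
  rw [← T.pull_comp]
  refine tx_pull_congr T ?_ x
  rw [← Spec.map_comp]
  rfl

theorem tx_id (T : Thy.{u}) {S : Type} [CommRing S] [IsNoetherianRing S] (e : S ≃+* S)
    (h : ∀ r, e r = r) (x : T.T (Sp S)) : tx_pl T e x = x := by
  haveI := tx_flat e
  show T.pull (Sm (e : S →+* S)) x = x
  have h1 : Sm (e : S →+* S) = 𝟙 (Sp S) := by
    have h2 : (e : S →+* S) = RingHom.id S := RingHom.ext h
    rw [h2]
    exact Spec.map_id _
  exact (tx_pull_congr T h1 x).trans (T.pull_id _ x)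

theorem tx_noeth {R : Type} [CommRing R] [IsNoetherianRing R] (P : R[X]) :
    IsNoetherianRing (AdjoinRoot P) :=
  isNoetherianRing_of_surjective _ _ (AdjoinRoot.mk P) AdjoinRoot.mk_surjective

/-! ### Galois extensions generated by one element -/

theorem tx_iso {R S : Type} [CommRing R] [CommRing S] [Algebra R S] {n : ℕ} (z : S)
    (b : Module.Basis (Fin n) R S) (hb : ∀ j, b j = z ^ (j : ℕ)) (σ : Fin n → S ≃ₐ[R] S)
    (hσ : ∀ i j, i ≠ j → IsUnit (σ i z - σ j z)) :
    ∃ φ : TensorProduct R S S ≃+* (Fin n → S), ∀ (u v : S) (i : Fin n),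
      φ (u ⊗ₜ[R] v) i = u * σ i v := by
  let A : Matrix (Fin n) (Fin n) S := Matrix.vandermonde (fun i => σ i z)
  have hA : IsUnit A.det := by
    rw [Matrix.det_vandermonde]
    refine Finset.prod_induction _ IsUnit (fun _ _ => IsUnit.mul) isUnit_one fun i _ =>
      Finset.prod_induction _ IsUnit (fun _ _ => IsUnit.mul) isUnit_one fun j hj => hσ _ _ ?_
    exact (Finset.mem_Ioi.1 hj).ne'
  let e1 : (S ⊗[R] S) ≃ₗ[R] (Fin n → S) :=
    (TensorProduct.equivFinsuppOfBasisRight (M := S) b).trans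
      (Finsupp.linearEquivFunOnFinite R S (Fin n))
  have he1 : ∀ (u v : S) (j : Fin n), e1 (u ⊗ₜ v) j = b.repr v j • u :=
    fun u v j => TensorProduct.equivFinsuppOfBasisRight_apply_tmul_apply b u v j
  let Φ : (S ⊗[R] S) →ₐ[R] (Fin n → S) := AlgHom.pi fun i =>
    Algebra.TensorProduct.lift (AlgHom.id R S) ((σ i : S ≃ₐ[R] S) : S →ₐ[R] S)
      (fun _ _ => Commute.all _ _)
  have hΦ : ∀ (u v : S) (i : Fin n), Φ (u ⊗ₜ v) i = u * σ i v := fun u v i =>
    Algebra.TensorProduct.lift_tmul (AlgHom.id R S) ((σ i : S ≃ₐ[R] S) : S →ₐ[R] S)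
      (fun _ _ => Commute.all _ _) u v
  have hkey : ∀ x, Φ x = gal_act A (e1 x) := by
    intro x
    induction x using TensorProduct.induction_on with
    | zero =>
      rw [map_zero, map_zero]
      funext i
      simp [gal_act]
    | tmul u v =>
      funext i
      rw [hΦ]
      simp only [gal_act, he1]
      have h3 : v = ∑ j, b.repr v j • b j := (b.sum_repr v).symm
      have h4 : σ i v = ∑ j, b.repr v j • (σ i z) ^ (j : ℕ) := by
        conv_lhs => rw [h3]
        rw [map_sum]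
        refine Finset.sum_congr rfl (fun j _ => ?_)
        rw [map_smul, hb, map_pow]
      rw [h4, Finset.mul_sum]
      refine Finset.sum_congr rfl (fun j _ => ?_)
      show u * (b.repr v j • (σ i z) ^ (j : ℕ)) = (σ i z) ^ (j : ℕ) * (b.repr v j • u)
      rw [mul_smul_comm, mul_smul_comm, mul_comm]
    | add x y hx hy => rw [map_add, hx, hy, map_add, gal_act_add]
  have hbij : Bijective Φ := by
    have h5 : (Φ : S ⊗[R] S → (Fin n → S)) = gal_act A ∘ e1 := funext hkey
    rw [h5]
    exact (gal_act_bij A hA).comp e1.bijective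
  exact ⟨RingEquiv.ofBijective Φ hbij, hΦ⟩

variable {p m q t : ℕ} {k : Type} [Field k] {W : Type} [CommRing W] [Algebra k W]

/-- the sum of the translations of the last coordinate -/
theorem tx_sum_tr (hT1 : St_T1.{u}) (hTG : St_TG.{u}) (T : Thy.{u}) (h : Setg p m q t k)
    [Fintype {b : k // b ^ q + b = 0}] {R : Type} [CommRing R] [IsNoetherianRing R]
    [Algebra k R] (g : R) (σ : {b : k // b ^ q + b = 0} → AS1 q R g ≃+* AS1 q R g)
    (h1 : ∀ b (r : R), σ b (AdjoinRoot.of _ r) = AdjoinRoot.of _ r)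
    (h2 : ∀ b, σ b (AdjoinRoot.root _) = AdjoinRoot.root _ +
      AdjoinRoot.of _ (algebraMap k R b.1)) :
    ∃ (φ : T.T (Sp R) →+ T.T (Sp (AS1 q R g))) (ψ : T.T (Sp (AS1 q R g)) →+ T.T (Sp R)),
      ∀ x : T.T (Sp (AS1 q R g)), φ (ψ x) = ∑ b, tx_pl T (σ b) x := by
  have hq2 := h.q_two_le
  haveI hN : IsNoetherianRing (AS1 q R g) := tx_noeth _
  rcases subsingleton_or_nontrivial R with hR | hR
  · haveI : Subsingleton (AS1 q R g) := by
      refine subsingleton_of_zero_eq_one ?_
      rw [← map_zero (AdjoinRoot.of (X ^ q + X - C g)), ← map_one (AdjoinRoot.of (X ^ q + X - C g)),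
        Subsingleton.elim (0 : R) 1]
    have hE : IsEmpty (Sp (AS1 q R g)) := by
      show IsEmpty (PrimeSpectrum (AS1 q R g))
      infer_instance
    have h0 := (hT1 T).2.1 (Sp (AS1 q R g)) hE
    exact ⟨0, 0, fun x => by rw [h0 x]; simp⟩
  · have hdeg : (X - C g : R[X]).degree < (q : ℕ) := by
      rw [degree_X_sub_C]
      exact_mod_cast hq2
    have hf : (X ^ q + X - C g : R[X]) = X ^ q + (X - C g) := add_sub_assoc _ _ _
    have hmon : (X ^ q + X - C g : R[X]).Monic := by
      rw [hf]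
      exact monic_X_pow_add hdeg
    have hnat : (X ^ q + X - C g : R[X]).natDegree = q := by
      rw [hf, natDegree_add_eq_left_of_natDegree_lt, natDegree_X_pow]
      rw [natDegree_X_pow, natDegree_X_sub_C]
      omega
    haveI : Module.Finite R (AS1 q R g) := hmon.finite_adjoinRoot
    haveI : Module.Free R (AS1 q R g) := hmon.free_adjoinRoot
    haveI hfl : Flat (Sm (algebraMap R (AS1 q R g))) := by
      rw [Flat.SpecMap_iff]
      show (algebraMap R (AS1 q R g)).Flat
      rw [RingHom.flat_algebraMap_iff]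
      infer_instance
    haveI hfi : IsFinite (Sm (algebraMap R (AS1 q R g))) := by
      rw [IsFinite.SpecMap_iff]
      show (algebraMap R (AS1 q R g)).Finite
      rw [RingHom.finite_algebraMap]
      infer_instance
    refine ⟨T.pull (Sm (algebraMap R (AS1 q R g))), T.push (Sm (algebraMap R (AS1 q R g))),
      fun x => ?_⟩
    let pb := AdjoinRoot.powerBasis' hmon
    have hdim : pb.dim = Fintype.card {b : k // b ^ q + b = 0} := by
      have e1 : pb.dim = (X ^ q + X - C g : R[X]).natDegree := AdjoinRoot.powerBasis'_dim hmon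
      rw [e1, hnat, ← Nat.card_eq_fintype_card, h.card_tr]
    let e : Fin pb.dim ≃ {b : k // b ^ q + b = 0} :=
      (finCongr hdim).trans (Fintype.equivFin _).symm
    have hgen : pb.gen = AdjoinRoot.root (X ^ q + X - C g) := AdjoinRoot.powerBasis'_gen hmon
    let σ' : Fin pb.dim → AS1 q R g ≃ₐ[R] AS1 q R g := fun i =>
      AlgEquiv.ofRingEquiv (f := σ (e i)) (fun r => h1 (e i) r)
    have hb : ∀ j, pb.basis j = (AdjoinRoot.root (X ^ q + X - C g)) ^ (j : ℕ) := by
      intro j
      rw [PowerBasis.basis_eq_pow, hgen]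
    have hσ : ∀ i j, i ≠ j → IsUnit (σ' i (AdjoinRoot.root (X ^ q + X - C g)) -
        σ' j (AdjoinRoot.root (X ^ q + X - C g))) := by
      intro i j hij
      have h3 : σ' i (AdjoinRoot.root (X ^ q + X - C g)) -
          σ' j (AdjoinRoot.root (X ^ q + X - C g)) =
          AdjoinRoot.of _ (algebraMap k R ((e i).1 - (e j).1)) := by
        have e1 : σ' i (AdjoinRoot.root (X ^ q + X - C g)) = _ := h2 (e i)
        have e2 : σ' j (AdjoinRoot.root (X ^ q + X - C g)) = _ := h2 (e j)
        rw [e1, e2, map_sub, map_sub]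
        ring
      rw [h3]
      have h4 : (e i).1 - (e j).1 ≠ 0 := by
        intro hcon
        exact hij (e.injective (Subtype.ext (sub_eq_zero.1 hcon)))
      exact ((IsUnit.mk0 _ h4).map (algebraMap k R)).map (AdjoinRoot.of _)
    haveI hσf : ∀ i, Flat (Sm ((σ' i : AS1 q R g ≃ₐ[R] AS1 q R g) : AS1 q R g →+* AS1 q R g)) :=
      fun i => tx_flat (σ (e i))
    rw [hTG T R (AS1 q R g) (Fin pb.dim) σ'
      (tx_iso (AdjoinRoot.root (X ^ q + X - C g)) pb.basis hb σ' hσ) x]
    rw [← Equiv.sum_comp e]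
    refine Finset.sum_congr rfl fun i _ => ?_
    haveI := tx_flat (σ (e i))
    exact tx_pull_congr T rfl x

/-- transport of the sum of the translations of the last coordinate -/
theorem tx_line_sum (hT1 : St_T1.{u}) (hTG : St_TG.{u}) (T : Thy.{u}) (h : Setg p m q t k)
    [Fintype {b : k // b ^ q + b = 0}] [IsNoetherianRing W] (f g f' g' : W)
    (e : V2 q W f' g' ≃+* V2 q W f g) (τ : {b : k // b ^ q + b = 0} → V2 q W f g ≃+* V2 q W f g)
    (he0 : ∀ w, e (w2 q f' g' w) = w2 q f g w)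
    (hτ0 : ∀ b w, τ b (w2 q f g w) = w2 q f g w)
    (hτ1 : ∀ b, τ b (e (y2 q f' g')) = e (y2 q f' g'))
    (hτ2 : ∀ b, τ b (e (z2 q f' g')) = e (z2 q f' g') + w2 q f g (algebraMap k W b.1)) :
    ∃ (φ : T.T (Sp (AS1 q W f')) →+ T.T (Sp (V2 q W f g)))
      (ψ : T.T (Sp (V2 q W f g)) →+ T.T (Sp (AS1 q W f'))),
      ∀ x, φ (ψ x) = ∑ b, tx_pl T (τ b) x := by
  haveI : ∀ F : W, IsNoetherianRing (AS1 q W F) := fun F => tx_noeth _
  haveI : ∀ F G : W, IsNoetherianRing (V2 q W F G) := fun F G => tx_noeth _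
  choose σ h1 h2 h3 h4 h5 using fun b : {b : k // b ^ q + b = 0} => line_tr h f' g' b.1 b.2
  obtain ⟨φ, ψ, hφ⟩ := tx_sum_tr hT1 hTG T h (algebraMap W (AS1 q W f') g') σ h1 h2
  refine ⟨(tx_pl T e).comp φ, ψ.comp (tx_pl T e.symm), fun x => ?_⟩
  show tx_pl T e (φ (ψ (tx_pl T e.symm x))) = _
  rw [hφ, map_sum]
  refine Finset.sum_congr rfl fun b _ => ?_
  rw [tx_trans, tx_trans]
  refine tx_congr T (fun r => ?_) x
  show e (σ b (e.symm r)) = τ b r
  have key : ∀ s, e (σ b s) = τ b (e s) := by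
    intro s
    refine hom2_ext q ((e : V2 q W f' g' →+* V2 q W f g).comp (σ b : V2 q W f' g' →+* V2 q W f' g'))
      ((τ b : V2 q W f g →+* V2 q W f g).comp (e : V2 q W f' g' →+* V2 q W f g)) ?_ ?_ ?_ s
    · intro w
      show e (σ b (w2 q f' g' w)) = τ b (e (w2 q f' g' w))
      rw [h3, he0, hτ0]
    · show e (σ b (y2 q f' g')) = τ b (e (y2 q f' g'))
      rw [h4, hτ1]
    · show e (σ b (z2 q f' g')) = τ b (e (z2 q f' g'))
      rw [h5, hτ2, map_add, he0]
  rw [key, e.apply_symm_apply]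

/-- **TX** -/
theorem thm_TX (hGG : St_GG.{u}) (hT1 : St_T1.{u}) (hTG : St_TG.{u}) : St_TX.{u} := by
  intro p m q t k _ h T W _ _ _ f g h1 h2
  classical
  haveI hNV : IsNoetherianRing (V2 q W f g) := by
    haveI : IsNoetherianRing (AS1 q W f) := tx_noeth _
    exact tx_noeth _
  haveI := h.finite
  letI : Fintype {b : k // b ^ q + b = 0} := Fintype.ofFinite _
  letI : Fintype {c : k // c ^ q = c} := Fintype.ofFinite _
  have hq2 := h.q_two_le
  choose E hE0 hE1 hE2 using fun a b : {b : k // b ^ q + b = 0} =>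
    exists_tau2 h f g a.1 b.1 a.2 b.2
  let o : {b : k // b ^ q + b = 0} := ⟨0, by rw [zero_pow (by omega), add_zero]⟩
  have ho : o.1 = 0 := rfl
  let μ : {c : k // c ^ q = c} → {b : k // b ^ q + b = 0} → {b : k // b ^ q + b = 0} :=
    fun c b => ⟨-(c.1 * b.1), by
      have e1 : (-(c.1 * b.1)) ^ q = -(c.1 * b.1 ^ q) := by
        rw [h.neg_pow, mul_pow, c.2]
      have e2 := b.2
      have e3 : b.1 ^ q = -b.1 := by
        rw [eq_neg_iff_add_eq_zero]
        exact e2
      rw [e1, e3]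
      ring⟩
  have hμ : ∀ c b, (μ c b).1 = -(c.1 * b.1) := fun c b => rfl
  let z0 : {c : k // c ^ q = c} := ⟨0, by rw [zero_pow (by omega)]⟩
  have hμ0 : ∀ b, μ z0 b = o := fun b => Subtype.ext (by
    show -((0 : k) * b.1) = 0
    rw [zero_mul, neg_zero])
  -- composition
  have hcomp : ∀ a b, ∀ x : T.T (Sp (V2 q W f g)),
      tx_pl T (E o b) (tx_pl T (E a o) x) = tx_pl T (E a b) x := by
    intro a b x
    rw [tx_trans]
    refine tx_congr T (fun r => ?_) x
    show E o b (E a o r) = E a b r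
    refine hom2_ext q ((E o b : V2 q W f g →+* V2 q W f g).comp (E a o : V2 q W f g →+* V2 q W f g))
      (E a b : V2 q W f g →+* V2 q W f g) ?_ ?_ ?_ r
    · intro w
      show E o b (E a o (w2 q f g w)) = E a b (w2 q f g w)
      rw [hE0, hE0, hE0]
    · show E o b (E a o (y2 q f g)) = E a b (y2 q f g)
      rw [hE1, hE1, map_add, hE0, hE1, ho, map_zero, map_zero, add_zero]
    · show E o b (E a o (z2 q f g)) = E a b (z2 q f g)
      rw [hE2, hE2, map_add, hE0, hE2, ho, map_zero, map_zero, add_zero]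
  have hone : ∀ x : T.T (Sp (V2 q W f g)), tx_pl T (E o o) x = x := by
    intro x
    refine tx_id T _ (fun r => ?_) x
    refine hom2_ext q (E o o : V2 q W f g →+* V2 q W f g) (RingHom.id _) ?_ ?_ ?_ r
    · intro w
      exact hE0 o o w
    · show E o o (y2 q f g) = y2 q f g
      rw [hE1, ho, map_zero, map_zero, add_zero]
    · show E o o (z2 q f g) = z2 q f g
      rw [hE2, ho, map_zero, map_zero, add_zero]
  -- the operators of the lines
  let hh : Option {c : k // c ^ q = c} → W :=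
    fun i => i.elim g (fun c => f + algebraMap k W c.1 * g)
  let Nn : Option {c : k // c ^ q = c} → T.T (Sp (V2 q W f g)) → T.T (Sp (V2 q W f g)) :=
    fun i x => i.elim (∑ a, tx_pl T (E a o) x) (fun c => ∑ b, tx_pl T (E (μ c b) b) x)
  have hN : ∀ i, ∃ (φ : T.T (Sp (AS1 q W (hh i))) →+ T.T (Sp (V2 q W f g)))
      (ψ : T.T (Sp (V2 q W f g)) →+ T.T (Sp (AS1 q W (hh i)))), ∀ x, φ (ψ x) = Nn i x := by
    intro i
    rcases i with _ | c
    · obtain ⟨e, e0, e1, e2⟩ := exists_swap q f g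
      refine tx_line_sum hT1 hTG T h f g g f e (fun a => E a o) e0 (fun b w => hE0 b o w) ?_ ?_
      · intro b
        rw [e1, hE2, ho, map_zero, map_zero, add_zero]
      · intro b
        rw [e2, hE1]
    · obtain ⟨e, e0, e1, e2⟩ := exists_line h f g c.1 c.2
      refine tx_line_sum hT1 hTG T h f g _ g e (fun b => E (μ c b) b) e0
        (fun b w => hE0 _ b w) ?_ ?_
      · intro b
        rw [e1, map_add, map_mul, hE0, hE1, hE2, hμ, map_neg, map_neg, map_mul, map_mul]
        ring
      · intro b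
        rw [e2, hE2]
  choose φ ψ hφ using hN
  refine hGG.2.2.2.1 p m (T.T (Sp (V2 q W f g))) (Option {c : k // c ^ q = c})
    (fun i => T.T (Sp (AS1 q W (hh i)))) φ ?_ ?_
  · intro x
    have hid := line_count h (fun a b => tx_pl T (E a b) x) o ho μ hμ
    have hsum : ∑ a, ∑ b, tx_pl T (E a b) x = Nn (some z0) (Nn none x) := by
      show _ = ∑ b, tx_pl T (E (μ z0 b) b) (∑ a, tx_pl T (E a o) x)
      rw [Finset.sum_comm]
      refine Finset.sum_congr rfl fun b _ => ?_
      rw [hμ0, map_sum]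
      refine Finset.sum_congr rfl fun a _ => ?_
      rw [hcomp]
    have hid2 : p ^ m • x = ∑ c, Nn (some c) x + Nn none x - Nn (some z0) (Nn none x) := by
      rw [← h.hq, eq_sub_iff_add_eq, ← hsum]
      have h3 : q • tx_pl T (E o o) x = q • x := by rw [hone]
      rw [← h3]
      exact hid.symm
    rw [hid2]
    have hmem : ∀ i y, Nn i y ∈ ⨆ i, (φ i).range := by
      intro i y
      rw [← hφ]
      exact AddSubgroup.mem_iSup_of_mem i ⟨_, rfl⟩
    exact AddSubgroup.sub_mem _ (AddSubgroup.add_mem _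
      (AddSubgroup.sum_mem _ fun c _ => hmem _ _) (hmem _ _)) (hmem _ _)
  · intro i
    rcases i with _ | c
    · exact h1
    · exact h2 c.1 c.2

end Pool.Agent.KTH
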