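import Pool.Agent.KTH.GG
import Pool.Agent.KTH.T1
import Pool.Agent.KTH.TR
import Pool.Agent.KTH.TG
import Pool.Agent.KTH.TX
import Pool.Agent.KTH.TD
import Pool.Agent.KTH.HC
import Pool.Agent.KTH.HT
import Pool.Agent.KTH.R1
import Pool.Agent.KTH.R2
import Pool.Agent.KTH.FI
import Pool.Agent.KTH.Q6
import Pool.Agent.KTH.C1
import Pool.Agent.KTH.C2
import Pool.Agent.KTH.MB
import Pool.Agent.KTH.M

/-!
# KTH: the chain of all modules
-/

set_option autoImplicit false

namespace Pool.Agent.KTH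

universe u

theorem all_T1 : St_T1.{u} := thm_T1 thm_GG

theorem all_TR : St_TR.{u} := thm_TR thm_GG all_T1

theorem all_TG : St_TG.{u} := thm_TG all_T1

theorem all_TX : St_TX.{u} := thm_TX thm_GG all_T1 all_TG

theorem all_TD : St_TD.{u} := thm_TD thm_GG all_T1 all_TG

theorem all_HT : St_HT.{u} := thm_HT all_TR all_TX all_TD

theorem all_MB : St_MB.{u} := thm_MB all_HT

theorem all_R2 : St_R2.{u} := thm_R2 thm_R1

theorem all_C2 : St_C2.{u} := thm_C2 thm_C1 all_T1

/-- the theorem -/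
theorem all_M : St_M.{u} :=
  thm_M thm_GG all_T1 thm_R1 all_R2 all_HT thm_HC thm_FI thm_Q6 all_C2

end Pool.Agent.KTH
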