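import Pool.Agent.KTH.SrcN
import Pool.Agent.KTH.All

/-!
# Line S for all `n`: the theorem, from the theory `K'_n` and the case of dimension at most one

MP_e17fa799_al (architect helper33).
-/

set_option autoImplicit false

namespace Pool.Agent.KTH

open CategoryTheory AlgebraicGeometry Polynomial Pool.Agent.HPow Pool.Agent.RHS Pool.Agent.KPR
  Pool.Agent.THY

universe u

/-- `K'_n` is a theory -/
def HThy : Prop := ∀ n : ℕ, ∃ T : Thy.{1}, Nonempty (∀ X, T.T X ≃+ KX n X)

/-- `K'_n` of schemes of dimension at most one over `𝔽_p` -/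
def HDim1 : Prop := ∀ (p : ℕ) [Fact p.Prime] (X : Scheme.{0})
  (f : X ⟶ Spec (CommRingCat.of (ZMod p))) [LocallyOfFiniteType f] [QuasiCompact f],
  topologicalKrullDim X ≤ 1 → ∀ n : ℕ, AddGroup.FG (KX n X)

theorem gdG_fg {N : ℕ} {A : Type u} [AddCommGroup A] (h : AddGroup.FG A) : GdG N A :=
  ⟨⊤, AddGroup.fg_def.1 h, 0, fun _ => AddSubgroup.mem_top _⟩

/-- the base condition gives good groups -/
theorem base_good (hD : HDim1) {p m q t : ℕ} {k : Type} [Field k] (hk : Setg p m q t k) (n : ℕ)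
    {B : Scheme.{0}} (π : B ⟶ Spec (CommRingCat.of k)) (h : BaseOk p n B) :
    GdG p (KX n B) := by
  obtain ⟨⟨h1, h2⟩, h3⟩ | h := h
  · have : Fact p.Prime := ⟨hk.hp⟩
    have := hk.charP
    let f : B ⟶ Spec (CommRingCat.of (ZMod p)) :=
      π ≫ Spec.map (CommRingCat.ofHom (ZMod.castHom (dvd_refl p) k))
    have e : f ≫ Limits.terminal.from _ = Limits.terminal.from B := Subsingleton.elim _ _
    have i1 : LocallyOfFiniteType f := by
      have : LocallyOfFiniteType (f ≫ Limits.terminal.from _) := by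
        rw [e]
        exact h1
      exact locallyOfFiniteType_of_comp f (Limits.terminal.from _)
    have i2 : QuasiCompact f := by
      have : CompactSpace B := QuasiCompact.compactSpace_of_compactSpace (Limits.terminal.from B)
      infer_instance
    exact gdG_fg (hD p B f h3 n)
  · exact h

theorem noeth_closed {Z X : Scheme.{0}} [IsNoetherian X] (i : Z ⟶ X) [IsClosedImmersion i] :
    IsNoetherian Z :=
  haveI h1 : IsLocallyNoetherian Z := LocallyOfFiniteType.isLocallyNoetherian i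
  haveI h2 : CompactSpace Z := QuasiCompact.compactSpace_of_compactSpace i
  { h1, h2 with }

theorem noeth_open {U X : Scheme.{0}} [IsNoetherian X] (j : U ⟶ X) [IsOpenImmersion j] :
    IsNoetherian U :=
  haveI h1 : IsLocallyNoetherian U := isLocallyNoetherian_of_isOpenImmersion j
  haveI h2 : CompactSpace U := QuasiCompact.compactSpace_of_compactSpace j
  { h1, h2 with }

/-- the predicate on schemes has the closure properties -/
theorem scls_thy (T : Thy.{u}) (p : ℕ) : SCls (fun X => IsNoetherian X → GdG p (T.T X)) := by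
  obtain ⟨g1, g2, g3, g4, g5, g6⟩ := thm_GG.{u}
  obtain ⟨t1, t2, t3, t4, t5, t6⟩ := all_T1 T
  refine ⟨?_, ?_, ?_⟩
  · intro X hX _
    exact g6 p (T.T X) ⟨fun a b => by rw [t2 X hX a, t2 X hX b]⟩
  · intro Z X U _ i j _ _ hr hZ hU _
    exact t4 p Z X U i j hr (hZ (noeth_closed i)) (hU (noeth_open j))
  · intro Z X _ i _ hs
    have hb := t3 Z X i hs
    refine ⟨fun h _ => g2 p _ _ (T.push i) hb.2 (h (noeth_closed i)), fun h _ => ?_⟩
    exact g1 p _ _ (T.push i) hb.1 (h inferInstance)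

/-- a noetherian scheme filtered by pieces with good groups has a good group -/
theorem fil_good (T : Thy.{u}) (p : ℕ) {k : Type} [Field k]
    (Q : ∀ (V : Type) [CommRing V] [Algebra k V], Prop)
    (hQ : ∀ (V : Type) [CommRing V] [Algebra k V], Q V → GdG p (T.T (Sp V))) (Y : Scheme.{0})
    [IsNoetherian Y] (π : Y ⟶ Spec (CommRingCat.of k)) (h : FilK k Q Y π Set.univ) :
    GdG p (T.T Y) :=
  thm_FI (fun X => IsNoetherian X → GdG p (T.T X)) (scls_thy T p) k Q Y π Set.univ
    (fun V _ _ hV _ => hQ V hV) h Y (𝟙 Y) (Set.range_eq_univ.2 fun y => ⟨y, rfl⟩) inferInstance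

/-- isomorphic rings -/
theorem ring_good (T : Thy.{u}) {p m q t : ℕ} {k : Type} [Field k] (hk : Setg p m q t k)
    {R V : Type} [CommRing R] [CommRing V] [IsNoetherianRing R] (e : R ≃+* V)
    (h : GdG p (T.T (Sp R))) : GdG p (T.T (Sp V)) := by
  have : IsNoetherianRing V := isNoetherianRing_of_ringEquiv R e
  exact (all_HT p m q t k hk T).iso R V e (fun _ => h) inferInstance

/-- Hermitian pieces -/
theorem herm_good (T : Thy.{u}) {p m q t : ℕ} {k : Type} [Field k] (hk : Setg p m q t k)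
    (ev : Bool) (h1 : GdG p (T.T (Sp k))) (h3 : ev = false → GdG p (T.T (Sp (HR q k))))
    (V : Type) [CommRing V] [Algebra k V] (hV : IsHerm q ev k V) : GdG p (T.T (Sp V)) := by
  obtain ⟨s, n, a, ha, hev, ⟨φ⟩⟩ := hV
  have hcls := all_HT p m q t k hk T
  have hG := thm_HC p m q t k hk (fun R _ => GR T p R) hcls (fun _ => h1) s n a ha
    (by
      rintro ⟨c, hc, hn⟩ _
      cases ev with
      | false => exact h3 rfl
      | true => exact absurd (hev rfl c hc) hn)
  exact ring_good T hk φ.symm.toRingEquiv (hG inferInstance)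

/-- the pairs `Y`, `S` are good -/
theorem srcN_good (hD : HDim1) {p m q t n : ℕ} {k : Type} [Field k] (hk : Setg p m q t k)
    (T : Thy.{1}) (ε : ∀ X, T.T X ≃+ KX n X) (S : Scheme.{0}) (hS : FTZ S) (Y : Scheme.{0})
    [IsNoetherian Y] (π : Y ⟶ Spec (CommRingCat.of k)) (h : SrcN p n q S k Y π) :
    GdG p (T.T (px Y S)) := by
  obtain ⟨T', ε', -, -⟩ := all_R2 T S hS.1 hS.2
  have e1 : ∀ (R : Type) [CommRing R] [Algebra k R], BaseOk p n (bx R S) →
      GdG p (T'.T (Sp R)) := fun R _ _ h =>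
    gdG_iso ((ε' (Sp R)).trans (ε (px (Sp R) S))).symm (base_good hD hk n
      (pfst (Sp R) S ≫ Spec.map (CommRingCat.ofHom (algebraMap k R)) :
        bx R S ⟶ Spec (CommRingCat.of k)) h)
  refine gdG_iso (ε' Y) ?_
  cases h with
  | herm ev _ _ hY h1 h2 =>
    exact fil_good T' p (fun V _ _ => IsHerm q ev k V) (fun V _ _ hV =>
      herm_good T' hk ev (e1 k h1) (fun hev => e1 (HR q k) (h2 hev)) V hV) Y π
      (thm_Q6 p m q t k hk ev Y π hY)
  | fam _ _ hY =>
    refine fil_good T' p (fun V _ _ => IsFamN p n q S k V) (fun V _ _ hV => ?_) Y π hY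
    obtain ⟨B, i1, i2, s, r, h, a, i3, ha, h0, hc, ⟨φ⟩⟩ := hV
    have h1 := all_MB p m q t k hk T' B s r h a ha (e1 B h0)
      (fun c hc1 hr => e1 _ ((hc c hc1).1 hr)) (fun c hc1 hr => e1 _ ((hc c hc1).2 hr))
    exact ring_good T' hk φ.symm.toRingEquiv h1

theorem thm_N (hT : HThy) (hD : HDim1) (p n : ℕ) : DomN p n := by
  intro X _ J _ Z f _ _ hZ N hN
  obtain ⟨T, ⟨ε⟩⟩ := hT n
  obtain ⟨e, he⟩ := all_C2 T X J Z f N hN
  have hgood : ∀ j, GdG (p * N) (T.T (Z j)) := fun j => by
    obtain ⟨m, q, t, k, i1, hk, Y, i2, π, S, hS, hY, c, i3, i4⟩ := hZ j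
    have : IsOpenImmersion c := i3
    have : LocallyOfFiniteType (Limits.terminal.from S) := hS.1
    have : QuasiCompact (Limits.terminal.from S) := hS.2
    have : IsNoetherian (px Y S) := (thm_R1 S).2.2.2.2.2 Y inferInstance hS.1 hS.2
    refine thm_GG.2.2.2.2.1 p (p * N) _ (Dvd.intro _ rfl) ?_
    exact thm_GG.1 p _ _ (T.push c) ((all_T1 T).2.2.2.2.2 (Z j) (px Y S) c)
      (srcN_good hD hk T ε S hS Y π hY)
  refine gdG_iso (ε X) (thm_GG.2.2.2.1 (p * N) e (T.T X) J (fun j => T.T (Z j))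
    (fun j => T.push (f j)) ?_ hgood)
  intro x
  rw [mul_pow, mul_smul]
  exact AddSubgroup.nsmul_mem _ (he x) _

end Pool.Agent.KTH
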