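import Pool.Agent.KTH.Defs

/-!
# KTH: theories, a second version of the definition

HUNT line S for MP_e17fa799_al (architect helper33). `Theory` is `Thy`, with the open immersions
written out.
-/

set_option autoImplicit false

namespace Pool.Agent.KTH

open CategoryTheory AlgebraicGeometry

universe u

/-- `f` is an open immersion of schemes: an open immersion of locally ringed spaces (the definition of
`AlgebraicGeometry.IsOpenImmersion`) -/
def OpenImm {X Y : Scheme.{0}} (f : X ⟶ Y) : Prop := LocallyRingedSpace.IsOpenImmersion f.toLRSHom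

theorem openImm_iff {X Y : Scheme.{0}} (f : X ⟶ Y) : OpenImm f ↔ IsOpenImmersion f := Iff.rfl

/-- A theory on noetherian schemes: abelian groups `T X` with pull-backs for flat morphisms,
push-forwards for finite morphisms, and some of the formal properties of `K'ₙ` (for one `n`):
functoriality, base change, exactness in the middle for a closed subscheme and its open complement,
devissage, homotopy invariance (surjectivity), and `push (pull x) = d x` for base changes of free
algebras of rank `d`. (The groups `T X` and the homomorphisms are given for all schemes, but the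
properties are only required for noetherian schemes, so the values for other schemes are
irrelevant.) -/
structure Theory where
  /-- the groups -/
  T : Scheme.{0} → Type u
  /-- the group structure -/
  grp : ∀ X, AddCommGroup (T X)
  /-- pull-back along flat morphisms -/
  pull : ∀ {X Y : Scheme.{0}} (f : X ⟶ Y) [Flat f], T Y →+ T X
  /-- push-forward along finite morphisms -/
  push : ∀ {X Y : Scheme.{0}} (f : X ⟶ Y) [IsFinite f], T X →+ T Y
  pull_id : ∀ (X : Scheme.{0}) [IsNoetherian X] (x : T X), pull (𝟙 X) x = x
  pull_comp : ∀ {X Y Z : Scheme.{0}} [IsNoetherian X] [IsNoetherian Y] [IsNoetherian Z]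
    (f : X ⟶ Y) (g : Y ⟶ Z) [Flat f] [Flat g] (x : T Z), pull (f ≫ g) x = pull f (pull g x)
  push_id : ∀ (X : Scheme.{0}) [IsNoetherian X] (x : T X), push (𝟙 X) x = x
  push_comp : ∀ {X Y Z : Scheme.{0}} [IsNoetherian Z] (f : X ⟶ Y) (g : Y ⟶ Z) [IsFinite f]
    [IsFinite g] (x : T X), push (f ≫ g) x = push g (push f x)
  /-- base change -/
  bc : ∀ {X' X Y' Y : Scheme.{0}} [IsNoetherian Y] [IsNoetherian Y'] (g' : X' ⟶ X) (f' : X' ⟶ Y')
    (f : X ⟶ Y) (g : Y' ⟶ Y) [Flat g] [IsFinite f] [Flat g'] [IsFinite f'],
    IsPullback g' f' f g → ∀ x : T X, pull g (push f x) = push f' (pull g' x)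
  /-- exactness in the middle -/
  ex : ∀ {Z X U : Scheme.{0}} [IsNoetherian X] (i : Z ⟶ X) (j : U ⟶ X) [IsClosedImmersion i]
    [Flat j], OpenImm j → Set.range i = (Set.range j)ᶜ → ∀ x : T X, pull j x = 0 →
      ∃ z : T Z, push i z = x
  /-- the composition in the exact sequence is zero -/
  ex0 : ∀ {Z X U : Scheme.{0}} [IsNoetherian X] (i : Z ⟶ X) (j : U ⟶ X) [IsClosedImmersion i]
    [Flat j], OpenImm j → Set.range i = (Set.range j)ᶜ → ∀ z : T Z, pull j (push i z) = 0
  /-- devissage -/
  dev : ∀ {Z X : Scheme.{0}} [IsNoetherian X] (i : Z ⟶ X) [IsClosedImmersion i],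
    Function.Surjective i → Function.Injective (push i)
  /-- homotopy invariance -/
  hom : ∀ {X Y : Scheme.{0}} [IsNoetherian X] (R : Type) [CommRing R] (f : Y ⟶ X)
    (g : Y ⟶ Spec (CommRingCat.of (Polynomial R))) (h : X ⟶ Spec (CommRingCat.of R)) [Flat f],
    IsPullback f g h (Spec.map (CommRingCat.ofHom (Polynomial.C : R →+* Polynomial R))) →
      Function.Surjective (pull f)
  /-- free algebras -/
  free : ∀ {X Y : Scheme.{0}} [IsNoetherian X] (R R' : Type) [CommRing R] [CommRing R']
    [Algebra R R'] (d : ℕ) (_ : Module.Basis (Fin d) R R') (f : Y ⟶ X)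
    (g : Y ⟶ Spec (CommRingCat.of R')) (h : X ⟶ Spec (CommRingCat.of R)) [Flat f] [IsFinite f],
    IsPullback f g h (Spec.map (CommRingCat.ofHom (algebraMap R R'))) →
      ∀ x : T X, push f (pull f x) = d • x

attribute [instance] Theory.grp

/-- the two definitions agree -/
def Theory.toThy (T : Theory.{u}) : Thy.{u} where
  T := T.T
  grp := T.grp
  pull := T.pull
  push := T.push
  pull_id := T.pull_id
  pull_comp := T.pull_comp
  push_id := T.push_id
  push_comp := T.push_comp
  bc := T.bc
  ex := fun i j _ h => T.ex i j h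
  ex0 := fun i j _ h => T.ex0 i j h
  dev := T.dev
  hom := T.hom
  free := T.free

/-- the two definitions agree -/
def Thy.toTheory (T : Thy.{u}) : Theory.{u} where
  T := T.T
  grp := T.grp
  pull := T.pull
  push := T.push
  pull_id := T.pull_id
  pull_comp := T.pull_comp
  push_id := T.push_id
  push_comp := T.push_comp
  bc := T.bc
  ex := fun i j _ _ h => by
    have : IsOpenImmersion j := h
    exact T.ex i j
  ex0 := fun i j _ _ h => by
    have : IsOpenImmersion j := h
    exact T.ex0 i j
  dev := T.dev
  hom := T.hom
  free := T.free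

end Pool.Agent.KTH
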