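import Pool.Agent.KTH.FinA
import Pool.Agent.KIN.All
import Pool.Agent.KTH.Theory

/-!
# Line S: the final statement

HUNT line S for MP_e17fa799_al (architect helper33).
-/

set_option autoImplicit false

namespace Pool.Agent.KTH

open CategoryTheory AlgebraicGeometry Pool.Agent.HPow Pool.Agent.KSS Pool.Agent.KIN

universe u

/-- The scheme `S` is of finite type over `ℤ`. -/
def FTZ (S : Scheme.{0}) : Prop :=
  LocallyOfFiniteType (Limits.terminal.from S) ∧ QuasiCompact (Limits.terminal.from S)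

/-- `Z` is a good source for the groups `A X`, `X` a scheme: `Z` is open and closed in `Y × S`, `S` is
of finite type over `ℤ` and `Y` is a noetherian member of the class `SrcH` over a field `k` with
`q ^ (2 t)` elements, `q = p ^ m`, `m, t ≥ 1`; `A (Spec k × S)` and, unless `Y` is even (`ev = true`),
`A (H × S)` are good, where `H` is the affine curve `y ^ q + y = x ^ (q + 1)` over `k`; a group is good
if `p ^ e` times the group is contained in a finitely generated subgroup, for some `e`. -/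
def IsSource (p : ℕ) (A : Scheme.{0} → Type u) [∀ X, AddCommGroup (A X)] (Z : Scheme.{0}) : Prop :=
  ∃ (m q t : ℕ) (k : Type) (_ : Field k) (_ : Setg p m q t k) (ev : Bool) (Y : Scheme.{0})
    (_ : IsNoetherian Y) (σ : Y ⟶ Spec (CommRingCat.of k)) (_ : SrcH q ev k Y σ)
    (S : Scheme.{0}) (_ : FTZ S) (c : Z ⟶ px Y S), OpenImm c ∧ IsClosedImmersion c ∧
    GdG p (A (px (Sp k) S)) ∧ (ev = false → GdG p (A (px (Sp (HR q k)) S)))

/-- The assertion of the theorem for the groups `A X`, `X` a scheme: let `X` be a noetherian scheme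
and `f_j : Z_j ⟶ X` finitely many finite flat morphisms of good sources. If at every point of `X` the
greatest common divisor of the ranks of the `f_j` divides `N`, then `(p N) ^ e A(X)` is contained in
a finitely generated subgroup, for some `e`. -/
def Dom (p : ℕ) (A : Scheme.{0} → Type u) [∀ X, AddCommGroup (A X)] : Prop :=
  ∀ (X : Scheme.{0}) [IsNoetherian X] (J : Type) [Finite J] (Z : J → Scheme.{0})
    (f : ∀ j, Z j ⟶ X) [∀ j, IsFinite (f j)] [∀ j, Flat (f j)], (∀ j, IsSource p A (Z j)) →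
  ∀ N : ℕ, (∀ x : X, ∀ d : ℕ, (∀ j, d ∣ (f j).finrank x) → d ∣ N) → GdG (p * N) (A X)

/-- The stronger assertion for `K'₀` over `𝔽_p`: let `X` be a separated scheme of finite type over
`𝔽_p` and `f_j : Y_j ⟶ X` finitely many finite morphisms, where `Y_j` belongs to the class `SrcA` over
a finite field of characteristic `p`. If for every point `x` of `X` the greatest common divisor of the
degrees `[κ(y) : κ(x)]`, `y` a point of some `Y_j` over `x`, divides `N`, then `(p N) ^ e K'₀(X)` is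
contained in a finitely generated subgroup, for some `e`. -/
def DomFin (p : ℕ) : Prop :=
  ∀ (X : Scheme.{0}) (π : X ⟶ Spec (CommRingCat.of (ZMod p))) [IsSeparated π]
    [LocallyOfFiniteType π] [QuasiCompact π] (J : Type) [Finite J]
    (k : J → Type) [∀ j, Field (k j)] [∀ j, Finite (k j)] [∀ j, CharP (k j) p]
    (Y : J → Scheme.{0}) (σ : ∀ j, Y j ⟶ Spec (CommRingCat.of (k j))),
    (∀ j, SrcA p (k j) (Y j) (σ j)) →
  ∀ (f : ∀ j, Y j ⟶ X) [∀ j, IsFinite (f j)] (N : ℕ),
    (∀ x : X, ∀ d : ℕ, (∀ j, ∀ y : Y j, f j y = x → d ∣ resDeg (f j) y) → d ∣ N) →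
    GdG (p * N) (K0 X)

/-- The theory `T` is `K'₀` with the flat pull-back `pullK f [M] = [f^* M]` and the finite
push-forward `pushK f [M] = [f_* M]`. -/
def IsK0 (T : Theory.{1}) : Prop := ∃ ε : ∀ X, T.T X ≃+ K0 X,
  (∀ (X Y : Scheme.{0}) (f : Y ⟶ X) [Flat f] (x : T.T X), ε Y (T.pull f x) = pullK f (ε X x)) ∧
  ∀ (X Y : Scheme.{0}) (f : Y ⟶ X) [IsFinite f] (x : T.T Y), ε X (T.push f x) = pushK f (ε Y x)

theorem gdG_iso {N : ℕ} {A B : Type u} [AddCommGroup A] [AddCommGroup B] (e : A ≃+ B)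
    (h : GdG N A) : GdG N B :=
  thm_GG.2.1 N A B e.toAddMonoidHom e.surjective h

/-- the theorem for every theory -/
theorem dom_thy (p : ℕ) (T : Thy.{u}) : Dom p T.T := by
  intro X _ J _ Z f _ _ hZ N hN
  choose m q t k i1 h1 ev Y i2 σ h2 S h3 c i3 i4 h4 h5 using hZ
  have : ∀ j, LocallyOfFiniteType (Limits.terminal.from (S j)) := fun j => (h3 j).1
  have : ∀ j, IsOpenImmersion (c j) := i3
  have : ∀ j, QuasiCompact (Limits.terminal.from (S j)) := fun j => (h3 j).2
  exact all_M p T X J m q t k h1 ev Y σ h2 S h4 h5 Z c f N hN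

theorem isSource_iso {p : ℕ} {A B : Scheme.{0} → Type u} [∀ X, AddCommGroup (A X)]
    [∀ X, AddCommGroup (B X)] (ε : ∀ X, A X ≃+ B X) {Z : Scheme.{0}} (h : IsSource p A Z) :
    IsSource p B Z := by
  obtain ⟨m, q, t, k, i1, h1, ev, Y, i2, σ, h2, S, h3, c, i3, i4, h4, h5⟩ := h
  exact ⟨m, q, t, k, i1, h1, ev, Y, i2, σ, h2, S, h3, c, i3, i4, gdG_iso (ε _) h4,
    fun he => gdG_iso (ε _) (h5 he)⟩

/-- the theorem for `K'₀` -/
theorem dom_K0 (p : ℕ) : Dom p K0 := by
  obtain ⟨T, ε, -, -⟩ := Pool.Agent.KIN.all_Fin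
  intro X _ J _ Z f _ _ hZ N hN
  exact gdG_iso (ε X) (dom_thy p T X J Z f (fun j => isSource_iso (fun X => (ε X).symm) (hZ j)) N hN)

/-- the stronger theorem for `K'₀` over `𝔽_p` -/
theorem dom_fin (p : ℕ) (hp : p.Prime) : DomFin p := by
  have : Fact p.Prime := ⟨hp⟩
  intro X π _ _ _ J _ k _ _ _ Y σ hY f _ N hN
  exact all_A π k Y σ hY f N hN

/-- the theorem for `K'₀`, the stronger theorem over `𝔽_p`, all theories, and the instance `K'₀` -/
theorem all_S : (∀ p : ℕ, Dom p K0) ∧ (∀ p : ℕ, p.Prime → DomFin p) ∧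
    (∀ (p : ℕ) (T : Theory.{u}), Dom p T.T) ∧ ∃ T : Theory.{1}, IsK0 T := by
  refine ⟨dom_K0, fun p hp => ?_, fun p T => dom_thy p T.toThy, ?_⟩
  · exact dom_fin p hp
  · obtain ⟨T, h⟩ := Pool.Agent.KIN.all_Fin
    exact ⟨T.toTheory, h⟩

end Pool.Agent.KTH
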