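import Mathlib

/-!
# KTH: theories on schemes with the formal properties of `K'ₙ`: definitions

HUNT line S for MP_e17fa799_al (architect helper33); paper: HUNT_e17_S.md in the team store.
-/

set_option autoImplicit false

namespace Pool.Agent.KTH

open CategoryTheory AlgebraicGeometry

universe u

/-- A theory on noetherian schemes: abelian groups `T X` with pull-backs for flat morphisms,
push-forwards for finite morphisms, and some of the formal properties of `K'ₙ` (for one `n`):
functoriality, base change, exactness in the middle for a closed subscheme and its open complement,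
devissage, homotopy invariance (surjectivity), and `push (pull x) = d x` for base changes of free
algebras of rank `d`. (The groups `T X` and the homomorphisms are given for all schemes, but the
properties are only required for noetherian schemes, so the values for other schemes are
irrelevant.) -/
structure Thy where
  /-- the groups -/
  T : Scheme.{0} → Type u
  /-- the group structure -/
  grp : ∀ X, AddCommGroup (T X)
  /-- pull-back along flat morphisms -/
  pull : ∀ {X Y : Scheme.{0}} (f : X ⟶ Y) [Flat f], T Y →+ T X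
  /-- push-forward along finite morphisms -/
  push : ∀ {X Y : Scheme.{0}} (f : X ⟶ Y) [IsFinite f], T X →+ T Y
  pull_id : ∀ (X : Scheme.{0}) [IsNoetherian X] (x : T X), pull (𝟙 X) x = x
  pull_comp : ∀ {X Y Z : Scheme.{0}} [IsNoetherian X] [IsNoetherian Y] [IsNoetherian Z]
    (f : X ⟶ Y) (g : Y ⟶ Z) [Flat f] [Flat g] (x : T Z), pull (f ≫ g) x = pull f (pull g x)
  push_id : ∀ (X : Scheme.{0}) [IsNoetherian X] (x : T X), push (𝟙 X) x = x
  push_comp : ∀ {X Y Z : Scheme.{0}} [IsNoetherian Z] (f : X ⟶ Y) (g : Y ⟶ Z) [IsFinite f]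
    [IsFinite g] (x : T X), push (f ≫ g) x = push g (push f x)
  /-- base change -/
  bc : ∀ {X' X Y' Y : Scheme.{0}} [IsNoetherian Y] [IsNoetherian Y'] (g' : X' ⟶ X) (f' : X' ⟶ Y')
    (f : X ⟶ Y) (g : Y' ⟶ Y) [Flat g] [IsFinite f] [Flat g'] [IsFinite f'],
    IsPullback g' f' f g → ∀ x : T X, pull g (push f x) = push f' (pull g' x)
  /-- exactness in the middle -/
  ex : ∀ {Z X U : Scheme.{0}} [IsNoetherian X] (i : Z ⟶ X) (j : U ⟶ X) [IsClosedImmersion i]
    [IsOpenImmersion j], Set.range i = (Set.range j)ᶜ → ∀ x : T X, pull j x = 0 →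
      ∃ z : T Z, push i z = x
  /-- the composition in the exact sequence is zero -/
  ex0 : ∀ {Z X U : Scheme.{0}} [IsNoetherian X] (i : Z ⟶ X) (j : U ⟶ X) [IsClosedImmersion i]
    [IsOpenImmersion j], Set.range i = (Set.range j)ᶜ → ∀ z : T Z, pull j (push i z) = 0
  /-- devissage -/
  dev : ∀ {Z X : Scheme.{0}} [IsNoetherian X] (i : Z ⟶ X) [IsClosedImmersion i],
    Function.Surjective i → Function.Injective (push i)
  /-- homotopy invariance -/
  hom : ∀ {X Y : Scheme.{0}} [IsNoetherian X] (R : Type) [CommRing R] (f : Y ⟶ X)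
    (g : Y ⟶ Spec (CommRingCat.of (Polynomial R))) (h : X ⟶ Spec (CommRingCat.of R)) [Flat f],
    IsPullback f g h (Spec.map (CommRingCat.ofHom (Polynomial.C : R →+* Polynomial R))) →
      Function.Surjective (pull f)
  /-- free algebras -/
  free : ∀ {X Y : Scheme.{0}} [IsNoetherian X] (R R' : Type) [CommRing R] [CommRing R']
    [Algebra R R'] (d : ℕ) (_ : Module.Basis (Fin d) R R') (f : Y ⟶ X)
    (g : Y ⟶ Spec (CommRingCat.of R')) (h : X ⟶ Spec (CommRingCat.of R)) [Flat f] [IsFinite f],
    IsPullback f g h (Spec.map (CommRingCat.ofHom (algebraMap R R'))) →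
      ∀ x : T X, push f (pull f x) = d • x

attribute [instance] Thy.grp

/-- the group `A` is finitely generated up to a bounded power of `N`: there are a finitely generated
subgroup `G` and a number `e` with `N ^ e A ⊆ G` -/
def GdG (N : ℕ) (A : Type u) [AddCommGroup A] : Prop :=
  ∃ G : AddSubgroup A, G.FG ∧ ∃ e : ℕ, ∀ x : A, N ^ e • x ∈ G

end Pool.Agent.KTH
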