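import Pool.Agent.KTH.St

/-!
# KTH, module GG: good groups
-/

set_option autoImplicit false

namespace Pool.Agent.KTH

universe u

theorem gg_fg_map {A B : Type u} [AddCommGroup A] [AddCommGroup B] (φ : A →+ B)
    {G : AddSubgroup A} (h : G.FG) : (G.map φ).FG := by
  rw [AddSubgroup.fg_iff] at h ⊢
  obtain ⟨S, hS, hfin⟩ := h
  exact ⟨φ '' S, by rw [← AddMonoidHom.map_closure, hS], hfin.image _⟩

/-- a subgroup of a finitely generated abelian group is finitely generated -/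
theorem gg_fg_le {A : Type u} [AddCommGroup A] {G H : AddSubgroup A} (h : G.FG) (hle : H ≤ G) :
    H.FG := by
  have h1 : (AddSubgroup.toIntSubmodule G).FG :=
    (Submodule.fg_iff_addSubgroup_fg _).2 (by simpa using h)
  have h2 : IsNoetherian ℤ (AddSubgroup.toIntSubmodule G) := isNoetherian_of_fg_of_noetherian _ h1
  have h3 : (AddSubgroup.toIntSubmodule H).FG :=
    isNoetherian_submodule.1 h2 _ (fun x hx => hle hx)
  simpa using (Submodule.fg_iff_addSubgroup_fg _).1 h3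

/-- the preimage of a finitely generated subgroup under an injective map -/
theorem gg_fg_comap {A B : Type u} [AddCommGroup A] [AddCommGroup B] (φ : A →+ B)
    (hφ : Function.Injective φ) {G : AddSubgroup B} (h : G.FG) : (G.comap φ).FG := by
  have h1 : (G ⊓ φ.range).FG := gg_fg_le h inf_le_left
  have h2 : (G.comap φ).map φ = G ⊓ φ.range := by
    rw [AddSubgroup.map_comap_eq, inf_comm]
  rw [← h2] at h1
  rw [AddSubgroup.fg_iff] at h1 ⊢
  obtain ⟨S, hS, hfin⟩ := h1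
  have hsub : S ⊆ Set.range φ := by
    intro s hs
    have h3 : s ∈ (G.comap φ).map φ := by
      rw [← hS]
      exact AddSubgroup.subset_closure hs
    obtain ⟨a, -, ha⟩ := h3
    exact ⟨a, ha⟩
  refine ⟨φ ⁻¹' S, ?_, hfin.preimage hφ.injOn⟩
  apply AddSubgroup.map_injective hφ
  rw [AddMonoidHom.map_closure, Set.image_preimage_eq_of_subset hsub, hS]

/-- lifting a finitely generated subgroup of the image -/
theorem gg_fg_lift {B C : Type u} [AddCommGroup B] [AddCommGroup C] (ψ : B →+ C)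
    {H : AddSubgroup C} (h : H.FG) (hle : H ≤ ψ.range) : ∃ W : AddSubgroup B, W.FG ∧ W.map ψ = H := by
  obtain ⟨S, hS, hfin⟩ := (AddSubgroup.fg_iff _).1 h
  have hsub : ∀ s : S, ∃ b, ψ b = s := fun s =>
    hle (by rw [← hS]; exact AddSubgroup.subset_closure s.2)
  choose f hf using hsub
  have hfin' : Finite S := hfin
  refine ⟨AddSubgroup.closure (Set.range f), (AddSubgroup.fg_iff _).2
    ⟨Set.range f, rfl, Set.finite_range f⟩, ?_⟩
  rw [AddMonoidHom.map_closure, ← hS]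
  congr 1
  ext c
  constructor
  · rintro ⟨_, ⟨s, rfl⟩, rfl⟩
    rw [hf]
    exact s.2
  · intro hc
    exact ⟨f ⟨c, hc⟩, ⟨⟨c, hc⟩, rfl⟩, hf _⟩

theorem thm_GG : St_GG.{u} := by
  refine ⟨?_, ?_, ?_, ?_, ?_, ?_⟩
  · rintro N A B _ _ φ hφ ⟨G, hG, e, he⟩
    refine ⟨G.comap φ, gg_fg_comap φ hφ hG, e, fun x => ?_⟩
    rw [AddSubgroup.mem_comap, map_nsmul]
    exact he _
  · rintro N A B _ _ φ hφ ⟨G, hG, e, he⟩
    refine ⟨G.map φ, gg_fg_map φ hG, e, fun x => ?_⟩
    obtain ⟨y, rfl⟩ := hφ x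
    exact ⟨N ^ e • y, he y, map_nsmul _ _ _⟩
  · rintro N A B C _ _ _ φ ψ hex ⟨GA, hGA, a, ha⟩ ⟨GC, hGC, c, hc⟩
    obtain ⟨W, hW, hW'⟩ := gg_fg_lift ψ (H := GC ⊓ ψ.range) (gg_fg_le hGC inf_le_left)
      inf_le_right
    refine ⟨GA.map φ ⊔ W, (gg_fg_map φ hGA).sup hW, a + c, fun x => ?_⟩
    have h1 : ψ (N ^ c • x) ∈ GC ⊓ ψ.range := by
      refine ⟨?_, ⟨_, rfl⟩⟩
      rw [map_nsmul]
      exact hc _
    rw [← hW'] at h1
    obtain ⟨w, hw, hw'⟩ := h1
    obtain ⟨y, hy⟩ := hex (N ^ c • x - w) (by rw [map_sub, hw', sub_self])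
    have h2 : N ^ (a + c) • x = φ (N ^ a • y) + N ^ a • w := by
      rw [map_nsmul, hy, pow_add, mul_smul, smul_sub, sub_add_cancel]
    rw [h2]
    exact AddSubgroup.add_mem _ (AddSubgroup.mem_sup_left ⟨_, ha y, rfl⟩)
      (AddSubgroup.mem_sup_right (AddSubgroup.nsmul_mem _ hw _))
  · intro N e B _ I _ A _ φ h hA
    cases nonempty_fintype I
    choose Γ hΓ d hd using hA
    let E := Finset.univ.sup d
    let Λ : AddSubgroup B := ⨆ i, (Γ i).map (φ i)
    have hle : (⨆ i, (φ i).range) ≤ Λ.comap (nsmulAddMonoidHom (N ^ E)) := by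
      refine iSup_le fun i => ?_
      rintro _ ⟨y, rfl⟩
      show N ^ E • φ i y ∈ Λ
      have h1 : d i ≤ E := Finset.le_sup (Finset.mem_univ i)
      have h2 : N ^ E • φ i y = N ^ (E - d i) • φ i (N ^ d i • y) := by
        rw [map_nsmul, ← mul_smul, ← pow_add, Nat.sub_add_cancel h1]
      rw [h2]
      have h3 : φ i (N ^ d i • y) ∈ (Γ i).map (φ i) := ⟨_, hd i y, rfl⟩
      exact AddSubgroup.nsmul_mem _
        (AddSubgroup.mem_iSup_of_mem (S := fun i => (Γ i).map (φ i)) i h3) _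
    refine ⟨Λ, AddSubgroup.FG.iSup _ (fun i => gg_fg_map _ (hΓ i)), E + e, fun x => ?_⟩
    have := hle (h x)
    rw [pow_add, mul_smul]
    exact this
  · rintro M N A _ ⟨c, rfl⟩ ⟨G, hG, e, he⟩
    refine ⟨G, hG, e, fun x => ?_⟩
    rw [mul_pow, mul_comm, mul_smul]
    exact AddSubgroup.nsmul_mem _ (he x) _
  · intro N A _ hA
    refine ⟨⊥, AddSubgroup.FG.bot, 0, fun x => ?_⟩
    rw [Subsingleton.elim (N ^ 0 • x) 0]
    exact AddSubgroup.zero_mem _

end Pool.Agent.KTH
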