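import Pool.Agent.KTH.FinN
import Pool.Agent.KPR.Sch
import Pool.Agent.KQG.KI

/-!
# Line S for all `n`: `K'_n` is a theory (from homotopy invariance for rings)

MP_e17fa799_al (architect helper33).
-/

set_option autoImplicit false

noncomputable section

namespace Pool.Agent.KTH

open CategoryTheory AlgebraicGeometry Pool.Agent.KPR Pool.Agent.KQG Pool.Agent.KTX

universe u

/-- a theory of the library KTX as a theory of the library KTH -/
def ofSTh (T : STh.{u}) : Thy.{u} where
  T := T.T
  grp := T.grp
  pull := T.pull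
  push := T.push
  pull_id := T.pull_id
  pull_comp := T.pull_comp
  push_id := T.push_id
  push_comp := T.push_comp
  bc := T.bc
  ex := T.ex
  ex0 := T.ex0
  dev := T.dev
  hom R _ f g h _ hp := (T.hom R f g h hp).2
  free := T.free

theorem hThy (h : St_HOMK) : HThy := by
  intro n
  obtain ⟨L, e, -⟩ := all_THY.{1} (kInt h)
  let ε : ∀ X, (L.th n).T X ≃+ KX n X := fun X => (e n X).trans (kxEquiv n X).symm
  exact ⟨ofSTh (L.th n), ⟨ε⟩⟩

end Pool.Agent.KTH
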