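import Pool.Agent.KTH.KF
import Pool.Agent.KTH.All

/-!
# The theorem on `K'₀`, finite morphisms

HUNT line S for MP_e17fa799_al (architect helper33).
-/

set_option autoImplicit false

namespace Pool.Agent.KTH

open CategoryTheory AlgebraicGeometry Pool.Agent.HPow Pool.Agent.KSS

/-- The `k`-schemes which are allowed in the theorem on `K'₀`: the members of the class `Src`, and, if
`k` has `q ^ (2 t)` elements, `q = p ^ m`, `m, t ≥ 1`, the members of `SrcK p q k`. -/
def SrcA (p : ℕ) (k : Type) [Field k] (Y : Scheme.{0}) (σ : Y ⟶ Spec (CommRingCat.of k)) : Prop :=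
  Pool.Agent.KSS.Src p k Y σ ∨ ∃ m q t : ℕ, Setg p m q t k ∧ SrcK p q k Y σ

theorem old_gfil {p : ℕ} [Fact p.Prime] {k : Type} [Field k] [Finite k] [CharP k p]
    {Y : Scheme.{0}} {π : Y ⟶ Spec (CommRingCat.of k)} (h : Pool.Agent.KSS.Src p k Y π) :
    GFil p Y Set.univ := by
  refine k_fil (P := fun V _ _ => IsAQk p k V) (fun V _ _ hV => ?_) (T := Set.univ) (π := π) ?_
  · refine thm_R5.1 p V ?_
    obtain ⟨s, n, H, f, hf, hV'⟩ := hV
    refine ⟨k, inferInstance, inferInstance, inferInstance, s, n, H, f, hf, ?_⟩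
    obtain ⟨e⟩ := hV'
    exact ⟨e.toRingEquiv⟩
  · have h2 := src_fil h
    generalize (Set.univ : Set Y) = T at h2
    induction h2 with
    | empty => exact FilK.empty
    | step T T' hT hT' U hU V hV i hi hTT' hTU hr _ ih =>
      exact FilK.step T T' hT hT' U hU V hV i hi hTT' hTU hr ih

theorem srcA_gfil {p : ℕ} [Fact p.Prime] {k : Type} [Field k] [Finite k] [CharP k p]
    {Y : Scheme.{0}} {π : Y ⟶ Spec (CommRingCat.of k)} (h : SrcA p k Y π) :
    GFil p Y Set.univ := by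
  rcases h with h | ⟨m, q, t, hk, h⟩
  · exact old_gfil h
  · exact thm_KF p m q t k hk Y π h

/-- **The theorem on `K'₀`**: `X` separated of finite type over `𝔽_p`, finite morphisms
`f_j : Y_j ⟶ X`, `Y_j` in the class `SrcA` over a finite field `k_j` of characteristic `p`, and at every
point of `X` the greatest common divisor of the residue degrees divides `N`. -/
theorem all_A {p : ℕ} [Fact p.Prime] {X : Scheme.{0}}
    (π : X ⟶ Spec (CommRingCat.of (ZMod p))) [IsSeparated π] [LocallyOfFiniteType π]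
    [QuasiCompact π] {J : Type} [Finite J] (k : J → Type) [∀ j, Field (k j)] [∀ j, Finite (k j)]
    [∀ j, CharP (k j) p] (Y : J → Scheme.{0}) (σ : ∀ j, Y j ⟶ Spec (CommRingCat.of (k j)))
    (hY : ∀ j, SrcA p (k j) (Y j) (σ j)) (f : ∀ j, Y j ⟶ X) [∀ j, IsFinite (f j)] (N : ℕ)
    (hN : ∀ x : X, ∀ d : ℕ, (∀ j, ∀ y : Y j, f j y = x → d ∣ resDeg (f j) y) → d ∣ N) :
    ∃ G : AddSubgroup (K0 X), G.FG ∧ ∃ e : ℕ, ∀ x : K0 X, (p * N) ^ e • x ∈ G :=
  k_main π Y f (fun j => srcA_gfil (hY j)) N hN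

end Pool.Agent.KTH
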