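import Pool.Agent.KSS.All
import Pool.Agent.KTH.Src

/-!
# The concrete theorem on `K'₀` with arbitrary good affine pieces

`p ^ e G₀(V)` is contained in a finitely generated subgroup for the pieces `Spec V` of the
filtrations; otherwise the pieces are arbitrary.  Copies of `Pool/Agent/KSS/{Q0,T1,Fin}.lean`.
-/

set_option autoImplicit false

noncomputable section

namespace Pool.Agent.KTH

open CategoryTheory AlgebraicGeometry TopologicalSpace Function Pool.Agent.Helper11 Pool.Agent.KSS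
  Pool.Agent.HPow

/-- filtrations by affine pieces `Spec V` with good `G₀(V)` -/
inductive GFil (p : ℕ) (Y : Scheme.{0}) : Set Y → Prop
  | empty : GFil p Y ∅
  | step (T T' : Set Y) (hT' : IsClosed T') (U : Y.Opens) (hU : IsAffineOpen U)
      (V : CommRingCat.{0}) (hV : GoodP p V) (i : Spec V ⟶ U.toScheme) [IsClosedImmersion i]
      (h₁ : T' ∩ U = Set.range (i ≫ U.ι)) (h₂ : T' \ U ⊆ T) (h : GFil p Y T) : GFil p Y T'

theorem k_fil {p : ℕ} {k : Type} [Field k]
    {P : ∀ (V : Type) [CommRing V] [Algebra k V], Prop}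
    (hP : ∀ (V : Type) [CommRing V] [Algebra k V], P V → GoodP p V) {Y : Scheme.{0}}
    {π : Y ⟶ Spec (CommRingCat.of k)} {T : Set Y} (h : FilK k P Y π T) : GFil p Y T := by
  induction h with
  | empty => exact GFil.empty
  | step T T' hT hT' U hU V hV i hi hTT' hTU hr h ih =>
    refine GFil.step T T' hT' U hU (CommRingCat.of V) (hP V hV) i ?_ ?_ ih
    · rw [← hr]
      ext x
      constructor
      · rintro ⟨h1, h2⟩
        refine ⟨h1, fun h3 => ?_⟩
        have h4 : x ∈ T ∩ (U : Set Y) := ⟨h3, h2⟩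
        rw [hTU] at h4
        exact h4
      · intro h1
        refine ⟨h1.1, ?_⟩
        rw [hr] at h1
        obtain ⟨y, rfl⟩ := h1
        exact (i y).2
    · rintro x ⟨h1, h2⟩
      by_contra h3
      have h4 : x ∈ T' \ T := ⟨h1, h3⟩
      rw [hr] at h4
      obtain ⟨y, rfl⟩ := h4
      exact h2 (i y).2

theorem k_t1 (p : ℕ) (Y : Scheme.{0}) [Y.IsSeparated] [IsLocallyNoetherian Y] (T : Set Y)
    (hT : GFil p Y T) :
    IsClosed T ∧ ∀ O : Y.Opens, (O : Set Y) = Tᶜ →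
      ∃ G : AddSubgroup (K0 Y), G.FG ∧ ∃ e : ℕ, ∀ x ∈ SO O, p ^ e • x ∈ G := by
  have h5 := all_S5
  induction hT with
  | empty =>
    refine ⟨isClosed_empty, fun O hO => ⟨⊥, ⟨∅, by simp⟩, 0, ?_⟩⟩
    have hO' : O = ⊤ := by
      ext x
      rw [hO]
      simp
    subst hO'
    intro x hx
    have h0 : SO (⊤ : Y.Opens) ≤ ⊥ := by
      unfold SO
      rw [AddSubgroup.closure_le]
      rintro x ⟨M, hM, hv, rfl⟩
      exact (h5 Y).2.2.2.1 M hM hv
    have h1 : x = 0 := h0 hx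
    rw [h1, smul_zero]
    exact zero_mem _
  | step T T' hT' U hU V hV i h₁ h₂ h ih =>
    obtain ⟨hTc, ih⟩ := ih
    refine ⟨hT', fun O hO => ?_⟩
    obtain ⟨g, hg⟩ := thm_R5.2 Y U hU V i O (by rw [hO, compl_compl]; exact h₁)
    obtain ⟨φ, hφ⟩ := all_K4 Y U O hU V g hg
    have hk5 := all_K5 Y U O hU V g hg φ hφ
    obtain ⟨Γ, hΓ, e, he⟩ := hV
    obtain ⟨G₂, hG₂, hl⟩ := t1_lift (QuotientAddGroup.mk' (SO (O ⊔ U)))
      (QuotientAddGroup.mk'_surjective _) φ Γ hΓ
    obtain ⟨G, hG, e', he'⟩ := ih ⟨Tᶜ, hTc.isOpen_compl⟩ rfl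
    have hle : (⟨Tᶜ, hTc.isOpen_compl⟩ : Y.Opens) ≤ O ⊔ U := by
      intro x hx
      have hx' : x ∉ T := hx
      by_cases hxU : x ∈ U
      · exact Or.inr hxU
      · left
        show x ∈ (O : Set Y)
        rw [hO]
        intro hxT
        exact hx' (h₂ ⟨hxT, hxU⟩)
    refine ⟨G₂ ⊔ G, hG₂.sup hG, e + e', ?_⟩
    intro x hx
    obtain ⟨a, ha⟩ := hk5 x hx
    obtain ⟨y, hy, hy'⟩ := hl (p ^ e • a) (he a)
    have h3 : p ^ e • x - y ∈ SO (O ⊔ U) := by
      rw [← QuotientAddGroup.eq_zero_iff]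
      have h4 : (QuotientAddGroup.mk (p ^ e • x - y) : K0 Y ⧸ SO (O ⊔ U)) =
        p ^ e • QuotientAddGroup.mk x - QuotientAddGroup.mk y := rfl
      have h5' : (QuotientAddGroup.mk y : K0 Y ⧸ SO (O ⊔ U)) = φ (p ^ e • a) := hy'
      rw [h4, h5', map_nsmul, ha, sub_self]
    have h6 := he' _ (SO_mono hle h3)
    have h7 : p ^ (e + e') • x = p ^ e' • y + p ^ e' • (p ^ e • x - y) := by
      rw [← smul_add, add_sub_cancel, smul_smul, ← pow_add, add_comm e']
    rw [h7]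
    exact add_mem ((le_sup_left : G₂ ≤ G₂ ⊔ G) (nsmul_mem hy _))
      ((le_sup_right : G ≤ G₂ ⊔ G) h6)

/-- schemes filtered by good affine pieces are good -/
theorem k_good (p : ℕ) (Y : Scheme.{0}) [Y.IsSeparated] [IsLocallyNoetherian Y]
    (hY : GFil p Y Set.univ) :
    ∃ G : AddSubgroup (K0 Y), G.FG ∧ ∃ e : ℕ, ∀ x : K0 Y, p ^ e • x ∈ G := by
  obtain ⟨G, hG, e, he⟩ := (k_t1 p Y Set.univ hY).2 ⊥ (by simp)
  refine ⟨G, hG, e, fun x => he x ?_⟩
  rw [SO_bot (all_S5 Y).2.2.1]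
  exact AddSubgroup.mem_top x

/-- **The theorem on `K'₀`**: `X` separated of finite type over `𝔽_p`, finite morphisms
`f_j : Y_j ⟶ X`, the `Y_j` filtered by affine pieces `Spec V` with good `G₀(V)`, and at every point of `X`
the greatest common divisor of the residue degrees divides `N`. -/
theorem k_main {p : ℕ} [Fact p.Prime] {X : Scheme.{0}}
    (π : X ⟶ Spec (CommRingCat.of (ZMod p))) [IsSeparated π] [LocallyOfFiniteType π]
    [QuasiCompact π] {J : Type} [Finite J] (Y : J → Scheme.{0}) (f : ∀ j, Y j ⟶ X)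
    [∀ j, IsFinite (f j)] (hY : ∀ j, GFil p (Y j) Set.univ) (N : ℕ)
    (hN : ∀ x : X, ∀ d : ℕ, (∀ j, ∀ y : Y j, f j y = x → d ∣ resDeg (f j) y) → d ∣ N) :
    ∃ G : AddSubgroup (K0 X), G.FG ∧ ∃ e : ℕ, ∀ x : K0 X, (p * N) ^ e • x ∈ G := by
  have hX : IsLocallyNoetherian X := LocallyOfFiniteType.isLocallyNoetherian π
  have hsep : X.IsSeparated := ⟨by
    have := (inferInstance : IsSeparated (π ≫ Limits.terminal.from _))
    rwa [Limits.terminal.comp_from] at this⟩
  obtain ⟨fs, e, he⟩ := all_T3 p X π J Y f N hN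
  have hgood : ∀ j, ∃ G : AddSubgroup (K0 (Y j)), G.FG ∧ ∃ e : ℕ, ∀ x : K0 (Y j),
      p ^ e • x ∈ G := by
    intro j
    have h1 : IsLocallyNoetherian (Y j) := LocallyOfFiniteType.isLocallyNoetherian (f j)
    have h2 : (Y j).IsSeparated := ⟨by
      have := (inferInstance : IsSeparated (f j ≫ Limits.terminal.from _))
      rwa [Limits.terminal.comp_from] at this⟩
    exact k_good p (Y j) (hY j)
  choose G hG d hd using hgood
  cases nonempty_fintype J
  let D := Finset.univ.sup d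
  have hle : (⨆ j, (fs j).range) ≤
      (⨆ j, (G j).map (fs j)).comap (nsmulAddMonoidHom (p ^ D)) := by
    refine iSup_le fun j => ?_
    rintro _ ⟨y, rfl⟩
    show p ^ D • fs j y ∈ ⨆ j, (G j).map (fs j)
    have h1 : d j ≤ D := Finset.le_sup (Finset.mem_univ j)
    have h2 : p ^ D • fs j y = p ^ (D - d j) • fs j (p ^ d j • y) := by
      rw [map_nsmul, ← mul_smul, ← pow_add, Nat.sub_add_cancel h1]
    rw [h2]
    have h3 : fs j (p ^ d j • y) ∈ (G j).map (fs j) := ⟨_, hd j y, rfl⟩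
    exact AddSubgroup.nsmul_mem _
      (AddSubgroup.mem_iSup_of_mem (S := fun j => (G j).map (fs j)) j h3) _
  refine ⟨⨆ j, (G j).map (fs j), AddSubgroup.FG.iSup _
    (fun j => Pool.Agent.HPow.cl_fg_map _ (hG j)), D + e, fun x => ?_⟩
  have h4 : p ^ D • (N ^ e • x) ∈ ⨆ j, (G j).map (fs j) := hle (he x)
  have h5 : (p * N) ^ (D + e) • x = (p ^ e * N ^ D) • (p ^ D • (N ^ e • x)) := by
    rw [← mul_smul, ← mul_smul]
    congr 1
    ring
  rw [h5]
  exact AddSubgroup.nsmul_mem _ h4 _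

end Pool.Agent.KTH
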