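import Pool.Agent.KTH.SrcK
import Pool.Agent.KTH.Q6
import Pool.Agent.KSS.SrcThm
import Pool.Agent.THY.Inst

/-!
# KTH, module KF: members of `SrcK` are filtered by good affine pieces
-/

set_option autoImplicit false

noncomputable section

namespace Pool.Agent.KTH

open CategoryTheory AlgebraicGeometry TopologicalSpace Function Pool.Agent.THY Pool.Agent.HPow
  Pool.Agent.RHS Pool.Agent.KSS
open scoped TensorProduct

section prod

variable {k : Type} [Field k] {P P' Q : (V : Type) → [CommRing V] → [Algebra k V] → Prop}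

/-- the inner induction, two predicates -/
theorem kf_inner (h1 : ∀ (V V' : Type) [CommRing V] [CommRing V'] [Algebra k V] [Algebra k V'],
      P V → P' V' → Q (TensorProduct k V V')) (Y Y' : Scheme.{0})
    (π : Y ⟶ Spec (CommRingCat.of k)) (π' : Y' ⟶ Spec (CommRingCat.of k))
    (T T' : Set Y) (hT : IsClosed T) (hT' : IsClosed T') (U : Y.Opens) (hU : IsAffineOpen U)
    (V : Type) [CommRing V] [Algebra k V] (hV : P V)
    (i : Spec (CommRingCat.of V) ⟶ U.toScheme) [IsClosedImmersion i]
    (hi : i ≫ U.ι ≫ π = Spec.map (CommRingCat.ofHom (algebraMap k V)))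
    (hTT' : T ⊆ T') (hTU : T ∩ U = ∅) (hr : T' \ T = Set.range (i ≫ U.ι))
    (ih : FilK k Q (Limits.pullback π π') (Limits.pullback.fst π π' ≫ π)
      (Limits.pullback.fst π π' ⁻¹' T)) (S : Set Y') (hS : FilK k P' Y' π' S) :
    IsClosed S ∧ FilK k Q (Limits.pullback π π') (Limits.pullback.fst π π' ≫ π)
      (Limits.pullback.fst π π' ⁻¹' T ∪
        (Limits.pullback.fst π π' ⁻¹' T' ∩ Limits.pullback.snd π π' ⁻¹' S)) := by
  induction hS with
  | empty =>
    refine ⟨isClosed_empty, ?_⟩
    rwa [Set.preimage_empty, Set.inter_empty, Set.union_empty]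
  | step S S' hSc hSc' U' hU' V' hV' i' hi' hSS' hSU' hr' _ ih' =>
    refine ⟨hSc', ?_⟩
    obtain ⟨hW, c, hc, hcπ, hcr⟩ := thm_Q1b k Y Y' π π' U U' V V' i i' hU hU' hi hi'
    have hcont : Continuous (Limits.pullback.fst π π') := (Limits.pullback.fst π π').continuous
    have hcont' : Continuous (Limits.pullback.snd π π') := (Limits.pullback.snd π π').continuous
    refine FilK.step _ _ ((hT.preimage hcont).union ((hT'.preimage hcont).inter
      (hSc.preimage hcont'))) ((hT.preimage hcont).union ((hT'.preimage hcont).inter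
      (hSc'.preimage hcont'))) _ hW (TensorProduct k V V') (h1 V V' hV hV') c hcπ ?_ ?_ ?_
      ih'.2
    · refine Set.union_subset_union_right _ (Set.inter_subset_inter_right _ ?_)
      exact Set.preimage_mono hSS'
    · ext z
      simp only [Set.mem_inter_iff, Set.mem_union, Set.mem_preimage, Set.mem_empty_iff_false,
        iff_false, not_and]
      intro hz hzW
      have hz1 : Limits.pullback.fst π π' z ∈ U := hzW.1
      have hz2 : Limits.pullback.snd π π' z ∈ U' := hzW.2
      rcases hz with hz | ⟨_, hz⟩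
      · have : Limits.pullback.fst π π' z ∈ T ∩ (U : Set Y) := ⟨hz, hz1⟩
        rw [hTU] at this
        exact this
      · have : Limits.pullback.snd π π' z ∈ S ∩ (U' : Set Y') := ⟨hz, hz2⟩
        rw [hSU'] at this
        exact this
    · ext z
      rw [hcr, ← hr, ← hr']
      simp only [Set.mem_sdiff, Set.mem_union, Set.mem_inter_iff, Set.mem_preimage]
      constructor
      · rintro ⟨h | ⟨h3, h4⟩, h5⟩
        · exact (h5 (Or.inl h)).elim
        · exact ⟨⟨h3, fun h => h5 (Or.inl h)⟩, ⟨h4, fun h => h5 (Or.inr ⟨h3, h⟩)⟩⟩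
      · rintro ⟨⟨h3, h4⟩, ⟨h5, h6⟩⟩
        exact ⟨Or.inr ⟨h3, h5⟩, fun h => h.elim h4 fun h => h6 h.2⟩

theorem kf_outer (h1 : ∀ (V V' : Type) [CommRing V] [CommRing V'] [Algebra k V] [Algebra k V'],
      P V → P' V' → Q (TensorProduct k V V')) (Y Y' : Scheme.{0})
    (π : Y ⟶ Spec (CommRingCat.of k)) (π' : Y' ⟶ Spec (CommRingCat.of k))
    (hY' : FilK k P' Y' π' Set.univ) (T : Set Y) (hT : FilK k P Y π T) :
    FilK k Q (Limits.pullback π π') (Limits.pullback.fst π π' ≫ π)
      (Limits.pullback.fst π π' ⁻¹' T) := by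
  induction hT with
  | empty =>
    rw [Set.preimage_empty]
    exact FilK.empty
  | step T T' hT hT' U hU V hV i hi hTT' hTU hr _ ih =>
    have h3 := (kf_inner h1 Y Y' π π' T T' hT hT' U hU V hV i hi hTT' hTU hr ih
      Set.univ hY').2
    rw [Set.preimage_univ, Set.inter_univ, Set.union_eq_self_of_subset_left
      (Set.preimage_mono hTT')] at h3
    exact h3

/-- products of filtered schemes are filtered, two predicates -/
theorem kf_prod (h1 : ∀ (V V' : Type) [CommRing V] [CommRing V'] [Algebra k V] [Algebra k V'],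
      P V → P' V' → Q (TensorProduct k V V')) (Y Y' : Scheme.{0})
    (π : Y ⟶ Spec (CommRingCat.of k)) (π' : Y' ⟶ Spec (CommRingCat.of k))
    (hY : FilK k P Y π Set.univ) (hY' : FilK k P' Y' π' Set.univ) :
    FilK k Q (Limits.pullback π π') (Limits.pullback.fst π π' ≫ π) Set.univ := by
  have h3 := kf_outer h1 Y Y' π π' hY' Set.univ hY
  rwa [Set.preimage_univ] at h3

end prod

section ten

variable (q : ℕ) {k B : Type} [Field k] [CommRing B] [Algebra k B] {s n : ℕ}
  (a : Fin s → Fin n → k)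

/-- the relations over `k` -/
def kf_r (i : Fin s) : MvPolynomial (Fin s ⊕ Fin n) k :=
  MvPolynomial.X (Sum.inl i) ^ q + MvPolynomial.X (Sum.inl i) -
    ∑ j, MvPolynomial.C (a i j) * MvPolynomial.X (Sum.inr j) ^ (q + 1)

theorem kf_r_map (i : Fin s) : MvPolynomial.map (algebraMap k B) (kf_r q a i) =
    MvPolynomial.X (Sum.inl i) ^ q + MvPolynomial.X (Sum.inl i) -
      MvPolynomial.C ((0 : Fin s → B) i) -
      ∑ j, MvPolynomial.C (algebraMap k B (a i j)) * MvPolynomial.X (Sum.inr j) ^ (q + 1) := by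
  unfold kf_r
  simp only [map_sub, map_add, map_pow, map_sum, map_mul, MvPolynomial.map_X,
    MvPolynomial.map_C, Pi.zero_apply, map_zero, sub_zero]

/-- the tensor product -/
def kf_T (B : Type) [CommRing B] [Algebra k B] : Type := HermRing q a ⊗[k] B

instance : CommRing (kf_T q a B) := inferInstanceAs (CommRing (HermRing q a ⊗[k] B))

instance : Algebra k (kf_T q a B) := inferInstanceAs (Algebra k (HermRing q a ⊗[k] B))

/-- the inclusion of the first factor -/
def kf_l : HermRing q a →ₐ[k] kf_T q a B :=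
  (Algebra.TensorProduct.includeLeft : HermRing q a →ₐ[k] HermRing q a ⊗[k] B)

/-- the inclusion of the second factor -/
def kf_rr : B →ₐ[k] kf_T q a B :=
  (Algebra.TensorProduct.includeRight : B →ₐ[k] HermRing q a ⊗[k] B)

/-- the map to the tensor product, before the quotient -/
def kf_f0 : MvPolynomial (Fin s ⊕ Fin n) B →+* kf_T q a B :=
  MvPolynomial.eval₂Hom (kf_rr q a).toRingHom
    (fun v => kf_l q a (Ideal.Quotient.mk _ (MvPolynomial.X v)))

theorem kf_f0_C (b : B) : kf_f0 q a (MvPolynomial.C b) = kf_rr q a b := by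
  unfold kf_f0
  rw [MvPolynomial.coe_eval₂Hom, MvPolynomial.eval₂_C]
  rfl

theorem kf_f0_X (v : Fin s ⊕ Fin n) : kf_f0 (B := B) q a (MvPolynomial.X v) =
    kf_l q a (Ideal.Quotient.mk _ (MvPolynomial.X v)) := by
  unfold kf_f0
  rw [MvPolynomial.coe_eval₂Hom, MvPolynomial.eval₂_X]

theorem kf_f0_map (z : MvPolynomial (Fin s ⊕ Fin n) k) :
    kf_f0 (B := B) q a (MvPolynomial.map (algebraMap k B) z) =
      kf_l q a (Ideal.Quotient.mk _ z) := by
  induction z using MvPolynomial.induction_on with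
  | C c =>
    rw [MvPolynomial.map_C, kf_f0_C, AlgHom.commutes]
    exact ((kf_l (B := B) q a).commutes c).symm
  | add x y hx hy => rw [map_add, map_add, hx, hy, map_add, map_add]
  | mul_X x v hx => rw [map_mul, map_mul, hx, map_mul, MvPolynomial.map_X, kf_f0_X, map_mul]

theorem kf_f0_ker : ∀ z ∈ Ideal.span (Set.range fun i : Fin s =>
        MvPolynomial.X (Sum.inl i) ^ q + MvPolynomial.X (Sum.inl i) -
          MvPolynomial.C ((0 : Fin s → B) i) -
          ∑ j, MvPolynomial.C (algebraMap k B (a i j)) *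
            MvPolynomial.X (Sum.inr j) ^ (q + 1)), kf_f0 (B := B) q a z = 0 := by
  intro z hz
  induction hz using Submodule.span_induction with
  | mem z hz =>
    obtain ⟨i, rfl⟩ := hz
    beta_reduce
    rw [← kf_r_map, kf_f0_map]
    have h1 : (Ideal.Quotient.mk (Ideal.span (Set.range (kf_r q a)))) (kf_r q a i) = 0 :=
      Ideal.Quotient.eq_zero_iff_mem.2 (Ideal.subset_span ⟨i, rfl⟩)
    exact (congrArg (kf_l (B := B) q a) h1).trans (map_zero _)
  | zero => exact map_zero _
  | add x y _ _ hx hy => rw [map_add, hx, hy, add_zero]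
  | smul c x _ hx => rw [smul_eq_mul, map_mul, hx, mul_zero]

/-- the map to the tensor product -/
def kf_f : HermB q (0 : Fin s → B) a →+* kf_T q a B :=
  Ideal.Quotient.lift _ (kf_f0 q a) (kf_f0_ker q a)

theorem kf_f_mk (z : MvPolynomial (Fin s ⊕ Fin n) B) :
    kf_f q a (Ideal.Quotient.mk _ z) = kf_f0 (B := B) q a z := rfl

/-- the map from the Hermitian ring over `k`, before the quotient -/
def kf_g00 : MvPolynomial (Fin s ⊕ Fin n) k →ₐ[k] HermB q (0 : Fin s → B) a :=
  MvPolynomial.aeval fun v => Ideal.Quotient.mk _ (MvPolynomial.X v)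

theorem kf_g00_eq (z : MvPolynomial (Fin s ⊕ Fin n) k) : kf_g00 (B := B) q a z =
    Ideal.Quotient.mk _ (MvPolynomial.map (algebraMap k B) z) := by
  induction z using MvPolynomial.induction_on with
  | C c =>
    rw [MvPolynomial.map_C]
    exact (kf_g00 (B := B) q a).commutes c
  | add x y hx hy => rw [map_add, hx, hy, map_add, map_add]
  | mul_X x v hx =>
    rw [map_mul, hx, map_mul, map_mul, MvPolynomial.map_X]
    congr 1
    exact MvPolynomial.aeval_X _ v

theorem kf_g00_ker : ∀ z ∈ Ideal.span (Set.range fun i : Fin s =>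
        MvPolynomial.X (Sum.inl i) ^ q + MvPolynomial.X (Sum.inl i) -
          ∑ j, MvPolynomial.C (a i j) *
            MvPolynomial.X (Sum.inr j) ^ (q + 1)), kf_g00 (B := B) q a z = 0 := by
  intro z hz
  induction hz using Submodule.span_induction with
  | mem z hz =>
    obtain ⟨i, rfl⟩ := hz
    beta_reduce
    have h1 := kf_r_map (B := B) q a i
    unfold kf_r at h1
    rw [kf_g00_eq, h1]
    exact Ideal.Quotient.eq_zero_iff_mem.2 (Ideal.subset_span ⟨i, rfl⟩)
  | zero => exact map_zero _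
  | add x y _ _ hx hy => rw [map_add, hx, hy, add_zero]
  | smul c x _ hx => rw [smul_eq_mul, map_mul, hx, mul_zero]

/-- the map from the Hermitian ring over `k` -/
def kf_g0 : HermRing q a →ₐ[k] HermB q (0 : Fin s → B) a :=
  Ideal.Quotient.liftₐ _ (kf_g00 q a) (kf_g00_ker q a)

theorem kf_g0_mk (z : MvPolynomial (Fin s ⊕ Fin n) k) :
    kf_g0 (B := B) q a (Ideal.Quotient.mk _ z) = kf_g00 q a z := rfl

/-- the map from the tensor product -/
def kf_g : kf_T q a B →ₐ[k] HermB q (0 : Fin s → B) a :=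
  (Algebra.TensorProduct.lift (kf_g0 q a) (IsScalarTower.toAlgHom k B _)
    (fun _ _ => Commute.all _ _) : HermRing q a ⊗[k] B →ₐ[k] HermB q (0 : Fin s → B) a)

theorem kf_g_tmul (x : HermRing q a) (b : B) : kf_g (B := B) q a (kf_l q a x * kf_rr q a b) =
    kf_g0 q a x * Ideal.Quotient.mk _ (MvPolynomial.C b) := by
  have h1 : kf_l (B := B) q a x * kf_rr q a b = (x ⊗ₜ[k] b : HermRing q a ⊗[k] B) := by
    have h2 : ((x ⊗ₜ[k] (1 : B)) * ((1 : HermRing q a) ⊗ₜ[k] b) : HermRing q a ⊗[k] B) =
      x ⊗ₜ[k] b := by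
      rw [Algebra.TensorProduct.tmul_mul_tmul, mul_one, one_mul]
    exact h2
  rw [h1]
  exact Algebra.TensorProduct.lift_tmul _ _ _ _ _

theorem kf_T_ind {P : kf_T q a B → Prop} (h0 : P 0) (h1 : ∀ x b, P (kf_l q a x * kf_rr q a b))
    (h2 : ∀ x y, P x → P y → P (x + y)) (z : kf_T q a B) : P z := by
  refine TensorProduct.induction_on (motive := fun z : HermRing q a ⊗[k] B => P z) z h0
    (fun x b => ?_) h2
  have h3 : kf_l (B := B) q a x * kf_rr q a b = (x ⊗ₜ[k] b : HermRing q a ⊗[k] B) := by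
    have h2 : ((x ⊗ₜ[k] (1 : B)) * ((1 : HermRing q a) ⊗ₜ[k] b) : HermRing q a ⊗[k] B) =
      x ⊗ₜ[k] b := by
      rw [Algebra.TensorProduct.tmul_mul_tmul, mul_one, one_mul]
    exact h2
  have h4 := h1 x b
  rw [h3] at h4
  exact h4

theorem kf_iso' : Nonempty (HermB q (0 : Fin s → B) a ≃+* kf_T q a B) := by
  have h1 : ((kf_g q a).toRingHom.comp (kf_f q a) : HermB q (0 : Fin s → B) a →+* _) =
      RingHom.id _ := by
    apply Ideal.Quotient.ringHom_ext
    apply MvPolynomial.ringHom_ext
    · intro b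
      rw [RingHom.comp_apply, RingHom.comp_apply, kf_f_mk, kf_f0_C]
      have h2 := kf_g_tmul q a (1 : HermRing q a) b
      rw [map_one, map_one, one_mul, one_mul] at h2
      exact h2
    · intro v
      rw [RingHom.comp_apply, RingHom.comp_apply, kf_f_mk, kf_f0_X]
      have h2 := kf_g_tmul q a (Ideal.Quotient.mk _ (MvPolynomial.X v)) (1 : B)
      rw [map_one, mul_one, map_one, map_one, mul_one, kf_g0_mk] at h2
      refine h2.trans ?_
      exact MvPolynomial.aeval_X _ v
  have h2 : ∀ z : kf_T q a B, kf_f q a (kf_g q a z) = z := by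
    intro z
    induction z using kf_T_ind with
    | h0 => rw [map_zero, map_zero]
    | h2 x y hx hy => rw [map_add, map_add, hx, hy]
    | h1 x b =>
      obtain ⟨x, rfl⟩ := Ideal.Quotient.mk_surjective x
      rw [kf_g_tmul, map_mul, kf_f_mk, kf_f0_C, kf_g0_mk, kf_g00_eq, kf_f_mk, kf_f0_map]
  exact ⟨RingEquiv.ofRingHom (kf_f q a) (kf_g q a).toRingHom (RingHom.ext h2) h1⟩

theorem kf_iso : Nonempty (HermB q (0 : Fin s → B) a ≃+* HermRing q a ⊗[k] B) :=
  kf_iso' q a

end ten

theorem thm_KF : St_KF := by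
  intro p m q t k _ hk Y π h
  haveI := hk.finite
  haveI := hk.charP
  haveI : Fact p.Prime := ⟨hk.hp⟩
  cases h with
  | old _ _ h =>
    refine k_fil (P := fun V _ _ => IsAQk p k V) (fun V _ _ hV => ?_) (T := Set.univ) (π := π) ?_
    · refine thm_R5.1 p V ?_
      obtain ⟨s, n, H, f, hf, hV'⟩ := hV
      refine ⟨k, inferInstance, inferInstance, inferInstance, s, n, H, f, hf, ?_⟩
      obtain ⟨e⟩ := hV'
      exact ⟨e.toRingEquiv⟩
    · have h2 := src_fil h
      generalize (Set.univ : Set Y) = T at h2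
      induction h2 with
      | empty => exact FilK.empty
      | step T T' hT hT' U hU V hV i hi hTT' hTU hr _ ih =>
        exact FilK.step T T' hT hT' U hU V hV i hi hTT' hTU hr ih
  | fam _ _ h =>
    refine k_fil (fun V _ _ hV => ?_) h
    obtain ⟨B, _, _, s, n, h, a, _, ha, H0, He, Ho, ⟨e⟩⟩ := hV
    exact GoodP.of_equiv e.symm.toRingEquiv (relP hk h a ha H0 He Ho)
  | prod ev Y S π σ h h' =>
    refine k_fil (P := fun V _ _ => GoodP p V) (fun V _ _ hV => hV)
      (kf_prod (fun V B _ _ _ _ hV hB => ?_) Y S π σ (thm_Q6 p m q t k hk ev Y π h) h')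
    obtain ⟨s, n, a, ha, hev, ⟨e⟩⟩ := hV
    obtain ⟨_, H0, Ho⟩ := hB
    obtain ⟨e1⟩ := kf_iso (B := B) q a
    refine GoodP.of_equiv (e1.trans (Algebra.TensorProduct.congr e.symm
      (AlgEquiv.refl : B ≃ₐ[k] B)).toRingEquiv) ?_
    have hsum : ∀ c : Fin s → k, (∑ i, algebraMap k B (c i) * (0 : Fin s → B) i) = 0 := by
      intro c
      refine Finset.sum_eq_zero fun i _ => ?_
      rw [Pi.zero_apply, mul_zero]
    refine relP hk (0 : Fin s → B) a ha H0 (fun c _ _ => ?_) (fun c hc hn => ?_)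
    · rw [hsum]
      obtain ⟨s, hs⟩ := exists_tr hk
      refine (clsH_goodP hk).split H0 s _ ?_
      have h1 := congrArg (Polynomial.map (algebraMap k B)) hs
      rw [Polynomial.map_add, Polynomial.map_pow, Polynomial.map_X, Polynomial.map_prod] at h1
      rw [Polynomial.C_0, sub_zero, h1]
      refine Finset.prod_congr rfl fun θ _ => ?_
      rw [Polynomial.map_sub, Polynomial.map_X, Polynomial.map_C]
    · rw [hsum, Polynomial.C_0, zero_add]
      refine Ho ?_
      cases ev with
      | true => exact absurd (hev rfl c hc) hn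
      | false => rfl

end Pool.Agent.KTH
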