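import Pool.Agent.KTH.St
import Pool.Agent.THY.Fil

/-!
# KTH, module Q1: products of filtered schemes
-/

set_option autoImplicit false

namespace Pool.Agent.KTH

open CategoryTheory AlgebraicGeometry Pool.Agent.THY

theorem filK_of_pfil {k : Type} [Field k] {P : ∀ (V : Type) [CommRing V] [Algebra k V], Prop}
    {Y : Scheme.{0}} {π : Y ⟶ Spec (CommRingCat.of k)} {T : Set Y} (h : PFilK k P Y π T) :
    FilK k P Y π T := by
  induction h with
  | empty => exact FilK.empty
  | step T T' hT hT' U hU V hV i hi hTT' hTU hr _ ih =>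
    exact FilK.step T T' hT hT' U hU V hV i hi hTT' hTU hr ih

theorem pfil_of_filK {k : Type} [Field k] {P : ∀ (V : Type) [CommRing V] [Algebra k V], Prop}
    {Y : Scheme.{0}} {π : Y ⟶ Spec (CommRingCat.of k)} {T : Set Y} (h : FilK k P Y π T) :
    PFilK k P Y π T := by
  induction h with
  | empty => exact PFilK.empty
  | step T T' hT hT' U hU V hV i hi hTT' hTU hr _ ih =>
    exact PFilK.step T T' hT hT' U hU V hV i hi hTT' hTU hr ih

theorem thm_Q1 : St_Q1 := by
  intro k _ P hP Y Y' π π' h h'
  exact filK_of_pfil (pfil_prod hP Y Y' π π' (pfil_of_filK h) (pfil_of_filK h'))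

end Pool.Agent.KTH
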