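import Pool.Agent.KTH.St
import Pool.Agent.KSS.Q1a

/-!
# KTH / Q2: tensor products of Hermitian rings
-/

set_option autoImplicit false

noncomputable section

namespace Pool.Agent.KTH

open MvPolynomial TensorProduct Pool.Agent.HPow

/-- The block matrix. -/
def q2_A {k : Type} [Field k] {s n s' n' : ℕ} (a : Fin s → Fin n → k) (a' : Fin s' → Fin n' → k) :
    Fin (s + s') → Fin (n + n') → k :=
  Fin.append (fun i => Fin.append (a i) (fun _ => 0)) (fun i => Fin.append (fun _ => 0) (a' i))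

theorem q2_count {k : Type} [Field k] {n n' : ℕ} (f : Fin (n + n') → k) :
    Nat.card {j // f j ≠ 0} = Nat.card {j : Fin n // f (Fin.castAdd n' j) ≠ 0} +
      Nat.card {j : Fin n' // f (Fin.natAdd n j) ≠ 0} := by
  classical
  rw [Nat.card_eq_fintype_card, Nat.card_eq_fintype_card, Nat.card_eq_fintype_card,
    Fintype.card_subtype, Fintype.card_subtype, Fintype.card_subtype, Finset.card_filter,
    Finset.card_filter, Finset.card_filter, Fin.sum_univ_add]

/-- The block matrix is Hermitian. -/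
theorem q2_core (q : ℕ) (ev : Bool) (k : Type) [Field k] {s n s' n' : ℕ} (a : Fin s → Fin n → k)
    (a' : Fin s' → Fin n' → k) (h0 : 0 < s + s' → (0 : k) ^ q = 0)
    (ha : ∀ i j, a i j ^ q = a i j) (ha' : ∀ i j, a' i j ^ q = a' i j)
    (he : ev = true → ∀ c : Fin s → k, (∀ i, c i ^ q = c i) →
      Even (Nat.card {j // ∑ i, c i * a i j ≠ 0}))
    (he' : ev = true → ∀ c : Fin s' → k, (∀ i, c i ^ q = c i) →
      Even (Nat.card {j // ∑ i, c i * a' i j ≠ 0}))
    (V V' : Type) [CommRing V] [CommRing V'] [Algebra k V] [Algebra k V']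
    (e₁ : V ≃ₐ[k] HermRing q a) (e₂ : V' ≃ₐ[k] HermRing q a') :
    IsHerm q ev k (TensorProduct k V V') := by
  refine ⟨s + s', n + n', q2_A a a', ?_, ?_, ?_⟩
  · intro i j
    have h0 := h0 (by have := i.pos; omega)
    unfold q2_A
    refine Fin.addCases (fun i => ?_) (fun i => ?_) i <;>
    refine Fin.addCases (fun j => ?_) (fun j => ?_) j <;>
    simp only [Fin.append_left, Fin.append_right, h0, ha, ha']
  · intro hev c hc
    rw [q2_count]
    have h1 : ∀ j : Fin n, ∑ i, c i * q2_A a a' i (Fin.castAdd n' j) =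
        ∑ i : Fin s, c (Fin.castAdd s' i) * a i j := by
      intro j
      rw [Fin.sum_univ_add]
      unfold q2_A
      simp only [Fin.append_left, Fin.append_right, mul_zero, Finset.sum_const_zero, add_zero]
    have h2 : ∀ j : Fin n', ∑ i, c i * q2_A a a' i (Fin.natAdd n j) =
        ∑ i : Fin s', c (Fin.natAdd s i) * a' i j := by
      intro j
      rw [Fin.sum_univ_add]
      unfold q2_A
      simp only [Fin.append_left, Fin.append_right, mul_zero, Finset.sum_const_zero, zero_add]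
    simp only [h1, h2]
    exact (he hev _ fun i => hc _).add (he' hev _ fun i => hc _)
  · let e : (Fin s ⊕ Fin n) ⊕ (Fin s' ⊕ Fin n') ≃ Fin (s + s') ⊕ Fin (n + n') :=
      (Equiv.sumSumSumComm _ _ _ _).trans (Equiv.sumCongr finSumFinEquiv finSumFinEquiv)
    obtain ⟨E⟩ := Pool.Agent.KSS.Q1a_equiv (k := k) (fun i : Fin s =>
        X (Sum.inl i) ^ q + X (Sum.inl i) - ∑ j : Fin n, C (a i j) * X (Sum.inr j) ^ (q + 1))
      (fun i : Fin s' =>
        X (Sum.inl i) ^ q + X (Sum.inl i) - ∑ j : Fin n', C (a' i j) * X (Sum.inr j) ^ (q + 1))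
      (fun i : Fin (s + s') =>
        X (Sum.inl i) ^ q + X (Sum.inl i) -
          ∑ j : Fin (n + n'), C (q2_A a a' i j) * X (Sum.inr j) ^ (q + 1)) e
      (Fin.castAdd s') (Fin.natAdd s) (by
        intro i
        rw [Fin.sum_univ_add]
        unfold q2_A
        simp only [Fin.append_left, Fin.append_right, map_sub, map_add, map_pow, rename_X, map_sum,
          map_mul, rename_C, C_0, zero_mul, Finset.sum_const_zero, add_zero]
        rfl) (by
        intro i
        rw [Fin.sum_univ_add]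
        unfold q2_A
        simp only [Fin.append_left, Fin.append_right, map_sub, map_add, map_pow, rename_X, map_sum,
          map_mul, rename_C, C_0, zero_mul, Finset.sum_const_zero, zero_add]
        rfl) (by
        intro i
        refine Fin.addCases (fun j => Or.inl ⟨j, rfl⟩) (fun j => Or.inr ⟨j, rfl⟩) i)
    exact ⟨(Algebra.TensorProduct.congr e₁ e₂).trans E⟩

/-- For `q = 0` the variables `y_i` can be eliminated. -/
theorem q2_elim {k : Type} [Field k] {s n : ℕ} (a : Fin s → Fin n → k) :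
    Nonempty (HermRing 0 a ≃ₐ[k] MvPolynomial (Fin n) k) := by
  obtain ⟨r, hr⟩ : ∃ r : Fin s → MvPolynomial (Fin s ⊕ Fin n) k, r = fun i =>
    X (Sum.inl i) ^ 0 + X (Sum.inl i) - ∑ j, C (a i j) * X (Sum.inr j) ^ (0 + 1) := ⟨_, rfl⟩
  change Nonempty ((MvPolynomial (Fin s ⊕ Fin n) k ⧸ Ideal.span (Set.range (fun i =>
    X (Sum.inl i) ^ 0 + X (Sum.inl i) - ∑ j, C (a i j) * X (Sum.inr j) ^ (0 + 1)))) ≃ₐ[k] _)
  rw [← hr]
  let φ : MvPolynomial (Fin s ⊕ Fin n) k →ₐ[k] MvPolynomial (Fin n) k :=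
    aeval (Sum.elim (fun i => (∑ j, C (a i j) * X j) - 1) X)
  have hφ : ∀ x ∈ Ideal.span (Set.range r), φ x = 0 := by
    have h : Ideal.span (Set.range r) ≤ RingHom.ker φ.toRingHom := by
      rw [Ideal.span_le]
      rintro _ ⟨i, rfl⟩
      change φ (r i) = 0
      rw [hr]
      simp only [φ, map_sub, map_add, map_one, aeval_X, map_sum, map_mul, Sum.elim_inl,
        Sum.elim_inr, pow_zero, zero_add, pow_one]
      have hC : ∀ c : k, (aeval (Sum.elim (fun i => (∑ j, C (a i j) * X j) - 1) X) :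
          MvPolynomial (Fin s ⊕ Fin n) k →ₐ[k] MvPolynomial (Fin n) k) (C c) = C c := by
        intro c
        rw [aeval_C]
        rfl
      simp only [hC]
      ring
    exact fun x hx => h hx
  let F := Ideal.Quotient.liftₐ (Ideal.span (Set.range r)) φ hφ
  let B : MvPolynomial (Fin n) k →ₐ[k] (MvPolynomial (Fin s ⊕ Fin n) k ⧸ Ideal.span (Set.range r)) :=
    (Ideal.Quotient.mkₐ k _).comp (rename Sum.inr)
  refine ⟨AlgEquiv.ofAlgHom F B ?_ ?_⟩
  · apply MvPolynomial.algHom_ext
    intro j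
    change φ (rename Sum.inr (X j)) = X j
    rw [rename_X]
    simp [φ]
  · apply Ideal.Quotient.algHom_ext
    apply MvPolynomial.algHom_ext
    rintro (i | j)
    · change Ideal.Quotient.mk _ (rename Sum.inr (φ (X (Sum.inl i)))) =
        Ideal.Quotient.mk _ (X (Sum.inl i))
      rw [eq_comm, Ideal.Quotient.eq]
      have : X (Sum.inl i) - (rename Sum.inr (φ (X (Sum.inl i)))) = r i := by
        rw [hr]
        simp [φ]
        ring
      rw [this]
      exact Ideal.subset_span ⟨i, rfl⟩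
    · change Ideal.Quotient.mk _ (rename Sum.inr (φ (X (Sum.inr j)))) =
        Ideal.Quotient.mk _ (X (Sum.inr j))
      simp [φ]

theorem thm_Q2 : St_Q2 := by
  rintro q ev k _ V V' _ _ _ _ ⟨s, n, a, ha, he, ⟨e₁⟩⟩ ⟨s', n', a', ha', he', ⟨e₂⟩⟩
  rcases Nat.eq_zero_or_pos q with rfl | hq
  · obtain ⟨E₁⟩ := q2_elim a
    obtain ⟨E₂⟩ := q2_elim a'
    obtain ⟨E₃⟩ := q2_elim (fun (i : Fin 0) (_ : Fin n) => (0 : k))
    obtain ⟨E₄⟩ := q2_elim (fun (i : Fin 0) (_ : Fin n') => (0 : k))
    refine q2_core 0 ev k (fun (i : Fin 0) (_ : Fin n) => (0 : k))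
      (fun (i : Fin 0) (_ : Fin n') => (0 : k)) (fun h => absurd h (by simp))
      (fun i => i.elim0) (fun i => i.elim0) ?_ ?_ V V'
      ((e₁.trans E₁).trans E₃.symm) ((e₂.trans E₂).trans E₄.symm)
    · intro _ c _
      simp
    · intro _ c _
      simp
  · exact q2_core q ev k a a' (fun _ => zero_pow hq.ne') ha ha' he he' V V' e₁ e₂

end Pool.Agent.KTH
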