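import Pool.Agent.KTH.K
import Pool.Agent.RHS.Par

/-!
# The concrete theorem on `K'₀`: relative form; definitions and statement

HUNT line S for MP_e17fa799_al (architect helper33).
-/

set_option autoImplicit false

namespace Pool.Agent.KTH

open CategoryTheory AlgebraicGeometry Polynomial Pool.Agent.HPow Pool.Agent.RHS

/-- `G₀` of `B[y] / (y ^ q + y - h_c)`, `h_c = ∑ c_i h_i`, is good for all `c ∈ 𝔽_q ^ s` such that the
number of the variables in the form `∑ c_i a_ij x_j ^ (q + 1)` is even. -/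
def FamEven (p q : ℕ) {k : Type} [Field k] {B : Type} [CommRing B] [Algebra k B] {s n : ℕ}
    (h : Fin s → B) (a : Fin s → Fin n → k) : Prop :=
  ∀ c : Fin s → k, (∀ i, c i ^ q = c i) → Even (Nat.card {j // ∑ i, c i * a i j ≠ 0}) →
    GoodP p (AS1 q B (∑ i, algebraMap k B (c i) * h i))

/-- `G₀` of `B[x, y] / (y ^ q + y - h_c - x ^ (q + 1))`, `h_c = ∑ c_i h_i`, is good for all
`c ∈ 𝔽_q ^ s` such that the number of the variables in the form `∑ c_i a_ij x_j ^ (q + 1)` is odd. -/
def FamOdd (p q : ℕ) {k : Type} [Field k] {B : Type} [CommRing B] [Algebra k B] {s n : ℕ}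
    (h : Fin s → B) (a : Fin s → Fin n → k) : Prop :=
  ∀ c : Fin s → k, (∀ i, c i ^ q = c i) → ¬ Even (Nat.card {j // ∑ i, c i * a i j ≠ 0}) →
    GoodP p (AS1 q B[X] (C (∑ i, algebraMap k B (c i) * h i) + X ^ (q + 1)))

/-- A family of Hermitian rings over a noetherian `k`-algebra `B` with good groups: `V` is isomorphic
over `k` to `B[y₁, …, y_s, x₁, …, x_n] / (y_i ^ q + y_i - h_i - ∑ a_ij x_j ^ (q + 1))`, `h_i ∈ B`,
`a_ij ∈ 𝔽_q`; `G₀` of `B` is good, and for all `c ∈ 𝔽_q ^ s`, `h_c = ∑ c_i h_i`, `G₀` of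
`B[y] / (y ^ q + y - h_c)` resp. of `B[x, y] / (y ^ q + y - h_c - x ^ (q + 1))` is good if the number
of the variables in the form `∑ c_i a_ij x_j ^ (q + 1)` is even resp. odd. -/
def IsFam (p q : ℕ) (k : Type) [Field k] (V : Type) [CommRing V] [Algebra k V] : Prop :=
  ∃ (B : Type) (_ : CommRing B) (_ : Algebra k B) (s n : ℕ) (h : Fin s → B)
    (a : Fin s → Fin n → k), IsNoetherianRing B ∧ (∀ i j, a i j ^ q = a i j) ∧ GoodP p B ∧
    FamEven p q h a ∧ FamOdd p q h a ∧ Nonempty (V ≃ₐ[k] HermB q h a)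

/-- The pieces of the bases of products: `G₀(B)` is good and, if `ev` is `false`, also
`G₀(B[x, y] / (y ^ q + y - x ^ (q + 1)))`. -/
def IsBase (p q : ℕ) (ev : Bool) (k : Type) [Field k] (B : Type) [CommRing B] [Algebra k B] :
    Prop :=
  IsNoetherianRing B ∧ GoodP p B ∧ (ev = false → GoodP p (AS1 q B[X] (X ^ (q + 1))))

/-- The `k`-schemes which are allowed in the theorem: the members of the class `Src` of the first
version, the schemes filtered by families of Hermitian rings, and the products over `k` of a member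
of `SrcH` and a `k`-scheme `S` filtered by affine schemes `Spec B` with good `K'₀`. -/
inductive SrcK (p q : ℕ) (k : Type) [Field k] : (Y : Scheme.{0}) →
    (Y ⟶ Spec (CommRingCat.of k)) → Prop
  | old (Y : Scheme.{0}) (π : Y ⟶ Spec (CommRingCat.of k)) (h : Pool.Agent.KSS.Src p k Y π) :
      SrcK p q k Y π
  | fam (Y : Scheme.{0}) (π : Y ⟶ Spec (CommRingCat.of k))
      (h : FilK k (fun V _ _ => IsFam p q k V) Y π Set.univ) : SrcK p q k Y π
  | prod (ev : Bool) (Y S : Scheme.{0}) (π : Y ⟶ Spec (CommRingCat.of k))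
      (σ : S ⟶ Spec (CommRingCat.of k)) (h : SrcH q ev k Y π)
      (h' : FilK k (fun B _ _ => IsBase p q ev k B) S σ Set.univ) :
      SrcK p q k (Limits.pullback π σ) (Limits.pullback.fst π σ ≫ π)

/-- **KF** (helper38). Members of `SrcK` are filtered by good affine pieces. `old`: `src_fil`, `thm_R5`
(1) of KSS. `fam`: `relP`. `prod`: `thm_Q6`, the version of `pfil_prod` for two different predicates,
`HermRing q a ⊗[k] B ≅ HermB q 0 a`, and `relP` for `h = 0` (`AS1 q B 0` is a product of `q` copies of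
`B`). Then `k_fil`. needs: nothing -/
def St_KF : Prop := ∀ (p m q t : ℕ) (k : Type) [Field k], Setg p m q t k →
  ∀ (Y : Scheme.{0}) (π : Y ⟶ Spec (CommRingCat.of k)), SrcK p q k Y π → GFil p Y Set.univ

end Pool.Agent.KTH
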