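import Pool.Agent.KTH.Theory
import Pool.Agent.KTH.Fin
import Pool.Agent.KPR.KX

/-!
# Line S for all `n`: the sources; definitions

MP_e17fa799_al (architect helper33). `KX n X` is Quillen's group `K'_n(X)`.
-/

set_option autoImplicit false

namespace Pool.Agent.KTH

open CategoryTheory AlgebraicGeometry Polynomial Pool.Agent.HPow Pool.Agent.RHS Pool.Agent.KPR

/-- The condition on a base scheme `B`: `B` is of finite type over `ℤ` of dimension at most one, or
`p ^ e K'_n(B)` is contained in a finitely generated subgroup, for some `e`. (It is used for schemes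
over finite fields only.) -/
def BaseOk (p n : ℕ) (B : Scheme.{0}) : Prop :=
  (FTZ B ∧ topologicalKrullDim B ≤ 1) ∨ GdG p (KX n B)

/-- the scheme `Spec R × S` (product over `ℤ`) -/
noncomputable def bx (R : Type) [CommRing R] (S : Scheme.{0}) : Scheme.{0} := px (Sp R) S

/-- the scheme `H × S`, `H` the affine curve `y ^ q + y = x ^ (q + 1)` over `k` -/
noncomputable def hx (q : ℕ) (k : Type) [Field k] (S : Scheme.{0}) : Scheme.{0} := bx (HR q k) S

/-- the scheme `Spec (B[y] / (y ^ q + y - h)) × S` -/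
noncomputable def ax (q : ℕ) (B : Type) [CommRing B] (h : B) (S : Scheme.{0}) : Scheme.{0} :=
  bx (AS1 q B h) S

/-- the scheme `Spec (B[x, y] / (y ^ q + y - h - x ^ (q + 1))) × S` -/
noncomputable def ax' (q : ℕ) (B : Type) [CommRing B] (h : B) (S : Scheme.{0}) : Scheme.{0} :=
  bx (AS1 q B[X] (C h + X ^ (q + 1))) S

/-- A family of Hermitian rings: `V` is isomorphic over `k` to
`B[y₁, …, y_s, x₁, …, x_r] / (y_i ^ q + y_i - h_i - ∑ a_ij x_j ^ (q + 1))`, where `B` is a noetherian
`k`-algebra, `h_i ∈ B`, `a_ij ∈ 𝔽_q`; `Spec B × S` satisfies the condition `BaseOk`, and for all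
`c ∈ 𝔽_q ^ s`, `h_c = ∑ c_i h_i`, so does `Spec (B[y] / (y ^ q + y - h_c)) × S` resp.
`Spec (B[x, y] / (y ^ q + y - h_c - x ^ (q + 1))) × S` if the number of the variables in the form
`∑ c_i a_ij x_j ^ (q + 1)` is even resp. odd. -/
def IsFamN (p n q : ℕ) (S : Scheme.{0}) (k : Type) [Field k] (V : Type) [CommRing V]
    [Algebra k V] : Prop :=
  ∃ (B : Type) (_ : CommRing B) (_ : Algebra k B) (s r : ℕ) (h : Fin s → B)
    (a : Fin s → Fin r → k), IsNoetherianRing B ∧ (∀ i j, a i j ^ q = a i j) ∧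
    BaseOk p n (bx B S) ∧ (∀ c : Fin s → k, (∀ i, c i ^ q = c i) →
      (Even (Nat.card {j // ∑ i, c i * a i j ≠ 0}) →
        BaseOk p n (ax q B (∑ i, algebraMap k B (c i) * h i) S)) ∧
      (¬ Even (Nat.card {j // ∑ i, c i * a i j ≠ 0}) →
        BaseOk p n (ax' q B (∑ i, algebraMap k B (c i) * h i) S))) ∧
    Nonempty (V ≃ₐ[k] HermB q h a)

/-- The pairs of a `k`-scheme `Y` and a scheme `S` which are allowed in the theorem: `Y` belongs to
`SrcH` and `Spec k × S` and, unless `Y` is even (`ev = true`), `H × S` satisfy `BaseOk`; or `Y` is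
filtered by families of Hermitian rings. -/
inductive SrcN (p n q : ℕ) (S : Scheme.{0}) (k : Type) [Field k] : (Y : Scheme.{0}) →
    (Y ⟶ Spec (CommRingCat.of k)) → Prop
  | herm (ev : Bool) (Y : Scheme.{0}) (π : Y ⟶ Spec (CommRingCat.of k)) (h : SrcH q ev k Y π)
      (h1 : BaseOk p n (bx k S)) (h2 : ev = false → BaseOk p n (hx q k S)) : SrcN p n q S k Y π
  | fam (Y : Scheme.{0}) (π : Y ⟶ Spec (CommRingCat.of k))
      (h : FilK k (fun V _ _ => IsFamN p n q S k V) Y π Set.univ) : SrcN p n q S k Y π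

/-- `Z` is a source: `Z` is open and closed in `Y × S`, where `S` is of finite type over `ℤ` and `Y` is
a noetherian scheme over a field `k` with `q ^ (2 t)` elements, `q = p ^ m`, `m, t ≥ 1`, such that the
pair `Y`, `S` satisfies `SrcN`. -/
def IsSourceN (p n : ℕ) (Z : Scheme.{0}) : Prop :=
  ∃ (m q t : ℕ) (k : Type) (_ : Field k) (_ : Setg p m q t k) (Y : Scheme.{0})
    (_ : IsNoetherian Y) (π : Y ⟶ Spec (CommRingCat.of k)) (S : Scheme.{0}) (_ : FTZ S)
    (_ : SrcN p n q S k Y π) (c : Z ⟶ px Y S), OpenImm c ∧ IsClosedImmersion c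

/-- The theorem: let `X` be a noetherian scheme and `f_j : Z_j ⟶ X` finitely many finite flat
morphisms of sources. If at every point of `X` the greatest common divisor of the ranks of the `f_j`
divides `N`, then `(p N) ^ e K'_n(X)` is contained in a finitely generated subgroup, for some `e`. -/
def DomN (p n : ℕ) : Prop :=
  ∀ (X : Scheme.{0}) [IsNoetherian X] (J : Type) [Finite J] (Z : J → Scheme.{0})
    (f : ∀ j, Z j ⟶ X) [∀ j, IsFinite (f j)] [∀ j, Flat (f j)], (∀ j, IsSourceN p n (Z j)) →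
  ∀ N : ℕ, (∀ x : X, ∀ d : ℕ, (∀ j, d ∣ (f j).finrank x) → d ∣ N) → GdG (p * N) (KX n X)

end Pool.Agent.KTH
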