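import Pool.Agent.KTH.Src
import Pool.Agent.THY.Cls
import Pool.Agent.RHS.Base
import Pool.Agent.KSS.InstSt

/-!
# KTH: statements of the modules

HUNT line S for MP_e17fa799_al (architect helper33); paper: HUNT_e17_S.md in the team store.
Every `def St_X : Prop` is one module `Pool/Agent/KTH/X.lean` with `theorem thm_X (h.. : St_..) : St_X`
in the namespace `Pool.Agent.KTH`; the hypotheses may be any of the statements listed after `needs`.
-/

set_option autoImplicit false

namespace Pool.Agent.KTH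

open CategoryTheory AlgebraicGeometry Pool.Agent.HPow Pool.Agent.THY

universe u

/-! ## Groups -/

/-- **GG** (1 h). Good groups. (1) subgroups: `G ∩ A` for an injective `φ` (a subgroup of a finitely
generated abelian group is finitely generated: `Pool/Agent/HPow/Cl.lean` has the needed facts,
e.g. `cl_fg_map`); (2) quotients; (3) exact sequences `A → B → C`: `N^e B` maps to a f.g. subgroup of
`C`, the image of `B` is good by (1), lift generators; (4) families (see `GoodP.of_family`); (5) change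
of `N`; (6) trivial group. needs: nothing -/
def St_GG : Prop :=
  (∀ (N : ℕ) (A : Type u) (B : Type u) [AddCommGroup A] [AddCommGroup B] (φ : A →+ B),
    Function.Injective φ → GdG N B → GdG N A) ∧
  (∀ (N : ℕ) (A : Type u) (B : Type u) [AddCommGroup A] [AddCommGroup B] (φ : A →+ B),
    Function.Surjective φ → GdG N A → GdG N B) ∧
  (∀ (N : ℕ) (A B C : Type u) [AddCommGroup A] [AddCommGroup B] [AddCommGroup C]
    (φ : A →+ B) (ψ : B →+ C), (∀ x, ψ x = 0 → ∃ a, φ a = x) → GdG N A → GdG N C → GdG N B) ∧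
  (∀ (N e : ℕ) (B : Type u) [AddCommGroup B] (I : Type) [Finite I] (A : I → Type u)
    [∀ i, AddCommGroup (A i)] (φ : ∀ i, A i →+ B),
    (∀ x : B, N ^ e • x ∈ ⨆ i, (φ i).range) → (∀ i, GdG N (A i)) → GdG N B) ∧
  (∀ (M N : ℕ) (A : Type u) [AddCommGroup A], M ∣ N → GdG M A → GdG N A) ∧
  (∀ (N : ℕ) (A : Type u) [AddCommGroup A], Subsingleton A → GdG N A)

/-! ## Part T: theories -/

/-- **T1** (2 h). First facts. (1) isomorphisms: `pull f`, `push f` are inverse to each other
(`bc` for the square `X = X`, `f`, `f`; functoriality). (2) `T ∅ = 0`: `ex0` for `i = j = 𝟙`.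
(3) surjective closed immersions: bijective (`dev`; `ex` with `U = ∅`). (4) a closed immersion `i` and
an open immersion `j` with complementary ranges: exact sequence for good groups (`St_GG` (3)).
(5) products of rings: `x = ∑ push (pull x)` over the two factors (`bc` for
`X₁ = X₁ ×_X X₁`, `∅ = X₁ ×_X X₂`, and `ex`); here for a finite product `∏ R_i`, by induction or
directly: the family of `pull`s is injective by `ex`, …. (6) for an open and closed immersion the
push-forward is injective (`bc` for `Z = Z ×_X Z`). needs: GG -/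
def St_T1 : Prop := ∀ T : Thy.{u},
  (∀ (X Y : Scheme.{0}) [IsNoetherian X] [IsNoetherian Y] (f : X ⟶ Y) [IsIso f],
    Function.Bijective (T.push f) ∧ Function.Bijective (T.pull f) ∧
    (∀ x, T.pull f (T.push f x) = x) ∧ ∀ y, T.push f (T.pull f y) = y) ∧
  (∀ X : Scheme.{0}, IsEmpty X → ∀ x : T.T X, x = 0) ∧
  (∀ (Z X : Scheme.{0}) [IsNoetherian X] (i : Z ⟶ X) [IsClosedImmersion i],
    Function.Surjective i → Function.Bijective (T.push i)) ∧
  (∀ (N : ℕ) (Z X U : Scheme.{0}) [IsNoetherian X] (i : Z ⟶ X) (j : U ⟶ X)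
    [IsClosedImmersion i] [IsOpenImmersion j], Set.range i = (Set.range j)ᶜ →
    GdG N (T.T Z) → GdG N (T.T U) → GdG N (T.T X)) ∧
  (∀ (I : Type) [Fintype I] (R : I → Type) [∀ i, CommRing (R i)] [∀ i, IsNoetherianRing (R i)]
    [∀ i, Flat (Sm (Pi.evalRingHom R i))] [∀ i, IsFinite (Sm (Pi.evalRingHom R i))]
    (x : T.T (Sp (∀ i, R i))),
    x = ∑ i, T.push (Sm (Pi.evalRingHom R i)) (T.pull (Sm (Pi.evalRingHom R i)) x)) ∧
  (∀ (Z X : Scheme.{0}) [IsNoetherian X] (i : Z ⟶ X) [IsClosedImmersion i] [IsOpenImmersion i],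
    Function.Injective (T.push i))

/-- `T (Spec R)` is good if `R` is noetherian. -/
def GR (T : Thy.{u}) (N : ℕ) (R : Type) [CommRing R] : Prop :=
  IsNoetherianRing R → GdG N (T.T (Sp R))

/-- **TR** (2 h). The closure properties `iso`, `zero`, `loc`, `poly`, `free` for `GR T p`. `loc`:
`Spec (R ⧸ s) → Spec R` and `Spec V → Spec R` (closed, open immersion with complementary ranges:
`PrimeSpectrum.localization_away_comap_range`, zero loci), `St_T1` (4); `poly`: `Thy.hom` with
`X = Spec R`; `free`: `Thy.free` with `X = Spec R`: `p ^ e x = push (pull x)` (`W'` is noetherian if `W`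
is). needs: GG, T1 -/
def St_TR : Prop := ∀ (p : ℕ) [Fact p.Prime] (T : Thy.{u}),
  (∀ (R S : Type) [CommRing R] [CommRing S], (R ≃+* S) → GR T p R → GR T p S) ∧
  (∀ (R : Type) [CommRing R], Subsingleton R → GR T p R) ∧
  (∀ (R V : Type) [CommRing R] [IsNoetherianRing R] [CommRing V] [Algebra R V] (s : R)
    [IsLocalization.Away s V], GR T p (R ⧸ Ideal.span {s}) → GR T p V → GR T p R) ∧
  (∀ (R : Type) [CommRing R] [IsNoetherianRing R], GR T p R → GR T p (Polynomial R)) ∧
  (∀ (W W' : Type) [CommRing W] [CommRing W'] [Algebra W W'] (e : ℕ)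
    (_ : Module.Basis (Fin (p ^ e)) W W'), GR T p W' → GR T p W)

/-- **TG** (2.5 h). Galois extensions. `A → B` finite flat, noetherian, with automorphisms `σ γ` of
the `A`-algebra `B` such that `B ⊗[A] B → ∏_γ B`, `u ⊗ v ↦ (u σ_γ(v))_γ` is bijective. Then
`pull ∘ push` along `Spec B → Spec A` is the sum of the `pull`s along the `Spec σ_γ`. Proof. `Thy.bc` for
the square `g' = Spec (v ↦ (σ_γ v)_γ)`, `f' = Spec (u ↦ (u)_γ)` (cartesian, as `Spec (B ⊗[A] B)` is the
fibre product, `isPullback_SpecMap_of_isPushout` or similar), `St_T1` (5) for `∏_γ B`,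
functoriality. needs: T1 -/
def St_TG : Prop := ∀ (T : Thy.{u}) (A B : Type) [CommRing A] [CommRing B]
  [IsNoetherianRing A] [IsNoetherianRing B] [Algebra A B] (Γ : Type) [Fintype Γ] (σ : Γ → B ≃ₐ[A] B)
  [Flat (Sm (algebraMap A B))] [IsFinite (Sm (algebraMap A B))]
  [∀ γ, Flat (Sm ((σ γ : B ≃ₐ[A] B) : B →+* B))],
  (∃ φ : TensorProduct A B B ≃+* (Γ → B), ∀ (u v : B) (γ : Γ), φ (u ⊗ₜ[A] v) γ = u * σ γ v) →
  ∀ x : T.T (Sp B), T.pull (Sm (algebraMap A B)) (T.push (Sm (algebraMap A B)) x) =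
    ∑ γ, T.pull (Sm ((σ γ : B ≃ₐ[A] B) : B →+* B)) x

/-- **TX** (3 h). The property `asx`. Adapt `sum_tr`, `line_sum`, `line_good` of
`Pool/Agent/HPow/Line.lean` (`line_tr`, `line_count`, `exists_tau2` and all the isomorphisms are reused as
they are), with `G0 R` replaced by `T.T (Sp R)`, `eqG e` (`e : S ≃+* R`) by `T.push (Sm e)` or
`T.pull (Sm e.symm)`; in `sum_tr` the bijection `B ⊗[A] B ≅ ∏ B`, `B = AS1 q R g`, `A = R`, needed in
`St_TG` follows from the Vandermonde determinant exactly as `Pool/Agent/HPow/Gal.lean` (the powers of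
`root` are a basis of `B`, the differences `σ_b root - σ_c root` are units) or from the Chinese
remainder theorem; at the end `St_GG` (4). `Flat`, `IsFinite` for `Spec (AS1 q R g) → Spec R`:
`Module.Free`, `Module.Finite` (`Monic.free_adjoinRoot`, …). needs: GG, T1, TG -/
def St_TX : Prop := ∀ (p m q t : ℕ) (k : Type) [Field k], Setg p m q t k → ∀ (T : Thy.{u})
  (W : Type) [CommRing W] [IsNoetherianRing W] [Algebra k W] (f g : W),
  GdG p (T.T (Sp (AS1 q W g))) →
  (∀ c : k, c ^ q = c → GdG p (T.T (Sp (AS1 q W (f + algebraMap k W c * g))))) →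
  GdG p (T.T (Sp (V2 q W f g)))

open Polynomial in
/-- **TD** (helper94). The property `red` (elimination of a variable). `B = AS1 q W[X] (g X + h)`,
`q x = N x + ∑_b (x - b^* x)` for `x ∈ T (Spec B)`; `N x = pull (push x)` along `Spec B → Spec W[X]`
(`St_TG`) is pulled back from `Spec W`; over `W_g`: `B[1/g] = W_g[y]`, `b^* = id` as
`T (W_g) → T (W_g[y])` is onto; so `q x - N x` comes from `B / g = (AS1 q (W / g) h)[X]`.
needs: GG, T1, TG -/
def St_TD : Prop := ∀ (p m q t : ℕ) (k : Type) [Field k], Setg p m q t k → ∀ (T : Thy.{u})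
  (W : Type) [CommRing W] [IsNoetherianRing W] [Algebra k W] (g h : W), GdG p (T.T (Sp W)) →
  GdG p (T.T (Sp (AS1 q (W ⧸ Ideal.span {g}) (Ideal.Quotient.mk _ h)))) →
  GdG p (T.T (Sp (AS1 q W[X] (C g * X + C h))))

open Polynomial in
/-- **HC** (helper38, `Pool/Agent/THY`). Hermitian rings are good for every predicate with the closure
properties. needs: nothing -/
def St_HC : Prop := ∀ (p m q t : ℕ) (k : Type) [Field k], Setg p m q t k →
  ∀ (G : ∀ (R : Type) [CommRing R], Prop), ClsH p q k G → G k →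
  ∀ (s n : ℕ) (a : Fin s → Fin n → k), (∀ i j, a i j ^ q = a i j) →
    ((∃ c : Fin s → k, (∀ i, c i ^ q = c i) ∧ ¬ Even (Nat.card {j // ∑ i, c i * a i j ≠ 0})) →
      G (HR q k)) →
    G (HermRing q a)

/-! ## Part R: the theory `X ↦ T (X × S)` -/

/-- **R1** (2 h). The product functor. (1) functoriality; (2) the square is cartesian
(`Limits.pullback.map`, `IsPullback.of_right` …); (3) stable properties and ranges; (4) cartesian
squares go to cartesian squares; (5) `px X S` is noetherian for noetherian `X` and `S` of finite type over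
`ℤ`. needs: nothing -/
def St_R1 : Prop := ∀ S : Scheme.{0},
  (∀ X : Scheme.{0}, pmap (𝟙 X) S = 𝟙 _) ∧
  (∀ (X Y Z : Scheme.{0}) (f : X ⟶ Y) (g : Y ⟶ Z), pmap (f ≫ g) S = pmap f S ≫ pmap g S) ∧
  (∀ (X Y : Scheme.{0}) (f : X ⟶ Y), IsPullback (pmap f S) (pfst X S) (pfst Y S) f) ∧
  (∀ (X Y : Scheme.{0}) (f : X ⟶ Y), (Flat f → Flat (pmap f S)) ∧
    (IsFinite f → IsFinite (pmap f S)) ∧ (IsClosedImmersion f → IsClosedImmersion (pmap f S)) ∧
    (IsOpenImmersion f → IsOpenImmersion (pmap f S)) ∧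
    (Function.Surjective f → Function.Surjective (pmap f S)) ∧
    Set.range (pmap f S) = pfst Y S ⁻¹' Set.range f) ∧
  (∀ (X' X Y' Y : Scheme.{0}) (g' : X' ⟶ X) (f' : X' ⟶ Y') (f : X ⟶ Y) (g : Y' ⟶ Y),
    IsPullback g' f' f g → IsPullback (pmap g' S) (pmap f' S) (pmap f S) (pmap g S)) ∧
  (∀ X : Scheme.{0}, IsNoetherian X → LocallyOfFiniteType (Limits.terminal.from S) →
    QuasiCompact (Limits.terminal.from S) → IsNoetherian (px X S))

/-- **R2** (2.5 h). `X ↦ T (X × S)` is a theory (`S` of finite type over `Spec ℤ`). Take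
`T' X = T (px X S)`, `pull f = T.pull (pmap f S)`, …; `hom` and `free`: paste the cartesian squares
(`St_R1` (3) and the given one). The statement is formulated with isomorphisms `ε X` to avoid
dependent types (`ε X` is the identity). needs: R1 -/
def St_R2 : Prop := ∀ (T : Thy.{u}) (S : Scheme.{0}),
  LocallyOfFiniteType (Limits.terminal.from S) → QuasiCompact (Limits.terminal.from S) →
  ∃ (T' : Thy.{u}) (ε : ∀ X, T'.T X ≃+ T.T (px X S)),
    (∀ (X Y : Scheme.{0}) (f : X ⟶ Y) [Flat f] [Flat (pmap f S)] (x : T'.T Y),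
      ε X (T'.pull f x) = T.pull (pmap f S) (ε Y x)) ∧
    (∀ (X Y : Scheme.{0}) (f : X ⟶ Y) [IsFinite f] [IsFinite (pmap f S)] (x : T'.T X),
      ε Y (T'.push f x) = T.push (pmap f S) (ε X x))

/-! ## Parts F, Q: filtered schemes -/

/-- the closure properties for predicates on schemes -/
structure SCls (P : Scheme.{0} → Prop) : Prop where
  empty : ∀ X : Scheme.{0}, IsEmpty X → P X
  loc : ∀ (Z X U : Scheme.{0}) [IsNoetherian X] (i : Z ⟶ X) (j : U ⟶ X) [IsClosedImmersion i]
    [IsOpenImmersion j], Set.range i = (Set.range j)ᶜ → P Z → P U → P X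
  dev : ∀ (Z X : Scheme.{0}) [IsNoetherian X] (i : Z ⟶ X) [IsClosedImmersion i],
    Function.Surjective i → (P Z ↔ P X)

/-- **FI** (3 h). Filtered schemes. Induction over `FilK` for all `Z`, `i`. `empty`: `Z` is empty.
`step` (with the immersion `i₀ : Spec V → U`): `j : Z_U = i ⁻¹ᵁ U → Z`; let `Z'' → Z` be the reduced
closed subscheme with the complementary range (`IdealSheafData.vanishingIdeal`, `subschemeι`,
`range_subschemeι`); its range in `Y` is `T' \ U = T`, so `P Z''` by induction. `Z_U → U` is a closed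
immersion with range `T' ∩ U`, the range of `i₀`; the fibre product `Z_U ×_U Spec V` has surjective
closed immersions to both: `P Z_U` by `SCls.dev`, twice. `SCls.loc`. (`U`, `Z` are noetherian.)
needs: nothing -/
def St_FI : Prop := ∀ (P : Scheme.{0} → Prop), SCls P → ∀ (k : Type) [Field k]
  (Q : ∀ (V : Type) [CommRing V] [Algebra k V], Prop)
  (Y : Scheme.{0}) [IsNoetherian Y] (π : Y ⟶ Spec (CommRingCat.of k)) (T : Set Y),
  (∀ (V : Type) [CommRing V] [Algebra k V], Q V → P (Sp V)) →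
  FilK k Q Y π T → ∀ (Z : Scheme.{0}) (i : Z ⟶ Y) [IsClosedImmersion i],
    Set.range i = T → P Z

/-- **Q1** (45 min). Products. Copy of `Pool/Agent/KSS/Q1.lean` (`Pool.Agent.KSS.thm_Q1b` is used as it
is). needs: nothing -/
def St_Q1 : Prop := ∀ (k : Type) [Field k] (P : ∀ (V : Type) [CommRing V] [Algebra k V], Prop),
  (∀ (V V' : Type) [CommRing V] [CommRing V'] [Algebra k V] [Algebra k V'], P V → P V' →
    P (TensorProduct k V V')) →
  ∀ (Y Y' : Scheme.{0}) (π : Y ⟶ Spec (CommRingCat.of k)) (π' : Y' ⟶ Spec (CommRingCat.of k)),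
    FilK k P Y π Set.univ → FilK k P Y' π' Set.univ →
      FilK k P (Limits.pullback π π') (Limits.pullback.fst π π' ≫ π) Set.univ

/-- **Q2** (1.5 h). Tensor products of Hermitian rings are Hermitian: the block matrix
(`Pool/Agent/KSS/Q1a.lean` is the model); the numbers of variables add up. needs: nothing -/
def St_Q2 : Prop := ∀ (q : ℕ) (ev : Bool) (k : Type) [Field k] (V V' : Type) [CommRing V]
  [CommRing V'] [Algebra k V] [Algebra k V'], IsHerm q ev k V → IsHerm q ev k V' →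
    IsHerm q ev k (TensorProduct k V V')

/-- **Q3** (1.5 h). The charts of the first kind of the Fermat hypersurface. Adapt
`Pool/Agent/KSS/Q3d.lean` (`Q3d.chart`; reuse its public lemmas). The piece is
`1 + y + y ^ q + ∑_{i ≥ 2j+2} x_i ^ (q + 1) = 0` with the free variables `x_1, x_3, …, x_(2j-1)`:
isomorphic to `HermRing q a`, `a` with the entries `0` (`j` times) and `-1` (`n - 2 j - 2` times), by
`y ↦ y + y₀`, `y₀ ^ q + y₀ = -1` (`Pool/Agent/HPow/Fq.lean`); for `c ∈ 𝔽_q` the number of the variables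
is `0` or `n - 2 j - 2`. needs: nothing -/
def St_Q3 : Prop := ∀ (p m q t : ℕ) (k : Type) [Field k] [CharP k p] [Finite k],
  Setg p m q t k → ∀ (ev : Bool) (n : ℕ), (ev = true → Even n) → ∀ (z : k), z ^ (q + 1) = -1 →
  ∀ (j : ℕ) (hj : 2 * j + 1 < n),
    ∃ (V : Type) (_ : CommRing V) (_ : Algebra k V) (θ : MvPolynomial (Fin n) k →ₐ[k] V),
      IsHerm q ev k V ∧ IsReduced V ∧ Function.Surjective θ ∧
      θ (Pool.Agent.KSS.Ef n z j (by omega)) = 1 ∧ θ (∑ i, MvPolynomial.X i ^ (q + 1)) = 0 ∧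
      (∀ (a : ℕ) (ha : a < j), θ (Pool.Agent.KSS.Ef n z a (by omega)) = 0) ∧
      RingHom.ker θ.toRingHom ≤ Ideal.span
        ({Pool.Agent.KSS.Ef n z j (by omega) - 1, ∑ i, MvPolynomial.X i ^ (q + 1)} ∪
          Set.range fun a : Fin j => Pool.Agent.KSS.Ef n z a (by omega))

/-- **Q4** (45 min). The charts of the second kind. As `Pool/Agent/KSS/Q3e.lean`: `V` is a polynomial
ring, `HermRing` with `s = 0`. needs: nothing -/
def St_Q4 : Prop := ∀ (k : Type) [Field k] (q : ℕ) (ev : Bool) (n : ℕ) (z : k),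
  z ^ (q + 1) = -1 → ∀ (j : ℕ) (hj : 2 * j + 1 < n),
    ∃ (V : Type) (_ : CommRing V) (_ : Algebra k V) (θ : MvPolynomial (Fin n) k →ₐ[k] V),
      IsHerm q ev k V ∧ IsReduced V ∧ Function.Surjective θ ∧
      θ (MvPolynomial.X ⟨2 * j + 1, hj⟩) = 1 ∧ θ (∑ i, MvPolynomial.X i ^ (q + 1)) = 0 ∧
      (∀ (a : ℕ) (ha : 2 * a < n), θ (Pool.Agent.KSS.Ef n z a ha) = 0) ∧
      (∀ (a : ℕ) (ha : a < j), θ (MvPolynomial.X ⟨2 * a + 1, by omega⟩) = 0) ∧
      RingHom.ker θ.toRingHom ≤ Ideal.span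
        ({MvPolynomial.X ⟨2 * j + 1, hj⟩ - 1} ∪
          {f | ∃ (a : ℕ) (ha : 2 * a < n), f = Pool.Agent.KSS.Ef n z a ha} ∪
          Set.range fun a : Fin j => MvPolynomial.X (⟨2 * a + 1, by omega⟩ : Fin n))

/-- **Q5** (1.5 h). Fermat hypersurfaces of degree `q + 1` are filtered by Hermitian pieces. Copies of
`Pool/Agent/KSS/Q3f.lean` (with `thm_Q3a`, `thm_Q3b`, `thm_Q3g` of `Pool.Agent.KSS` as they are, for
`FilK k P` and any `P`) and of `Pool/Agent/KSS/Q3.lean`. needs: Q3, Q4 -/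
def St_Q5 : Prop := ∀ (p m q t : ℕ) (k : Type) [Field k] [CharP k p] [Finite k],
  Setg p m q t k → ∀ (ev : Bool) (n : ℕ), (ev = true → Even n) → ∀ (Z : Scheme.{0})
    (i : Z ⟶ Pool.Agent.KSS.PP k n) [IsClosedImmersion i],
    Set.range i = Pool.Agent.KSS.ZL (∑ j, MvPolynomial.X j ^ (q + 1)) →
      FilK k (fun V _ _ => IsHerm q ev k V) Z (i ≫ Pool.Agent.KSS.PPπ k n) Set.univ

/-- **Q6** (20 min). The class `SrcH` is filtered by Hermitian pieces (induction, as `src_fil` in
`Pool/Agent/KSS/SrcThm.lean`; `CharP`, `Finite` from `Setg`). needs: Q1, Q2, Q5 -/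
def St_Q6 : Prop := ∀ (p m q t : ℕ) (k : Type) [Field k], Setg p m q t k → ∀ (ev : Bool)
  (Y : Scheme.{0}) (π : Y ⟶ Spec (CommRingCat.of k)), SrcH q ev k Y π →
    FilK k (fun V _ _ => IsHerm q ev k V) Y π Set.univ

/-! ## Part C: finite flat morphisms -/

/-- **C1** (2.5 h). One step of the covering lemma: for a nonempty noetherian `X` there is a nonempty
open `j : U → X` on which `N x` is in the sum of the images of the `push (f_j)`, precisely
`pull j (N x) = pull j (∑ a_j push f_j (pull f_j x))` for all `x ∈ T X`. Proof. Let `Spec A` be a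
nonempty affine open subscheme, `M_j = Γ(Y_j, f_j⁻¹ Spec A)`, finite flat over the noetherian ring `A`,
so projective; near a point all `M_j` are free, of rank `d_j = finrank f_j` (`Hom.finrank`,
`Module.rankAtStalk`): replace `A` by `A[1/g]`. `N = ∑ a_j d_j` with integers `a_j`
(Bezout, the hypothesis for a point of `Spec A`), `Thy.free` for `X = U = Spec A`, and `Thy.bc` for
`U → X`. needs: nothing -/
def St_C1 : Prop := ∀ (T : Thy.{u}) (X : Scheme.{0}) [IsNoetherian X] [Nonempty X] (J : Type)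
  [Fintype J] (Y : J → Scheme.{0}) (f : ∀ j, Y j ⟶ X) [∀ j, IsFinite (f j)] [∀ j, Flat (f j)]
  (N : ℕ), (∀ x : X, ∀ d : ℕ, (∀ j, d ∣ (f j).finrank x) → d ∣ N) →
  ∃ (U : X.Opens) (a : J → ℤ), (U : Set X).Nonempty ∧ ∀ x : T.T X,
    T.pull U.ι (N • x - ∑ j, a j • T.push (f j) (T.pull (f j) x)) = 0

/-- **C2** (2.5 h). The covering lemma. Noetherian induction over the closed subsets of a noetherian
scheme `X₀` (`TopologicalSpace.NoetherianSpace`), for all closed immersions `X → X₀` with a given range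
(or induction for all noetherian `X` at once: well founded induction over the closed subsets of `X₀`
with the reduced subschemes and `Thy.ex`), and the base changes of the `f_j` (`Hom.finrank` is stable
under base change: `finrank_of_isPullback`). `St_C1`: `N x - ∑ a_j push (pull x) = push i z`,
`i : Z → X` the reduced closed subscheme with range `X \ U` (`Thy.ex`); `N ^ e z` is in the sum of
the images for `Z` by induction, and `push i (push f_j' y) = push f_j (push i' y)`. needs: C1, T1 -/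
def St_C2 : Prop := ∀ (T : Thy.{u}) (X : Scheme.{0}) [IsNoetherian X] (J : Type)
  [Finite J] (Y : J → Scheme.{0}) (f : ∀ j, Y j ⟶ X) [∀ j, IsFinite (f j)] [∀ j, Flat (f j)]
  (N : ℕ), (∀ x : X, ∀ d : ℕ, (∀ j, d ∣ (f j).finrank x) → d ∣ N) →
  ∃ e : ℕ, ∀ x : T.T X, N ^ e • x ∈ ⨆ j, (T.push (f j)).range

/-! ## The theorem -/

/-- **HT** (45 min). The predicate `GR T p` has the closure properties. needs: TR, TX, TD -/
def St_HT : Prop := ∀ (p m q t : ℕ) (k : Type) [Field k], Setg p m q t k → ∀ (T : Thy.{u}),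
  ClsH p q k (fun R _ => GR T p R)

/-- **M** (2 h). The theorem. For each `j` the theory `T'` of `St_R2` for `S j`:
`GdG p (T.T (px X (S j))) ↔ GdG p (T'.T X)` by `ε` (`St_GG` (1)); `St_HT`, `St_HC` for `T'`, `St_T1`
gives `SCls (fun X => IsNoetherian X → GdG p (T'.T X))`, `St_Q6`, `St_FI` for `Z = Y = Y j`; so
`T.T (px (Y j) (S j))` is good, `T.T (Z j)` by `St_T1` (6) and `St_GG` (1); `St_C2`; `St_GG` (4) for
`N' = p * N`, and (5).
needs: GG, T1, R1, R2, HT, HC, FI, Q6, C2 -/
def St_M : Prop := ∀ (p : ℕ) (T : Thy.{u}) (X : Scheme.{0}) [IsNoetherian X] (J : Type) [Finite J]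
  (m q t : J → ℕ) (k : J → Type) [∀ j, Field (k j)], (∀ j, Setg p (m j) (q j) (t j) (k j)) →
  ∀ (ev : J → Bool) (Y : J → Scheme.{0}) [∀ j, IsNoetherian (Y j)]
    (σ : ∀ j, Y j ⟶ Spec (CommRingCat.of (k j))), (∀ j, SrcH (q j) (ev j) (k j) (Y j) (σ j)) →
  ∀ (S : J → Scheme.{0}) [∀ j, LocallyOfFiniteType (Limits.terminal.from (S j))]
    [∀ j, QuasiCompact (Limits.terminal.from (S j))],
    (∀ j, GdG p (T.T (px (Sp (k j)) (S j)))) →
    (∀ j, ev j = false → GdG p (T.T (px (Sp (HR (q j) (k j))) (S j)))) →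
  ∀ (Z : J → Scheme.{0}) (c : ∀ j, Z j ⟶ px (Y j) (S j)) [∀ j, IsOpenImmersion (c j)]
    [∀ j, IsClosedImmersion (c j)] (f : ∀ j, Z j ⟶ X) [∀ j, IsFinite (f j)] [∀ j, Flat (f j)]
    (N : ℕ), (∀ x : X, ∀ d : ℕ, (∀ j, d ∣ (f j).finrank x) → d ∣ N) →
    GdG (p * N) (T.T X)

open Polynomial in
/-- **MB** (helper38). Families of Hermitian rings over a noetherian `k`-algebra `B`, `h_i ∈ B`. From
`St_HT` and `Pool.Agent.THY.ClsH.rel`. needs: HT -/
def St_MB : Prop := ∀ (p m q t : ℕ) (k : Type) [Field k], Setg p m q t k → ∀ (T : Thy.{u})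
  (B : Type) [CommRing B] [IsNoetherianRing B] [Algebra k B] (s n : ℕ) (h : Fin s → B)
  (a : Fin s → Fin n → k), (∀ i j, a i j ^ q = a i j) → GdG p (T.T (Sp B)) →
  (∀ c : Fin s → k, (∀ i, c i ^ q = c i) → Even (Nat.card {j // ∑ i, c i * a i j ≠ 0}) →
    GdG p (T.T (Sp (AS1 q B (∑ i, algebraMap k B (c i) * h i))))) →
  (∀ c : Fin s → k, (∀ i, c i ^ q = c i) → ¬ Even (Nat.card {j // ∑ i, c i * a i j ≠ 0}) →
    GdG p (T.T (Sp (AS1 q B[X] (C (∑ i, algebraMap k B (c i) * h i) + X ^ (q + 1)))))) →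
  GdG p (T.T (Sp (Pool.Agent.RHS.HermB q h a)))

end Pool.Agent.KTH
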